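import Pool.Agent.Lib.MP_a4368a_lc.Complete

/-! Assembly of the drawing. -/

namespace Pool.Agent.Lib.MP_a4368a_lc

open Complex Filter Topology

variable {cs : List Con} {T : Type} {F : Filter T} {val : T → ℕ → ℝ}

theorem mem_nbrs {pt : List Pc} {π : Pc} (h : π ∈ pt) :
    π.b ∈ nbrs π.a pt ∧ (π.a ≠ π.b → π.a ∈ nbrs π.b pt) := by
  refine ⟨List.mem_filterMap.2 ⟨π, h, by simp⟩, fun hne => List.mem_filterMap.2 ⟨π, h, ?_⟩⟩
  have : Nat.beq π.a π.b = false := by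
    rw [Bool.eq_false_iff]; intro h; exact hne (Nat.eq_of_beq_eq_true h)
  simp [this]

theorem half_edge (hval : ∀ i, Tendsto (fun t => val t i) F (𝓝 1)) (hsol : ∀ᶠ t in F, Sol cs (val t))
    {v a : GV} (h : Adj (edges cs) v a) : ∃ m ∈ nbrs v.2 (ptab qz (ty cs v.1)),
      ((m < 1024 ∧ a = (v.1, m)) ∨ (m = 2000 + v.2 ∧ a.1 ≠ v.1 ∧ ∃ s ∈ stubs (ty cs v.1), s.1 = v.2 ∧
        (IsLink cs (v, a) (org v.1 + s.2) ∨ IsLink cs (a, v) (org v.1 + s.2)))) ∧
      ∀ d ∈ lv (ty cs v.1) v.2 m, ∀ᶠ t in F, Ray (PP cs (val t) a - PP cs (val t) v)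
        (evC (dirF (cl (ty cs v.1) (v.2 / 128)) d) (par cs (val t) v.1)) := by
  have ex : ∀ {e : GV × GV} {s1 s2}, LinkData cs e s1 s2 →
      ((s1 ∈ stubsV (ty cs e.1.1) ∧ ∀ v, (PP cs v e.1).re = (PP cs v e.2).re) ∨
        (s1 ∈ stubsH (ty cs e.1.1) ∧ ∀ v, (PP cs v e.1).im = (PP cs v e.2).im)) ∧
      ((s2 ∈ stubsV (ty cs e.2.1) ∧ ∀ v, (PP cs v e.2).re = (PP cs v e.1).re) ∨
        (s2 ∈ stubsH (ty cs e.2.1) ∧ ∀ v, (PP cs v e.2).im = (PP cs v e.1).im)) := by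
    intro e s1 s2 L
    rcases L.kind with ⟨m1, m2, -, -, i, j, k, -, -, hk, ht, rfl⟩ | ⟨m1, m2, -, -, i, j, k, -, -, hk, rfl⟩
    · exact ⟨Or.inl ⟨m1, fun v => vlink_re v hk ht⟩, Or.inl ⟨m2, fun v => (vlink_re v hk ht).symm⟩⟩
    · exact ⟨Or.inr ⟨m1, fun v => hlink_im v hk⟩, Or.inr ⟨m2, fun v => (hlink_im v hk).symm⟩⟩
  rcases h with h | h
  · rcases edge_cases h with ⟨c, hc, f, hf, he⟩ | ⟨s1, s2, L⟩
    · obtain ⟨rfl, rfl⟩ := Prod.mk.inj he
      have wf := tile_wf _ (ty_le cs c)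
      obtain ⟨π, h1, h2, h3, -⟩ := ptab_edge lay_qz (ty_le cs c) hf
      refine ⟨f.2, h2 ▸ h3 ▸ (mem_nbrs h1).1, Or.inl ⟨wf.2.1 _ (wf.1 f hf).2.1, rfl⟩, fun d hd => ?_⟩
      exact ray_inner hval hsol hc (wf.1 f hf).1 (links_ok _ (ty_le cs c) f hf).1 hd
    · obtain ⟨π, h1, h2, h3, -⟩ := ptab_stub lay_qz (ty_le cs _) L.m1
      have p1 : v.2 = s1.1 := L.p1
      refine ⟨2000 + v.2, ?_, Or.inr ⟨rfl, L.ne.symm, s1, L.m1, p1.symm, Or.inl L.isl⟩, fun d hd => ?_⟩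
      · rw [p1, ← h3, ← h2]; exact (mem_nbrs h1).1
      · obtain ⟨r, r0, -, hb⟩ := L.between lay_qz
        exact ray_stub hval p1 r0 hb (ex L).1 hd
  · rcases edge_cases h with ⟨c, hc, f, hf, he⟩ | ⟨s1, s2, L⟩
    · obtain ⟨rfl, rfl⟩ := Prod.mk.inj he
      have wf := tile_wf _ (ty_le cs c)
      obtain ⟨π, h1, h2, h3, -⟩ := ptab_edge lay_qz (ty_le cs c) hf
      refine ⟨f.1, h2 ▸ h3 ▸ (mem_nbrs h1).2 (by rw [h2, h3]; exact (wf.1 f hf).2.2),
        Or.inl ⟨wf.2.1 _ (wf.1 f hf).1, rfl⟩, fun d hd => ?_⟩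
      exact ray_inner hval hsol hc (wf.1 f hf).2.1 (links_ok _ (ty_le cs c) f hf).2 hd
    · obtain ⟨π, h1, h2, h3, -⟩ := ptab_stub lay_qz (ty_le cs _) L.m2
      have p2 : v.2 = s2.1 := L.p2
      have key : org a.1 + s1.2 = org v.1 + s2.2 := L.key
      refine ⟨2000 + v.2, ?_, Or.inr ⟨rfl, L.ne, s2, L.m2, p2.symm, Or.inr (key ▸ L.isl)⟩, fun d hd => ?_⟩
      · rw [p2, ← h3, ← h2]; exact (mem_nbrs h1).1
      · obtain ⟨r, -, r1, hb⟩ := L.between lay_qz
        refine ray_stub hval p2 (sub_pos.2 r1) ?_ (ex L).2 hd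
        simp only at hb
        rw [← key]; push_cast; linear_combination hb

theorem chkQ_sem {τ : ℕ} (hτ : τ ≤ 4) :
    (∀ l ∈ tileVerts τ, ∀ m ∈ tileVerts τ, l = m ∨ qz τ l ≠ qz τ m ∨
      (l / 128 = m / 128 ∧ gl τ l ≠ gl τ m)) ∧
    (∀ l ∈ tileVerts τ, ∀ π ∈ ptab qz τ, l = π.a ∨ l = π.b ∨
      cN (qz τ l).1.toNat (qz τ l).2.toNat ∉ π.seg ∨
      (π.b < 2000 ∧ (locNot τ l π.a π.b = true ∨ locNot τ l π.b π.a = true))) ∧
    ∀ l ∈ tileVerts τ, ∀ m ∈ nbrs l (ptab qz τ), ∀ m' ∈ nbrs l (ptab qz τ), angOK τ l m m' = true := by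
  have := chkQ_all τ hτ
  simp only [chkQ, Bool.and_eq_true, List.all_eq_true, Bool.or_eq_true, Nat.beq_eq,
    decide_eq_true_eq] at this
  obtain ⟨⟨h1, h2⟩, h3⟩ := this
  refine ⟨fun l hl m hm => ?_, fun l hl π hπ => ?_, fun l hl => h3 _ (mem_vtab hl)⟩
  · have := allPairs_sound (R := fun v w => v = w ∨ v.2 ≠ w.2 ∨ (v.1 / 128 = w.1 / 128 ∧ gl τ v.1 ≠ gl τ w.1))
      (fun x y h => h.imp Eq.symm (Or.imp Ne.symm (And.imp Eq.symm Ne.symm))) (fun x => Or.inl rfl)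
      (fun x y h => Or.inr (by
        simp only [Bool.or_eq_true, Bool.and_eq_true, decide_eq_true_eq] at h
        rcases h with h | h
        · left; intro he; simp [he] at h
        · exact Or.inr h)) _ h1 _ (mem_vtab hl) _ (mem_vtab hm)
    rcases this with q | q | q
    · exact Or.inl (congrArg Prod.fst q)
    · exact Or.inr (Or.inl fun he => q (by rw [he]))
    · exact Or.inr (Or.inr q)
  · rcases h2 _ (mem_vtab hl) π hπ with ((q | q) | q) | q
    · exact Or.inl q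
    · exact Or.inr (Or.inl q)
    · exact Or.inr (Or.inr (Or.inl (notOn_sound q)))
    · exact Or.inr (Or.inr (Or.inr q))

theorem toC_eps_ne {ε : ℤ} (hε : ε = 1 ∨ ε = -1) {d : ℤ × ℤ} (hd : d ≠ 0) : toC (d.1, ε * d.2) ≠ 0 := by
  intro h
  have h1 := congrArg Complex.re h
  have h2 := congrArg Complex.im h
  simp only [toC_re, toC_im, zero_re, zero_im, Int.cast_eq_zero] at h1 h2
  apply hd
  refine Prod.ext h1 ?_
  rcases hε with rfl | rfl <;> simpa using h2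

theorem ev_distinct (hval : ∀ i, Tendsto (fun t => val t i) F (𝓝 1)) (hsol : ∀ᶠ t in F, Sol cs (val t))
    {u v : GV} (hu : u ∈ verts cs) (hv : v ∈ verts cs) :
    ∀ᶠ t in F, PP cs (val t) u = PP cs (val t) v → u = v := by
  by_cases hz : Z cs qz u = Z cs qz v
  · obtain ⟨h1, h2⟩ := Z_eq lay_qz hu hv hz
    obtain ⟨c, l⟩ := u
    obtain ⟨c', m⟩ := v
    obtain rfl : c = c' := h1
    have hl := mem_verts.1 hu
    have hm := mem_verts.1 hv
    rcases (chkQ_sem (ty_le cs c)).1 l hl.2 m hm.2 with rfl | q | q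
    · simp
    · exact absurd h2 q
    · filter_upwards [hsol, U_ne hval hm.2] with t ht hU he
      exfalso
      obtain ⟨r, hr, e⟩ := ray_same ht hl.1 hm.2 q.1
      rw [he, sub_self, evC_dirF] at e
      exact mul_ne_zero (by exact_mod_cast hr.ne')
        (mul_ne_zero hU (toC_eps_ne (cl_ok _ (ty_le cs c) m hm.2).1 (sub_ne_zero.2 q.2))) e.symm
  · filter_upwards [((tendsto_PP (cs := cs) hval u).sub (tendsto_PP (cs := cs) hval v)).eventually_ne
      (sub_ne_zero.2 hz)] with t ht he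
    exact absurd (sub_eq_zero.2 he) ht

theorem loc_not (hval : ∀ i, Tendsto (fun t => val t i) F (𝓝 1)) (hsol : ∀ᶠ t in F, Sol cs (val t))
    {c : ℕ × ℕ} (hc : c ∈ cells cs) {l a b : ℕ} (ha : a ∈ tileVerts (ty cs c))
    (ok : LinkOK (ty cs c) a b) (h : locNot (ty cs c) l a b = true) :
    ∀ᶠ t in F, PP cs (val t) (c, l) ∉ segment ℝ (PP cs (val t) (c, a)) (PP cs (val t) (c, b)) := by
  simp only [locNot, Bool.and_eq_true, decide_eq_true_eq, Option.any_eq_true, Bool.or_eq_true] at h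
  obtain ⟨h1, d, hd, h2⟩ := h
  have hε := (cl_ok _ (ty_le cs c) a ha).1
  filter_upwards [hsol, U_ne hval ha, ray_inner hval hsol hc ha ok hd] with t ht hU hr hx
  obtain ⟨r, r0, e1⟩ := hr
  obtain ⟨s, s0, e2⟩ := ray_same ht hc ha h1.symm
  rw [segment_eq_image'] at hx
  obtain ⟨θ, ⟨θ0, -⟩, hθ⟩ := hx
  rw [evC_dirF] at e1 e2
  set δ := gl (ty cs c) l - gl (ty cs c) a
  set ε := (cl (ty cs c) (a / 128)).eps
  have e3 : (s : ℂ) * toC (δ.1, ε * δ.2) = (θ * r : ℝ) * toC (d.1, ε * d.2) := by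
    apply mul_left_cancel₀ hU
    simp only [real_smul] at hθ
    push_cast
    linear_combination -e2 - hθ + θ * e1
  have x1 := congrArg Complex.re e3
  have x2 := congrArg Complex.im e3
  simp only [re_ofReal_mul, im_ofReal_mul, toC_re, toC_im] at x1 x2
  have x3 : s * δ.2 = θ * r * d.2 := by
    rcases hε with q | q <;> rw [q] at x2 <;> push_cast at x2 <;> linarith
  rcases h2 with q | q
  · apply q
    have : s * (crsZ d δ : ℝ) = 0 := by
      simp only [crsZ]; push_cast; linear_combination (d.1 : ℝ) * x3 - (d.2 : ℝ) * x1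
    exact_mod_cast (mul_eq_zero.1 this).resolve_left s0.ne'
  · have q' : (dotZ d δ : ℝ) < 0 := by exact_mod_cast q
    have : s * (dotZ d δ : ℝ) = θ * r * (d.1 * d.1 + d.2 * d.2) := by
      simp only [dotZ]; push_cast; linear_combination (d.1 : ℝ) * x1 + (d.2 : ℝ) * x3
    have h3 := mul_neg_of_pos_of_neg s0 q'
    have h4 : 0 ≤ θ * r * ((d.1 : ℝ) * d.1 + d.2 * d.2) :=
      mul_nonneg (mul_nonneg θ0 r0.le) (add_nonneg (mul_self_nonneg _) (mul_self_nonneg _))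
    linarith

theorem ev_notOn (hval : ∀ i, Tendsto (fun t => val t i) F (𝓝 1)) (hsol : ∀ᶠ t in F, Sol cs (val t))
    {e : GV × GV} (he : e ∈ edges cs) {v : GV} (hv : v ∈ verts cs) :
    ∀ᶠ t in F, PP cs (val t) v ∈ segment ℝ (PP cs (val t) e.1) (PP cs (val t) e.2) →
      v = e.1 ∨ v = e.2 := by
  by_cases hx : Z cs qz v ∈ segment ℝ (Z cs qz e.1) (Z cs qz e.2)
  · obtain ⟨π, hπ, h1, h2, h3, h4⟩ := (cover_vertex lay_qz he hv hx).pc lay_qz
    rw [Z_sub lay_qz hv] at h1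
    have wf := tile_wf _ (ty_le cs v.1)
    have hm := mem_verts.1 hv
    have hl := wf.2.1 _ hm.2
    rcases (chkQ_sem (ty_le cs v.1)).2.1 _ hm.2 π hπ with q | q | q | ⟨q, q'⟩
    · rw [← q] at h2
      exact Eventually.of_forall fun _ _ => h2
    · rcases h4 with h4 | h4
      · exact Eventually.of_forall fun _ _ => Or.inr (by rw [h4.2.1, ← q])
      · omega
    · exact absurd h1 q
    · obtain ⟨-, rfl, hf⟩ := h4.resolve_right (by omega)
      have ok := links_ok _ (ty_le cs v.1) _ hf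
      rcases q' with q' | q'
      · exact (loc_not hval hsol hm.1 (wf.1 _ hf).1 ok.1 q').mono fun t ht hx => absurd hx ht
      · exact (loc_not hval hsol hm.1 (wf.1 _ hf).2.1 ok.2 q').mono fun t ht hx =>
          absurd (by rw [segment_symm]; exact hx) ht
  · have t0 := tendsto_PP (cs := cs) hval v
    have t1 := tendsto_PP (cs := cs) hval e.1
    have t2 := tendsto_PP (cs := cs) hval e.2
    rcases not_mem_segment_iff.1 hx with q | q
    · exact ((tendsto_crs (t2.sub t1) (t0.sub t1)).eventually_ne q).mono fun t ht hx =>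
        absurd hx (not_mem_segment_iff.2 (Or.inl ht))
    · exact ((tendsto_dot (t0.sub t1) (t0.sub t2)).eventually_const_lt q).mono fun t ht hx =>
        absurd hx (not_mem_segment_iff.2 (Or.inr ht))

theorem adj_mem {v a : GV} (h : Adj (edges cs) v a) : v ∈ verts cs ∧ a ∈ verts cs ∧ v ≠ a := by
  rcases h with h | h
  · exact edges_wf cs _ h
  · have := edges_wf cs _ h; exact ⟨this.2.1, this.1, this.2.2.symm⟩

theorem ev_angle (hval : ∀ i, Tendsto (fun t => val t i) F (𝓝 1)) (hsol : ∀ᶠ t in F, Sol cs (val t))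
    {v a b : GV} (ha : Adj (edges cs) v a) (hb : Adj (edges cs) v b) (hab : a ≠ b) :
    ∀ᶠ t in F, A (PP cs (val t) a - PP cs (val t) v) (PP cs (val t) b - PP cs (val t) v) := by
  obtain ⟨m, hm, k1, r1⟩ := half_edge hval hsol ha
  obtain ⟨m', hm', k2, r2⟩ := half_edge hval hsol hb
  have hv := mem_verts.1 (adj_mem ha).1
  have ok := (chkQ_sem (ty_le cs v.1)).2.2 _ hv.2 m hm m' hm'
  simp only [angOK, Bool.or_eq_true, Nat.beq_eq, Option.any_eq_true, decide_eq_true_eq,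
    Bool.and_eq_true] at ok
  rcases ok with (rfl | ⟨d, hd, d', hd', h⟩) | ⟨⟨h1, h2⟩, h⟩
  · exfalso
    rcases k1 with ⟨p1, rfl⟩ | ⟨p1, n1, s, hs, e1, l1⟩ <;>
      rcases k2 with ⟨p2, rfl⟩ | ⟨p2, n2, s', hs', e2, l2⟩
    · exact hab rfl
    · omega
    · omega
    · obtain rfl := (tile_wf _ (ty_le cs v.1)).2.2.2 s hs s' hs' (e1.trans e2.symm)
      rcases l1 with l1 | l1 <;> rcases l2 with l2 | l2 <;> obtain ⟨q1, q2⟩ := Prod.mk.inj (l1.unique l2)
      · exact hab q2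
      · exact n1 (congrArg Prod.fst q2)
      · exact n1 (congrArg Prod.fst q1)
      · exact hab q1
  · have hε := (cl_ok _ (ty_le cs v.1) _ hv.2).1
    filter_upwards [r1 d hd, r2 d' hd', U_ne hval hv.2] with t ⟨r, r0, e1⟩ ⟨s, s0, e2⟩ hU
    rw [e1, e2, A_smul r0 s0, evC_dirF, evC_dirF, A_mul hU]
    unfold A
    rw [dot_toC, crs_toC]
    have : dotZ (d.1, (cl (ty cs v.1) (v.2 / 128)).eps * d.2) (d'.1, (cl (ty cs v.1) (v.2 / 128)).eps * d'.2) ≤
        |crsZ (d.1, (cl (ty cs v.1) (v.2 / 128)).eps * d.2) (d'.1, (cl (ty cs v.1) (v.2 / 128)).eps * d'.2)| := by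
      rcases hε with q | q <;> rw [q]
      · simpa using h
      · have e1 : dotZ (d.1, -1 * d.2) (d'.1, -1 * d'.2) = dotZ d d' := by simp [dotZ]
        have e2 : crsZ (d.1, -1 * d.2) (d'.1, -1 * d'.2) = -crsZ d d' := by simp [crsZ]; ring
        rwa [e1, e2, abs_neg]
    exact_mod_cast this
  · obtain ⟨-, rfl⟩ := k1.resolve_right (by omega)
    obtain ⟨-, rfl⟩ := k2.resolve_right (by omega)
    have t0 := tendsto_PP (cs := cs) hval v
    have t1 := (tendsto_PP (cs := cs) hval (v.1, m)).sub t0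
    have t2 := (tendsto_PP (cs := cs) hval (v.1, m')).sub t0
    have z1 := Z_diff (cs := cs) v.1 v.2 m
    have z2 := Z_diff (cs := cs) v.1 v.2 m'
    rw [Prod.mk.eta] at z1 z2
    rw [z1] at t1
    rw [z2] at t2
    have := (tendsto_dot t1 t2).eventually_lt (tendsto_crs t1 t2).abs
      (by rw [dot_toC, crs_toC]; exact_mod_cast h)
    exact this.mono fun t ht => ht.le

theorem eventually_list {β : Type} {l : List β} {P : T → β → Prop} (h : ∀ x ∈ l, ∀ᶠ t in F, P t x) :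
    ∀ᶠ t in F, ∀ x ∈ l, P t x :=
  (eventually_all_finite (List.finite_toSet l)).2 h

theorem complete [F.NeBot] (hval : ∀ i, Tendsto (fun t => val t i) F (𝓝 1))
    (hsol : ∀ᶠ t in F, Sol cs (val t)) : HasRes (verts cs) (edges cs) (Real.pi / 4) := by
  have h1 : ∀ᶠ t in F, ∀ u ∈ verts cs, ∀ v ∈ verts cs, PP cs (val t) u = PP cs (val t) v → u = v :=
    eventually_list fun u hu => eventually_list fun v hv => ev_distinct hval hsol hu hv
  have h2 : ∀ᶠ t in F, ∀ e ∈ edges cs, ∀ v ∈ verts cs,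
      PP cs (val t) v ∈ segment ℝ (PP cs (val t) e.1) (PP cs (val t) e.2) → v = e.1 ∨ v = e.2 :=
    eventually_list fun e he => eventually_list fun v hv => ev_notOn hval hsol he hv
  have h3 : ∀ᶠ t in F, ∀ v ∈ verts cs, ∀ a ∈ verts cs, ∀ b ∈ verts cs, Adj (edges cs) v a →
      Adj (edges cs) v b → a ≠ b →
      A (PP cs (val t) a - PP cs (val t) v) (PP cs (val t) b - PP cs (val t) v) := by
    refine eventually_list fun v _ => eventually_list fun a _ => eventually_list fun b _ => ?_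
    by_cases h : Adj (edges cs) v a ∧ Adj (edges cs) v b ∧ a ≠ b
    · exact (ev_angle hval hsol h.1 h.2.1 h.2.2).mono fun t ht _ _ _ => ht
    · exact Eventually.of_forall fun t x y z => absurd ⟨x, y, z⟩ h
  obtain ⟨t, a1, a2, a3⟩ := (h1.and (h2.and h3)).exists
  refine ⟨PP cs (val t), ⟨a1, a2⟩, fun v a b ha hb hab => ?_⟩
  have x := adj_mem ha
  have y := adj_mem hb
  exact (angle_iff (sub_ne_zero.2 fun h => x.2.2 (a1 _ x.2.1 _ x.1 h).symm)
    (sub_ne_zero.2 fun h => y.2.2 (a1 _ y.2.1 _ y.1 h).symm)).2 (a3 v x.1 a x.2.1 b y.2.1 ha hb hab)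

end Pool.Agent.Lib.MP_a4368a_lc
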