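import Mathlib
import Pool.Prelude.Def_F_458e953d

/-!
Existential theory of the reals, straight-line drawings, planarity and angular resolution.
-/

namespace Pool.Agent.Lib.MP_a4368a_lc

open N68a2faeb N793a5b8e

/-- Terms of the language of ordered rings. -/
inductive Tm : Type
  | var (i : ℕ) : Tm
  | zero : Tm
  | one : Tm
  | add (s t : Tm) : Tm
  | mul (s t : Tm) : Tm
  | neg (s : Tm) : Tm

/-- Quantifier-free formulas of the language of ordered rings. -/
inductive Fm : Type
  | eq (s t : Tm) : Fm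
  | lt (s t : Tm) : Fm
  | le (s t : Tm) : Fm
  | not (φ : Fm) : Fm
  | and (φ ψ : Fm) : Fm
  | or (φ ψ : Fm) : Fm

/-- Value of a term in the reals. -/
def Tm.eval (x : ℕ → ℝ) : Tm → ℝ
  | .var i => x i
  | .zero => 0
  | .one => 1
  | .add s t => s.eval x + t.eval x
  | .mul s t => s.eval x * t.eval x
  | .neg s => -s.eval x

/-- Truth of a formula in the reals. -/
def Fm.Holds (x : ℕ → ℝ) : Fm → Prop
  | .eq s t => s.eval x = t.eval x
  | .lt s t => s.eval x < t.eval x
  | .le s t => s.eval x ≤ t.eval x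
  | .not φ => ¬ φ.Holds x
  | .and φ ψ => φ.Holds x ∧ ψ.Holds x
  | .or φ ψ => φ.Holds x ∨ ψ.Holds x

/-- Reverse Polish word of a term. -/
def Tm.code : Tm → List ℕ
  | .var i => [i + 11]
  | .zero => [0]
  | .one => [1]
  | .add s t => s.code ++ t.code ++ [2]
  | .mul s t => s.code ++ t.code ++ [3]
  | .neg s => s.code ++ [4]

/-- Reverse Polish word of a formula. -/
def Fm.code : Fm → List ℕ
  | .eq s t => s.code ++ t.code ++ [5]
  | .lt s t => s.code ++ t.code ++ [6]
  | .le s t => s.code ++ t.code ++ [7]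
  | .not φ => φ.code ++ [8]
  | .and φ ψ => φ.code ++ ψ.code ++ [9]
  | .or φ ψ => φ.code ++ ψ.code ++ [10]

open Classical in
/-- The existential theory of the reals: codes of quantifier-free formulas whose existential
closure is true in the reals. -/
noncomputable def ETR : DecisionProblem := fun w =>
  decide (∃ φ : Fm, w = N487b59b3.bitEncode φ.code ∧ ∃ x : ℕ → ℝ, φ.Holds x)

/-- The class of problems that reduce to the existential theory of the reals. -/
def ExistsR : DecisionComplexityClass := {L | ManyOneReducible L ETR}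

variable {α : Type}

/-- The lists `V` and `E` describe a finite simple graph: every edge joins two distinct vertices. -/
def IsGraph (V : List α) (E : List (α × α)) : Prop :=
  ∀ e ∈ E, e.1 ∈ V ∧ e.2 ∈ V ∧ e.1 ≠ e.2

/-- Straight-line drawing in the plane: distinct points, no vertex on an edge not incident to it. -/
def IsDrawing (V : List α) (E : List (α × α)) (p : α → ℂ) : Prop :=
  (∀ u ∈ V, ∀ v ∈ V, p u = p v → u = v) ∧
    ∀ e ∈ E, ∀ v ∈ V, p v ∈ segment ℝ (p e.1) (p e.2) → v = e.1 ∨ v = e.2

/-- Planarity: a straight-line drawing in which edges without a common end do not meet. -/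
def Planar (V : List α) (E : List (α × α)) : Prop :=
  ∃ p : α → ℂ, IsDrawing V E p ∧ ∀ e ∈ E, ∀ f ∈ E, e.1 ≠ f.1 → e.1 ≠ f.2 → e.2 ≠ f.1 → e.2 ≠ f.2 →
    Disjoint (segment ℝ (p e.1) (p e.2)) (segment ℝ (p f.1) (p f.2))

/-- Adjacency. -/
def Adj (E : List (α × α)) (u v : α) : Prop := (u, v) ∈ E ∨ (v, u) ∈ E

/-- There is a straight-line drawing with angular resolution at least `θ`. -/
def HasRes (V : List α) (E : List (α × α)) (θ : ℝ) : Prop :=
  ∃ p : α → ℂ, IsDrawing V E p ∧
    ∀ v a b, Adj E v a → Adj E v b → a ≠ b → θ ≤ EuclideanGeometry.angle (p a) (p v) (p b)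

end Pool.Agent.Lib.MP_a4368a_lc
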