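import Pool.Agent.Lib.MP_a4368a_lc.SoundTiles
import Pool.Agent.Lib.MP_a4368a_lc.Defs

/-! A drawing of the graph gives a solution of the constraints. -/

namespace Pool.Agent.Lib.MP_a4368a_lc

theorem pt_link {adj : GV → GV → Prop} {p : GV → ℂ} (h : Good adj p) {c c' : ℕ × ℕ} {a b a' b' : ℕ}
    {ρ ρ' : ℝ} (h1 : Pt adj p (fun l => (c, l)) a b ρ) (h2 : Pt adj p (fun l => (c', l)) a' b' ρ')
    (hc : c ≠ c') (l1 : adj (c, a) (c', a')) (l2 : adj (c, b) (c', b')) : ρ = ρ' := by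
  obtain ⟨d, w1, r1⟩ := h1
  obtain ⟨d', w2, r2⟩ := h2
  have o1 : ∀ x, Out (fun l => ((c, l) : GV)) (c', x) := fun x i _ he => hc (congrArg Prod.fst he).symm
  have o2 : ∀ x, Out (fun l => ((c', l) : GV)) (c, x) := fun x i _ he => hc (congrArg Prod.fst he)
  exact wire_link w1 w2 ⟨(r1 _ (o1 a')).1 l1, (r2 _ (o2 a)).1 (h.symm _ _ l1)⟩
    ⟨(r1 _ (o1 b')).2 l2, (r2 _ (o2 b)).2 (h.symm _ _ l2)⟩

theorem emb_cell (cs : List Con) (c : ℕ × ℕ) (hc : c ∈ cells cs) :
    Emb (Adj (edges cs)) (fun l => ((c, l) : GV)) (ty cs c) :=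
  ⟨fun _ _ _ _ h => congrArg Prod.snd h, fun e he => Or.inl (mem_edges.2 (Or.inl ⟨c, hc, e, he, rfl⟩))⟩

theorem sound (cs : List Con) (hcs : ∀ j < 3 * cs.length, occ cs j < 3 * cs.length) {p : GV → ℂ}
    (h : Good (Adj (edges cs)) p) : ∃ val : ℕ → ℝ, ∀ c ∈ cs, 0 < val c.2.1 ∧ 0 < val c.2.2.1 ∧
      0 < val c.2.2.2 ∧ Rel c.1 (val c.2.1) (val c.2.2.1) (val c.2.2.2) := by
  set N := 3 * cs.length with hN
  set adj := Adj (edges cs)
  have grid : ∀ i j, ∃ s r : ℝ, i < N → j < N →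
      Pt adj p (fun l => ((i + 1, j), l)) (pS 0) (pS 1) s ∧
      Pt adj p (fun l => ((i + 1, j), l)) (pW (ty cs (i + 1, j)) 0) (pW (ty cs (i + 1, j)) 1) r ∧
      Pt adj p (fun l => ((i + 1, j), l)) (pE (ty cs (i + 1, j)) 0) (pE (ty cs (i + 1, j)) 1) r ∧
      (i ≠ occ cs j → Pt adj p (fun l => ((i + 1, j), l)) (pN 0 0) (pN 0 1) s) ∧
      (i = occ cs j → s = 8 * (r / 10)) := by
    intro i j
    by_cases hij : i < N ∧ j < N
    · have E := emb_cell cs (i + 1, j) (mem_cells.2 (Or.inr ⟨by simp, by simp; omega, hij.2⟩))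
      by_cases ho : i = occ cs j
      · have ht : ty cs (i + 1, j) = 1 := by rw [ty_grid, if_pos ho]
        rw [ht] at E ⊢
        obtain ⟨r, a, b, c⟩ := sound_join h E
        exact ⟨8 * r, 10 * r, fun _ _ => ⟨a, b, c, fun hn => absurd ho hn, fun _ => by ring⟩⟩
      · have ht : ty cs (i + 1, j) = 0 := by rw [ty_grid, if_neg ho]
        rw [ht] at E ⊢
        obtain ⟨s, r, a, b, c, d⟩ := sound_cross h E
        exact ⟨s, r, fun _ _ => ⟨b, c, d, fun _ => a, fun hn => absurd hn ho⟩⟩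
    · exact ⟨0, 0, fun h1 h2 => absurd ⟨h1, h2⟩ hij⟩
  choose S R hSR using grid
  have row : ∀ i < N, ∀ j < N, R i j = R i 0 := by
    intro i hi j
    induction j with
    | zero => intro _; rfl
    | succ j ih =>
      intro hj
      rw [← ih (by omega)]
      have lk : ∀ k < 2, adj (hlink cs i j k).1 (hlink cs i j k).2 := fun k hk =>
        Or.inl (mem_edges.2 (Or.inr (Or.inr ⟨i, j, k, hi, hj, hk, rfl⟩)))
      exact (pt_link h (hSR i j hi (by omega)).2.2.1 (hSR i (j + 1) hi hj).2.1 (by simp)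
        (lk 0 (by omega)) (lk 1 (by omega))).symm
  have col : ∀ j < N, ∀ i ≤ occ cs j, S i j = S 0 j := by
    intro j hj i
    have := hcs j hj
    induction i with
    | zero => intro _; rfl
    | succ i ih =>
      intro hi
      rw [← ih (by omega)]
      have hb : below (i + 1) j = (i + 1, j) := by simp [below]
      have ht : ty cs (i + 1, j) = 0 := by rw [ty_grid, if_neg (by omega)]
      have lk : ∀ k < 2, adj ((i + 1 + 1, j), pS k) ((i + 1, j), pN 0 k) := fun k hk => by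
        have : adj (vlink cs (i + 1) j k).1 (vlink cs (i + 1) j k).2 :=
          Or.inl (mem_edges.2 (Or.inr (Or.inl ⟨i + 1, j, k, by omega, hj, hk, by rw [hb, ht]; omega, rfl⟩)))
        simpa [vlink, hb, ht, sub] using this
      exact pt_link h (hSR (i + 1) j (by omega) hj).1 ((hSR i j (by omega) hj).2.2.2.1 (by omega))
        (by simp) (lk 0 (by omega)) (lk 1 (by omega))
  have colv : ∀ j < N, S 0 j = 8 * (R (occ cs j) 0 / 10) := by
    intro j hj
    rw [← col j hj _ le_rfl, ← row _ (hcs j hj) j hj]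
    exact (hSR _ j (hcs j hj) hj).2.2.2.2 rfl
  refine ⟨fun i => R i 0 / 10, fun c hc => ?_⟩
  obtain ⟨k, hk, rfl⟩ := List.getElem_of_mem hc
  have hg : cs.getD k (0, 0, 0, 0) = cs[k] := by simp [hk]
  have E := emb_cell cs (0, k) (mem_cells.2 (Or.inl ⟨rfl, hk⟩))
  have G : GOut adj (fun l => (((0, k), l) : GV)) cs[k].1 (ty cs (0, k)) p := by
    rw [ty_zero, hg] at E ⊢
    unfold gty at E ⊢
    split_ifs at E ⊢ with h0 h1
    · rw [h0]; exact sound_mid h E
    · rw [h1]; exact sound_quad h E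
    · exact sound_neq h E _ h0 h1
  obtain ⟨a, b, c, ha, hb, hc, rel, p0, p1, p2⟩ := G
  have t1 : ty cs (0, k) ≠ 1 := by have := (ty_ge cs (0, k)).2 rfl; omega
  have key : ∀ q < 3, ∀ x : ℝ, Pt adj p (fun l => (((0, k), l) : GV)) (pN (ty cs (0, k)) (2 * q))
      (pN (ty cs (0, k)) (2 * q + 1)) (8 * x) → R (occ cs (3 * k + q)) 0 / 10 = x := by
    intro q hq x hx
    have hj : 3 * k + q < N := by omega
    have hb : below 0 (3 * k + q) = (0, k) := by simp [below]; omega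
    have hs : sub 0 (3 * k + q) = 2 * q := by simp [sub]; omega
    have lk : ∀ m < 2, adj ((0 + 1, 3 * k + q), pS m) ((0, k), pN (ty cs (0, k)) (2 * q + m)) :=
      fun m hm => by
        have : adj (vlink cs 0 (3 * k + q) m).1 (vlink cs 0 (3 * k + q) m).2 :=
          Or.inl (mem_edges.2 (Or.inr (Or.inl ⟨0, _, m, by omega, hj, hm, by rw [hb]; exact t1, rfl⟩)))
        simpa only [vlink, hb, hs] using this
    have := pt_link h (hSR 0 _ (by omega) hj).1 hx (by simp) (lk 0 (by omega)) (lk 1 (by omega))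
    rw [colv _ hj] at this
    linarith
  have o0 : occ cs (3 * k + 0) = cs[k].2.1 := by simp [occ, hk]
  have o1 : occ cs (3 * k + 1) = cs[k].2.2.1 := by
    have : (3 * k + 1) / 3 = k := by omega
    simp [occ, this, hk]
  have o2 : occ cs (3 * k + 2) = cs[k].2.2.2 := by
    have : (3 * k + 2) / 3 = k := by omega
    simp [occ, this, hk]
  have e0 := key 0 (by omega) a p0
  have e1 := key 1 (by omega) b p1
  have e2 := key 2 (by omega) c p2
  rw [o0] at e0
  rw [o1] at e1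
  rw [o2] at e2
  simp only [e0, e1, e2]
  exact ⟨ha, hb, hc, rel⟩

end Pool.Agent.Lib.MP_a4368a_lc
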