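import Pool.Agent.Lib.MP_a4368a_lc.Machine
import Pool.Agent.Lib.MP_a4368a_lc.Sound
import Pool.Agent.Lib.MP_a4368a_lc.Complete2

/-! From additions and multiplications to the three geometric constraints. -/

namespace Pool.Agent.Lib.MP_a4368a_lc

open Filter Topology

theorem good_of_hasRes {α : Type} {V : List α} {E : List (α × α)} (hG : IsGraph V E)
    (h : HasRes V E (Real.pi / 4)) : ∃ p : α → ℂ, Good (Adj E) p := by
  obtain ⟨p, ⟨h1, -⟩, h2⟩ := h
  have ne : ∀ u v, Adj E u v → p u ≠ p v := by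
    rintro u v (h | h) e
    · exact (hG _ h).2.2 (h1 _ (hG _ h).1 _ (hG _ h).2.1 e)
    · exact (hG _ h).2.2 (h1 _ (hG _ h).1 _ (hG _ h).2.1 e.symm)
  exact ⟨p, fun u v h => h.symm, ne, fun v a b ha hb hab =>
    (angle_iff (sub_ne_zero.2 (ne _ _ ha).symm) (sub_ne_zero.2 (ne _ _ hb).symm)).1 (h2 v a b ha hb hab)⟩

abbrev PV : Type := RV ⊕ (RCon × ℕ)
abbrev PCon : Type := ℕ × PV × PV × PV

def prim (c : RCon) : List PCon :=
  if c.1 = true then
    [(0, .inl c.2.1, .inl c.2.2.1, .inr (c, 0)), (0, .inl c.2.2.2, .inl vZ, .inr (c, 0))]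
  else
    [(0, .inl c.2.2.1, .inr (c, 1), .inl vZ), (0, .inl vO, .inr (c, 2), .inl vZ),
      (0, .inl c.2.1, .inl c.2.2.1, .inr (c, 3)), (0, .inl c.2.1, .inr (c, 1), .inr (c, 4)),
      (0, .inl c.2.2.2, .inl vO, .inr (c, 5)), (0, .inl c.2.2.2, .inr (c, 2), .inr (c, 6)),
      (1, .inr (c, 3), .inr (c, 7), .inl vZ), (1, .inr (c, 4), .inr (c, 8), .inl vZ),
      (1, .inr (c, 5), .inr (c, 9), .inl vZ), (1, .inr (c, 6), .inr (c, 10), .inl vZ),
      (0, .inr (c, 7), .inr (c, 10), .inr (c, 11)), (0, .inl c.2.2.1, .inl vZ, .inr (c, 12)),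
      (0, .inr (c, 11), .inr (c, 12), .inr (c, 13)), (0, .inr (c, 8), .inr (c, 9), .inr (c, 14)),
      (0, .inl vO, .inl vZ, .inr (c, 15)), (0, .inr (c, 14), .inr (c, 15), .inr (c, 13))]

def prims (cs : List RCon) : List PCon := (2, .inl vO, .inl vZ, .inl vZ) :: cs.flatMap prim

theorem prims_sound {cs : List RCon} {val : PV → ℝ}
    (h : ∀ c ∈ prims cs, Rel c.1 (val c.2.1) (val c.2.2.1) (val c.2.2.2)) :
    ∃ f : RV → ℝ, f vZ = 0 ∧ f vO = 1 ∧ RSat f cs := by
  have hu : val (.inl vO) - val (.inl vZ) ≠ 0 := by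
    have := h _ List.mem_cons_self
    simp only [Rel, OfNat.ofNat_ne_zero, OfNat.ofNat_ne_one, if_false] at this
    exact sub_ne_zero.2 this
  refine ⟨fun v => (val (.inl v) - val (.inl vZ)) / (val (.inl vO) - val (.inl vZ)), by simp,
    div_self hu, fun c hc => ?_⟩
  have hp : ∀ d ∈ prim c, Rel d.1 (val d.2.1) (val d.2.2.1) (val d.2.2.2) := fun d hd =>
    h d (List.mem_cons_of_mem _ (List.mem_flatMap.2 ⟨c, hc, hd⟩))
  unfold prim at hp
  unfold RHolds
  split_ifs at hp ⊢ with h1
  · simp only [List.mem_cons, List.not_mem_nil, or_false, forall_eq_or_imp, forall_eq, Rel,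
      if_true] at hp
    field_simp
    linarith [hp.1, hp.2]
  · simp only [List.mem_cons, List.not_mem_nil, or_false, forall_eq_or_imp, forall_eq, Rel,
      if_true, one_ne_zero, if_false] at hp
    obtain ⟨a1, a2, a3, a4, a5, a6, a7, a8, a9, a10, a11, a12, a13, a14, a15, a16⟩ := hp
    field_simp
    generalize val (.inl vZ) = W at *
    generalize val (.inl vO) = U at *
    generalize val (.inl c.2.1) = x at *
    generalize val (.inl c.2.2.1) = y at *
    generalize val (.inl c.2.2.2) = z at *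
    have e3 : val (.inr (c, 3)) = (x + y) / 2 := by linarith
    have e4 : val (.inr (c, 4)) = (x + 2 * W - y) / 2 := by linarith
    have e5 : val (.inr (c, 5)) = (z + U) / 2 := by linarith
    have e6 : val (.inr (c, 6)) = (z + 2 * W - U) / 2 := by linarith
    have e : val (.inr (c, 7)) + val (.inr (c, 10)) + y = val (.inr (c, 8)) + val (.inr (c, 9)) + U := by
      linarith
    rw [e3] at a7
    rw [e4] at a8
    rw [e5] at a9
    rw [e6] at a10
    linear_combination a7 - a8 - a9 + a10 - 2 * W * e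

/-- the map `ξ ↦ -ξ - ξ ^ 2 / 2` -/
noncomputable def sq2 (a : ℝ) : ℝ := -a - a ^ 2 / 2

noncomputable def dev (x y z u : ℝ) (j : ℕ) : ℝ :=
  if j = 0 then (x + y) / 2 else if j = 1 then -y else if j = 2 then -u
  else if j = 3 then (x + y) / 2 else if j = 4 then (x - y) / 2 else if j = 5 then (z + u) / 2
  else if j = 6 then (z - u) / 2 else if j = 7 then sq2 ((x + y) / 2)
  else if j = 8 then sq2 ((x - y) / 2) else if j = 9 then sq2 ((z + u) / 2)
  else if j = 10 then sq2 ((z - u) / 2)
  else if j = 11 then (sq2 ((x + y) / 2) + sq2 ((z - u) / 2)) / 2 else if j = 12 then y / 2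
  else if j = 13 then ((sq2 ((x + y) / 2) + sq2 ((z - u) / 2)) / 2 + y / 2) / 2
  else if j = 14 then (sq2 ((x - y) / 2) + sq2 ((z + u) / 2)) / 2 else u / 2

noncomputable def pval (f : RV → ℝ) (t : ℝ) : PV → ℝ
  | .inl v => 1 + t * f v
  | .inr c => 1 + dev (t * f c.1.2.1) (t * f c.1.2.2.1) (t * f c.1.2.2.2) t c.2

theorem pval_tendsto (f : RV → ℝ) (v : PV) : Tendsto (fun t => pval f t v) (𝓝[>] 0) (𝓝 1) := by
  refine Tendsto.mono_left ?_ nhdsWithin_le_nhds
  have h1 : Continuous fun t => pval f t v := by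
    rcases v with v | ⟨c, j⟩
    · unfold pval; fun_prop
    · simp only [pval, dev, sq2]
      refine continuous_const.add ?_
      repeat' apply Continuous.if_const
      all_goals fun_prop
  have h2 : pval f 0 v = 1 := by
    rcases v with v | ⟨c, j⟩
    · simp [pval]
    · simp [pval, dev, sq2]
  have := h1.tendsto 0
  rwa [h2] at this

theorem prims_complete {cs : List RCon} {f : RV → ℝ} (h0 : f vZ = 0) (h1 : f vO = 1) (h : RSat f cs)
    {t : ℝ} (ht : 0 < t) :
    ∀ c ∈ prims cs, RelC c.1 (pval f t c.2.1) (pval f t c.2.2.1) (pval f t c.2.2.2) := by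
  intro d hd0
  rcases List.mem_cons.1 hd0 with rfl | hd1
  · simp [RelC, pval, h0, h1, ht]
  obtain ⟨c, hc, hd⟩ := List.mem_flatMap.1 hd1
  have hh := h c hc
  clear hd0 hd1
  revert d
  unfold prim
  unfold RHolds at hh
  split_ifs at hh ⊢ with hb
  · simp only [List.mem_cons, List.not_mem_nil, or_false, forall_eq_or_imp, forall_eq, RelC,
      if_true, pval, dev, h0, ← hh]
    constructor <;> ring
  · simp only [List.mem_cons, List.not_mem_nil, or_false, forall_eq_or_imp, forall_eq, RelC,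
      if_true, one_ne_zero, if_false, pval, dev, sq2, h0, h1, ← hh, OfNat.ofNat_ne_zero,
      OfNat.ofNat_ne_one, Nat.reduceEqDiff]
    refine ⟨?_, ?_, ?_, ?_, ?_, ?_, ?_, ?_, ?_, ?_, ?_, ?_, ?_, ?_, ?_, ?_⟩ <;> ring

/-! Numbering of the variables -/

def occs (ps : List PCon) : List PV := ps.flatMap fun c => [c.2.1, c.2.2.1, c.2.2.2]

@[reducible] noncomputable def beqPV : BEq PV := @instBEqOfDecidableEq PV (Classical.decEq PV)

theorem lawfulPV : @LawfulBEq PV beqPV := by
  unfold beqPV; infer_instance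

noncomputable def idx (l : List PV) (v : PV) : ℕ := @List.idxOf PV beqPV v l

theorem get_idx {l : List PV} {v : PV} (h : v ∈ l) : l[idx l v]? = some v :=
  @List.getElem?_idxOf PV beqPV lawfulPV v l h

theorem idx_lt {l : List PV} {v : PV} (h : v ∈ l) : idx l v < l.length :=
  (List.getElem?_eq_some_iff.1 (get_idx h)).1

noncomputable def numb (ps : List PCon) : List Con :=
  ps.map fun c => (c.1, idx (occs ps) c.2.1, idx (occs ps) c.2.2.1, idx (occs ps) c.2.2.2)

theorem length_occs (ps : List PCon) : (occs ps).length = 3 * ps.length := by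
  induction ps with
  | nil => rfl
  | cons c ps ih => simp only [occs, List.flatMap_cons, List.length_append, List.length_cons,
      List.length_nil] at ih ⊢; omega

theorem mem_occs {ps : List PCon} {c : PCon} (h : c ∈ ps) :
    c.2.1 ∈ occs ps ∧ c.2.2.1 ∈ occs ps ∧ c.2.2.2 ∈ occs ps :=
  ⟨List.mem_flatMap.2 ⟨c, h, by simp⟩, List.mem_flatMap.2 ⟨c, h, by simp⟩,
    List.mem_flatMap.2 ⟨c, h, by simp⟩⟩

theorem occ_numb (ps : List PCon) :
    ∀ j < 3 * (numb ps).length, occ (numb ps) j < 3 * (numb ps).length := by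
  intro j hj
  have hl : (numb ps).length = ps.length := by simp [numb]
  have h3 : j / 3 < (numb ps).length := by omega
  have hm := List.getElem_mem h3
  unfold occ
  rw [List.getD_eq_getElem _ _ h3]
  generalize (numb ps)[j / 3] = d at hm
  obtain ⟨c, hc, rfl⟩ := List.mem_map.1 hm
  rw [hl, ← length_occs]
  have := mem_occs hc
  split_ifs
  · exact idx_lt this.1
  · exact idx_lt this.2.1
  · exact idx_lt this.2.2

theorem res_iff (cs : List RCon) :
    HasRes (verts (numb (prims cs))) (edges (numb (prims cs))) (Real.pi / 4) ↔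
      ∃ f : RV → ℝ, f vZ = 0 ∧ f vO = 1 ∧ RSat f cs := by
  constructor
  · intro h
    obtain ⟨p, hp⟩ := good_of_hasRes (edges_wf _) h
    obtain ⟨val, hv⟩ := sound _ (occ_numb _) hp
    exact prims_sound (val := fun v => val (idx (occs (prims cs)) v)) fun c hc =>
      (hv _ (List.mem_map.2 ⟨c, hc, rfl⟩)).2.2.2
  · rintro ⟨f, h0, h1, h⟩
    refine complete (F := 𝓝[>] (0 : ℝ))
      (val := fun t i => ((occs (prims cs))[i]?.map (pval f t)).getD 1) (fun i => ?_) ?_
    · cases (occs (prims cs))[i]? with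
      | none => simp
      | some v => exact pval_tendsto f v
    · refine eventually_nhdsWithin_of_forall fun t ht d hd => ?_
      obtain ⟨c, hc, rfl⟩ := List.mem_map.1 hd
      have := mem_occs hc
      simp only [get_idx this.1, get_idx this.2.1,
        get_idx this.2.2, Option.map_some, Option.getD_some]
      exact prims_complete h0 h1 h ht c hc

end Pool.Agent.Lib.MP_a4368a_lc
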