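import Pool.Agent.Lib.MP_a4368a_lc.Graph

/-! Cell structure of integer layouts of the graph. -/

namespace Pool.Agent.Lib.MP_a4368a_lc

open Complex

def toC (z : ℤ × ℤ) : ℂ := ⟨z.1, z.2⟩

@[simp] theorem toC_re (z : ℤ × ℤ) : (toC z).re = z.1 := rfl
@[simp] theorem toC_im (z : ℤ × ℤ) : (toC z).im = z.2 := rfl

theorem toC_add (z w : ℤ × ℤ) : toC (z + w) = toC z + toC w := by
  apply Complex.ext <;> simp

theorem toC_sub (z w : ℤ × ℤ) : toC (z - w) = toC z - toC w := by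
  apply Complex.ext <;> simp

theorem toC_inj {z w : ℤ × ℤ} (h : toC z = toC w) : z = w := by
  have h1 := congrArg Complex.re h
  have h2 := congrArg Complex.im h
  simp only [toC_re, toC_im, Int.cast_inj] at h1 h2
  exact Prod.ext h1 h2

def xk (k : ℕ) : ℤ := if k = 0 then 396 else 684
def yk (k : ℕ) : ℤ := if k = 0 then 288 else 648
def Wd (τ : ℕ) : ℤ := if τ ≤ 1 then 1080 else 3240
def Ht (τ : ℕ) : ℤ := if τ ≤ 1 then 1080 else 1512

def org (c : ℕ × ℕ) : ℤ × ℤ :=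
  if c.1 = 0 then (3240 * c.2, 0) else (1080 * c.2, 432 + 1080 * c.1)

def stubsV (τ : ℕ) : List (ℕ × ℤ × ℤ) :=
  (List.range (portN τ).length).map (fun k => (pN τ k, 1080 * (k / 2 : ℕ) + xk (k % 2), Ht τ)) ++
    (if τ ≤ 1 then [(pS 0, xk 0, 0), (pS 1, xk 1, 0)] else [])

def stubsH (τ : ℕ) : List (ℕ × ℤ × ℤ) :=
  if τ ≤ 1 then [(pW τ 0, 0, yk 0), (pW τ 1, 0, yk 1), (pE τ 0, 1080, yk 0), (pE τ 1, 1080, yk 1)]
  else []

def stubs (τ : ℕ) : List (ℕ × ℤ × ℤ) := stubsV τ ++ stubsH τ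

def InOpen (τ : ℕ) (x : ℂ) : Prop := 0 < x.re ∧ x.re < Wd τ ∧ 0 < x.im ∧ x.im < Ht τ
def InClosed (τ : ℕ) (x : ℂ) : Prop := 0 ≤ x.re ∧ x.re ≤ Wd τ ∧ 0 ≤ x.im ∧ x.im ≤ Ht τ

theorem InOpen.closed {τ : ℕ} {x : ℂ} (h : InOpen τ x) : InClosed τ x :=
  ⟨h.1.le, h.2.1.le, h.2.2.1.le, h.2.2.2.le⟩

theorem cell_eq (cs : List Con) {c c' : ℕ × ℕ} {x : ℂ} (h : InOpen (ty cs c) (x - toC (org c)))
    (h' : InClosed (ty cs c') (x - toC (org c'))) : c = c' := by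
  obtain ⟨a1, a2, a3, a4⟩ := h
  obtain ⟨b1, b2, b3, b4⟩ := h'
  simp only [sub_re, sub_im, toC_re, toC_im] at *
  have e1 : (org c').1 < (org c).1 + Wd (ty cs c) := by
    have : ((org c').1 : ℝ) < (org c).1 + Wd (ty cs c) := by linarith
    exact_mod_cast this
  have e2 : (org c).1 < (org c').1 + Wd (ty cs c') := by
    have : ((org c).1 : ℝ) < (org c').1 + Wd (ty cs c') := by linarith
    exact_mod_cast this
  have e3 : (org c').2 < (org c).2 + Ht (ty cs c) := by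
    have : ((org c').2 : ℝ) < (org c).2 + Ht (ty cs c) := by linarith
    exact_mod_cast this
  have e4 : (org c).2 < (org c').2 + Ht (ty cs c') := by
    have : ((org c).2 : ℝ) < (org c').2 + Ht (ty cs c') := by linarith
    exact_mod_cast this
  have t := ty_ge cs c
  have t' := ty_ge cs c'
  obtain ⟨i, j⟩ := c
  obtain ⟨i', j'⟩ := c'
  simp only [org, Wd, Ht, Prod.mk.injEq] at *
  split_ifs at e1 e2 e3 e4 <;> simp only at * <;> omega

theorem tile_wf : ∀ τ ≤ 4, (∀ e ∈ tileEdges τ, e.1 ∈ tileVerts τ ∧ e.2 ∈ tileVerts τ ∧ e.1 ≠ e.2) ∧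
    (∀ l ∈ tileVerts τ, l < 1024) ∧
    (∀ s ∈ stubs τ, s.1 ∈ tileVerts τ ∧ 0 ≤ s.2.1 ∧ s.2.1 ≤ Wd τ ∧ 0 ≤ s.2.2 ∧ s.2.2 ≤ Ht τ) ∧
    (∀ s ∈ stubs τ, ∀ s' ∈ stubs τ, s.1 = s'.1 → s = s') := by
  decide +kernel

/-- `e` is the link through the boundary point `key` -/
def IsLink (cs : List Con) (e : GV × GV) (key : ℤ × ℤ) : Prop :=
  (∃ i j k : ℕ, k < 2 ∧ e = vlink cs i j k ∧ key = (1080 * (j : ℤ) + xk k, 1512 + 1080 * (i : ℤ))) ∨
  (∃ i j k : ℕ, k < 2 ∧ e = hlink cs i j k ∧ key = (1080 * (j : ℤ) + 1080, 1512 + 1080 * (i : ℤ) + yk k))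

theorem IsLink.unique {cs : List Con} {e f : GV × GV} {key : ℤ × ℤ} (h : IsLink cs e key)
    (h' : IsLink cs f key) : e = f := by
  rcases h with ⟨i, j, k, hk, rfl, rfl⟩ | ⟨i, j, k, hk, rfl, rfl⟩ <;>
    rcases h' with ⟨i', j', k', hk', rfl, h⟩ | ⟨i', j', k', hk', rfl, h⟩ <;>
    simp only [Prod.mk.injEq, xk, yk] at h
  · have : i = i' ∧ j = j' ∧ k = k' := by split_ifs at h <;> omega
    obtain ⟨rfl, rfl, rfl⟩ := this; rfl
  · exfalso; split_ifs at h <;> omega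
  · exfalso; split_ifs at h <;> omega
  · have : i = i' ∧ j = j' ∧ k = k' := by split_ifs at h <;> omega
    obtain ⟨rfl, rfl, rfl⟩ := this; rfl

/-- description of a link between two cells -/
structure LinkData (cs : List Con) (e : GV × GV) (s1 s2 : ℕ × ℤ × ℤ) : Prop where
  c1 : e.1.1 ∈ cells cs
  c2 : e.2.1 ∈ cells cs
  ne : e.1.1 ≠ e.2.1
  p1 : e.1.2 = s1.1
  p2 : e.2.2 = s2.1
  key : org e.1.1 + s1.2 = org e.2.1 + s2.2
  isl : IsLink cs e (org e.1.1 + s1.2)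
  kind : (s1 ∈ stubsV (ty cs e.1.1) ∧ s2 ∈ stubsV (ty cs e.2.1) ∧ s1.2.2 = 0 ∧
      s2.2.2 = Ht (ty cs e.2.1) ∧ ∃ i j k, i < 3 * cs.length ∧ j < 3 * cs.length ∧ k < 2 ∧
        ty cs (below i j) ≠ 1 ∧ e = vlink cs i j k) ∨
    (s1 ∈ stubsH (ty cs e.1.1) ∧ s2 ∈ stubsH (ty cs e.2.1) ∧ s1.2.1 = Wd (ty cs e.1.1) ∧
      s2.2.1 = 0 ∧ ∃ i j k, i < 3 * cs.length ∧ j + 1 < 3 * cs.length ∧ k < 2 ∧ e = hlink cs i j k)

theorem LinkData.m1 {cs : List Con} {e : GV × GV} {s1 s2 : ℕ × ℤ × ℤ} (h : LinkData cs e s1 s2) :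
    s1 ∈ stubs (ty cs e.1.1) := by
  rcases h.kind with k | k
  · exact List.mem_append_left _ k.1
  · exact List.mem_append_right _ k.1

theorem LinkData.m2 {cs : List Con} {e : GV × GV} {s1 s2 : ℕ × ℤ × ℤ} (h : LinkData cs e s1 s2) :
    s2 ∈ stubs (ty cs e.2.1) := by
  rcases h.kind with k | k
  · exact List.mem_append_left _ k.2.1
  · exact List.mem_append_right _ k.2.1

theorem ty_grid_le (cs : List Con) (i j : ℕ) : ty cs (i + 1, j) ≤ 1 := by
  rw [ty_grid]; split_ifs <;> omega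

theorem edge_cases {cs : List Con} {e : GV × GV} (he : e ∈ edges cs) :
    (∃ c ∈ cells cs, ∃ f ∈ tileEdges (ty cs c), e = ((c, f.1), (c, f.2))) ∨
      ∃ s1 s2, LinkData cs e s1 s2 := by
  rcases mem_edges.1 he with h | ⟨i, j, k, hi, hj, hk, ht, rfl⟩ | ⟨i, j, k, hi, hj, hk, rfl⟩
  · exact Or.inl h
  · right
    have t1 := ty_grid_le cs i j
    set τ := ty cs (below i j) with hτ
    have hlen : sub i j + k < (portN τ).length ∧ (org (below i j)).1 + 1080 * ((sub i j + k) / 2 : ℕ) =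
        1080 * j ∧ (sub i j + k) % 2 = k ∧ (org (below i j)).2 + Ht τ = 1512 + 1080 * i := by
      by_cases h0 : i = 0
      · subst h0
        have h2 : 2 ≤ τ := (ty_ge cs _).2 (by simp [below])
        have h3 : (portN τ).length = 6 := by
          unfold portN; split_ifs <;> first | omega | rfl
        have h4 : Ht τ = 1512 := by unfold Ht; rw [if_neg (by omega)]
        simp only [h3, h4, sub, below, org, if_true]
        omega
      · obtain ⟨i, rfl⟩ : ∃ i', i = i' + 1 := ⟨i - 1, by omega⟩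
        have h2 : τ = 0 := by
          have := ty_grid_le cs i j
          simp only [below, if_neg h0] at hτ
          omega
        simp only [h2, sub, below, org, if_neg h0, portN, Ht, if_true]
        simp
        omega
    refine ⟨(pS k, xk k, 0), (pN τ (sub i j + k), 1080 * ((sub i j + k) / 2 : ℕ) +
      xk ((sub i j + k) % 2), Ht τ), ?_, ?_, ?_, rfl, rfl, ?_, ?_, Or.inl ⟨?_, ?_, rfl, rfl,
        i, j, k, hi, hj, hk, ht, rfl⟩⟩
    · exact mem_cells.2 (Or.inr ⟨by simp [vlink], by simp [vlink]; omega, hj⟩)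
    · simp only [vlink, below]
      split_ifs with h0
      · exact mem_cells.2 (Or.inl ⟨rfl, by simp; omega⟩)
      · exact mem_cells.2 (Or.inr ⟨by simp; omega, by simp; omega, hj⟩)
    · simp only [vlink, below]; split_ifs <;> simp
    · obtain ⟨-, h1, h2, h3⟩ := hlen
      apply Prod.ext
      · simp only [vlink, Prod.fst_add, h2]
        rw [← add_assoc, h1]; simp [org]
      · simp only [vlink, Prod.snd_add, h3]; simp [org]; ring
    · left
      refine ⟨i, j, k, hk, rfl, ?_⟩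
      simp [vlink, org]; ring
    · simp only [vlink, stubsV, if_pos t1]
      apply List.mem_append_right
      interval_cases k <;> simp
    · apply List.mem_append_left
      exact List.mem_map.2 ⟨_, List.mem_range.2 hlen.1, rfl⟩
  · right
    have t1 := ty_grid_le cs i j
    have t2 := ty_grid_le cs i (j + 1)
    refine ⟨(pE (ty cs (i + 1, j)) k, 1080, yk k), (pW (ty cs (i + 1, j + 1)) k, 0, yk k),
      ?_, ?_, ?_, rfl, rfl, ?_, ?_, Or.inr ⟨?_, ?_, ?_, rfl, i, j, k, hi, hj, hk, rfl⟩⟩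
    · exact mem_cells.2 (Or.inr ⟨by simp [hlink], by simp [hlink]; omega, by simp [hlink]; omega⟩)
    · exact mem_cells.2 (Or.inr ⟨by simp [hlink], by simp [hlink]; omega, by simp [hlink]; omega⟩)
    · simp [hlink]
    · simp [hlink, org]; ring
    · right
      refine ⟨i, j, k, hk, rfl, ?_⟩
      simp [hlink, org]; ring
    · simp only [hlink, stubsH, if_pos t1]
      interval_cases k <;> simp
    · simp only [hlink, stubsH, if_pos t2]
      interval_cases k <;> simp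
    · simp [hlink, Wd, t1]

theorem edges_wf (cs : List Con) : ∀ e ∈ edges cs, e.1 ∈ verts cs ∧ e.2 ∈ verts cs ∧ e.1 ≠ e.2 := by
  intro e he
  rcases edge_cases he with ⟨c, hc, f, hf, rfl⟩ | ⟨s1, s2, L⟩
  · obtain ⟨h1, h2, h3⟩ := (tile_wf _ (ty_le cs c)).1 f hf
    exact ⟨mem_verts.2 ⟨hc, h1⟩, mem_verts.2 ⟨hc, h2⟩, fun h => h3 (congrArg Prod.snd h)⟩
  · refine ⟨mem_verts.2 ⟨L.c1, ?_⟩, mem_verts.2 ⟨L.c2, ?_⟩, fun h => L.ne (congrArg Prod.fst h)⟩
    · rw [L.p1]; exact ((tile_wf _ (ty_le cs _)).2.2.1 s1 L.m1).1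
    · rw [L.p2]; exact ((tile_wf _ (ty_le cs _)).2.2.1 s2 L.m2).1

/-- a layout of the five tiles inside their cells with aligned ports -/
structure Lay (z : ℕ → ℕ → ℤ × ℤ) : Prop where
  inside : ∀ τ ≤ 4, ∀ l ∈ tileVerts τ,
    0 < (z τ l).1 ∧ (z τ l).1 < Wd τ ∧ 0 < (z τ l).2 ∧ (z τ l).2 < Ht τ
  alV : ∀ τ ≤ 4, ∀ s ∈ stubsV τ, (z τ s.1).1 = s.2.1
  alH : ∀ τ ≤ 4, ∀ s ∈ stubsH τ, (z τ s.1).2 = s.2.2

/-- global position -/
def Z (cs : List Con) (z : ℕ → ℕ → ℤ × ℤ) (v : GV) : ℂ := toC (org v.1) + toC (z (ty cs v.1) v.2)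

variable {z : ℕ → ℕ → ℤ × ℤ} {cs : List Con}

theorem Lay.inOpen (h : Lay z) {τ l : ℕ} (hτ : τ ≤ 4) (hl : l ∈ tileVerts τ) :
    InOpen τ (toC (z τ l)) := by
  obtain ⟨a, b, c, d⟩ := h.inside τ hτ l hl
  refine ⟨?_, ?_, ?_, ?_⟩ <;> simp only [toC_re, toC_im] <;> exact_mod_cast ‹_›

theorem seg_open {τ : ℕ} {a b x : ℂ} (ha : InOpen τ a) (hb : InClosed τ b)
    (hx : x ∈ segment ℝ a b) : InClosed τ x ∧ (InOpen τ x ∨ x = b) := by
  obtain ⟨s, t, hs, ht, hst, rfl⟩ := hx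
  obtain ⟨a1, a2, a3, a4⟩ := ha
  obtain ⟨b1, b2, b3, b4⟩ := hb
  obtain rfl : t = 1 - s := by linarith
  constructor
  · refine ⟨?_, ?_, ?_, ?_⟩ <;> simp <;> nlinarith
  · rcases hs.eq_or_lt with rfl | hs
    · right; simp
    · left
      refine ⟨?_, ?_, ?_, ?_⟩ <;> simp <;> nlinarith

theorem seg_split {P Q B x : ℂ} {s : ℝ} (h0 : 0 < s) (h1 : s < 1) (hB : B - P = s * (Q - P))
    (hx : x ∈ segment ℝ P Q) : x ∈ segment ℝ P B ∨ x ∈ segment ℝ Q B := by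
  rw [segment_eq_image'] at hx
  obtain ⟨t, ⟨t0, t1⟩, rfl⟩ := hx
  have hs : (s : ℂ) ≠ 0 := by exact_mod_cast h0.ne'
  have hs' : (1 - s : ℂ) ≠ 0 := by exact_mod_cast (sub_pos.2 h1).ne'
  rcases le_total t s with h | h
  · left
    rw [segment_eq_image']
    refine ⟨t / s, ⟨by positivity, (div_le_one h0).2 h⟩, ?_⟩
    simp only [real_smul, hB]; push_cast; field_simp
  · right
    rw [segment_eq_image']
    refine ⟨(1 - t) / (1 - s), ⟨div_nonneg (by linarith) (by linarith),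
      (div_le_one (by linarith)).2 (by linarith)⟩, ?_⟩
    have : B - Q = (1 - s) * (P - Q) := by linear_combination hB
    simp only [real_smul, this]; push_cast; field_simp; ring

theorem LinkData.between (h : Lay z) {e : GV × GV} {s1 s2 : ℕ × ℤ × ℤ} (L : LinkData cs e s1 s2) :
    ∃ s : ℝ, 0 < s ∧ s < 1 ∧
      toC (org e.1.1 + s1.2) - Z cs z e.1 = s * (Z cs z e.2 - Z cs z e.1) := by
  have w1 := ((tile_wf _ (ty_le cs _)).2.2.1 s1 L.m1).1
  have w2 := ((tile_wf _ (ty_le cs _)).2.2.1 s2 L.m2).1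
  obtain ⟨a1, a2, a3, a4⟩ := h.inOpen (ty_le cs _) w1
  obtain ⟨b1, b2, b3, b4⟩ := h.inOpen (ty_le cs _) w2
  have k1 := congrArg (fun w => ((w.1 : ℤ) : ℝ)) L.key
  have k2 := congrArg (fun w => ((w.2 : ℤ) : ℝ)) L.key
  simp only [Prod.fst_add, Prod.snd_add, Int.cast_add, toC_re, toC_im] at *
  unfold Z
  rw [L.p1, L.p2]
  rcases L.kind with ⟨m1, m2, q1, q2, -⟩ | ⟨m1, m2, q1, q2, -⟩
  · have r1 := h.alV _ (ty_le cs _) s1 m1
    have r2 := h.alV _ (ty_le cs _) s2 m2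
    rw [q1, q2] at k2
    set y1 : ℝ := ((z (ty cs e.1.1) s1.1).2 : ℝ)
    set y2 : ℝ := (Ht (ty cs e.2.1) : ℝ) - ((z (ty cs e.2.1) s2.1).2 : ℝ) with hy2
    have : 0 < y2 := by linarith
    refine ⟨y1 / (y1 + y2), by positivity, (div_lt_one (by positivity)).2 (by linarith), ?_⟩
    apply Complex.ext
    · simp only [sub_re, add_re, toC_re, Prod.fst_add, Int.cast_add, re_ofReal_mul, r1, r2]
      rw [← k1]; simp
    · simp only [sub_im, add_im, toC_im, Prod.snd_add, Int.cast_add, im_ofReal_mul, q1]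
      field_simp
      push_cast at k2 ⊢
      linear_combination y1 * k2
  · have r1 := h.alH _ (ty_le cs _) s1 m1
    have r2 := h.alH _ (ty_le cs _) s2 m2
    rw [q1, q2] at k1
    set y1 : ℝ := (Wd (ty cs e.1.1) : ℝ) - ((z (ty cs e.1.1) s1.1).1 : ℝ) with hy1
    set y2 : ℝ := ((z (ty cs e.2.1) s2.1).1 : ℝ) with hy2
    have : 0 < y1 := by linarith
    refine ⟨y1 / (y1 + y2), by positivity, (div_lt_one (by positivity)).2 (by linarith), ?_⟩
    apply Complex.ext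
    · simp only [sub_re, add_re, toC_re, Prod.fst_add, Int.cast_add, re_ofReal_mul, q1]
      field_simp
      push_cast at k1 ⊢
      linear_combination y1 * k1
    · simp only [sub_im, add_im, toC_im, Prod.snd_add, Int.cast_add, im_ofReal_mul, r1, r2]
      rw [← k2]; simp

theorem mem_segment_sub {a b x c : ℂ} (h : x ∈ segment ℝ (c + a) (c + b)) : x - c ∈ segment ℝ a b := by
  rw [← mem_segment_translate ℝ c]; simpa using h

/-- a point of a drawn edge lies on a piece of a tile -/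
def OnPiece (cs : List Con) (z : ℕ → ℕ → ℤ × ℤ) (e : GV × GV) (x : ℂ) (c : ℕ × ℕ) : Prop :=
  (∃ f ∈ tileEdges (ty cs c), e = ((c, f.1), (c, f.2)) ∧
    x - toC (org c) ∈ segment ℝ (toC (z (ty cs c) f.1)) (toC (z (ty cs c) f.2))) ∨
  (∃ s ∈ stubs (ty cs c), ((c, s.1) = e.1 ∨ (c, s.1) = e.2) ∧ IsLink cs e (org c + s.2) ∧
    x - toC (org c) ∈ segment ℝ (toC (z (ty cs c) s.1)) (toC s.2))

theorem cover (h : Lay z) {e : GV × GV} (he : e ∈ edges cs) {x : ℂ}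
    (hx : x ∈ segment ℝ (Z cs z e.1) (Z cs z e.2)) : ∃ c, OnPiece cs z e x c := by
  rcases edge_cases he with ⟨c, -, f, hf, rfl⟩ | ⟨s1, s2, L⟩
  · exact ⟨c, Or.inl ⟨f, hf, rfl, mem_segment_sub hx⟩⟩
  · obtain ⟨s, h0, h1, hB⟩ := L.between h
    rcases seg_split h0 h1 hB hx with t | t
    · refine ⟨e.1.1, Or.inr ⟨s1, L.m1, Or.inl (by rw [← L.p1]), L.isl, mem_segment_sub ?_⟩⟩
      rwa [toC_add, Z, L.p1] at t
    · refine ⟨e.2.1, Or.inr ⟨s2, L.m2, Or.inr (by rw [← L.p2]), L.key ▸ L.isl, mem_segment_sub ?_⟩⟩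
      rwa [L.key, toC_add, Z, L.p2] at t

theorem OnPiece.loc (h : Lay z) {e : GV × GV} {x : ℂ} {c : ℕ × ℕ} (o : OnPiece cs z e x c) :
    InClosed (ty cs c) (x - toC (org c)) ∧
      (InOpen (ty cs c) (x - toC (org c)) ∨ ∃ key, IsLink cs e key ∧ x = toC key) := by
  have wf := tile_wf _ (ty_le cs c)
  rcases o with ⟨f, hf, -, hx⟩ | ⟨s, hs, -, hl, hx⟩
  · have a := h.inOpen (ty_le cs c) (wf.1 f hf).1
    have b := h.inOpen (ty_le cs c) (wf.1 f hf).2.1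
    obtain ⟨q1, q2⟩ := seg_open a b.closed hx
    refine ⟨q1, Or.inl ?_⟩
    rcases q2 with q | q
    · exact q
    · rwa [q]
  · obtain ⟨w0, w1, w2, w3, w4⟩ := wf.2.2.1 s hs
    have a := h.inOpen (ty_le cs c) w0
    have b : InClosed (ty cs c) (toC s.2) := by
      refine ⟨?_, ?_, ?_, ?_⟩ <;> simp only [toC_re, toC_im] <;> exact_mod_cast ‹_›
    obtain ⟨q1, q2⟩ := seg_open a b hx
    refine ⟨q1, q2.imp id fun q => ⟨_, hl, ?_⟩⟩
    rw [toC_add, ← q]; ring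

theorem Z_open (h : Lay z) {v : GV} (hv : v ∈ verts cs) :
    InOpen (ty cs v.1) (Z cs z v - toC (org v.1)) := by
  have := h.inOpen (ty_le cs v.1) (mem_verts.1 hv).2
  simpa [Z] using this

theorem cover_vertex (h : Lay z) {e : GV × GV} (he : e ∈ edges cs) {v : GV} (hv : v ∈ verts cs)
    (hx : Z cs z v ∈ segment ℝ (Z cs z e.1) (Z cs z e.2)) : OnPiece cs z e (Z cs z v) v.1 := by
  obtain ⟨c, o⟩ := cover h he hx
  rwa [cell_eq cs (Z_open h hv) (o.loc h).1]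

theorem cover_two (h : Lay z) {e f : GV × GV} (he : e ∈ edges cs) (hf : f ∈ edges cs) {x : ℂ}
    (hx : x ∈ segment ℝ (Z cs z e.1) (Z cs z e.2)) (hy : x ∈ segment ℝ (Z cs z f.1) (Z cs z f.2)) :
    e = f ∨ ∃ c, OnPiece cs z e x c ∧ OnPiece cs z f x c := by
  obtain ⟨c, o⟩ := cover h he hx
  obtain ⟨c', o'⟩ := cover h hf hy
  obtain ⟨a1, a2⟩ := o.loc h
  obtain ⟨b1, b2⟩ := o'.loc h
  rcases a2 with a2 | ⟨k, a2, a3⟩
  · obtain rfl := cell_eq cs a2 b1; exact Or.inr ⟨c, o, o'⟩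
  · rcases b2 with b2 | ⟨k', b2, b3⟩
    · obtain rfl := cell_eq cs b2 a1; exact Or.inr ⟨_, o, o'⟩
    · obtain rfl : k = k' := toC_inj (a3.symm.trans b3)
      exact Or.inl (a2.unique b2)

theorem Z_eq (h : Lay z) {v w : GV} (hv : v ∈ verts cs) (hw : w ∈ verts cs)
    (he : Z cs z v = Z cs z w) : v.1 = w.1 ∧ z (ty cs v.1) v.2 = z (ty cs v.1) w.2 := by
  have h1 : v.1 = w.1 := cell_eq cs (Z_open h hv) (he ▸ (Z_open h hw).closed)
  refine ⟨h1, toC_inj ?_⟩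
  unfold Z at he
  rw [← h1] at he
  exact add_left_cancel he

end Pool.Agent.Lib.MP_a4368a_lc
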