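import Pool.Agent.Lib.MP_a4368a_lc.Geo

/-! Fast finite checks and their meaning. -/

namespace Pool.Agent.Lib.MP_a4368a_lc

open Complex

structure Pc where
  a : ℕ
  b : ℕ
  ax : ℕ
  ay : ℕ
  bx : ℕ
  bY : ℕ
deriving DecidableEq

def vtab (z : ℕ → ℕ → ℤ × ℤ) (τ : ℕ) : List (ℕ × ℕ × ℕ) :=
  (tileVerts τ).map (fun l => (l, (z τ l).1.toNat, (z τ l).2.toNat))

def ptab (z : ℕ → ℕ → ℤ × ℤ) (τ : ℕ) : List Pc :=
  (tileEdges τ).map (fun e => ⟨e.1, e.2, (z τ e.1).1.toNat, (z τ e.1).2.toNat, (z τ e.2).1.toNat,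
    (z τ e.2).2.toNat⟩) ++
  (stubs τ).map (fun s => ⟨s.1, 2000 + s.1, (z τ s.1).1.toNat, (z τ s.1).2.toNat, s.2.1.toNat,
    s.2.2.toNat⟩)

def oL (ax ay bx bY x y : ℕ) : ℕ := Nat.add (Nat.add (Nat.mul bx y) (Nat.mul ax bY)) (Nat.mul ay x)
def oR (ax ay bx bY x y : ℕ) : ℕ := Nat.add (Nat.add (Nat.mul bx ay) (Nat.mul ax y)) (Nat.mul bY x)

def notOn (x y : ℕ) (π : Pc) : Bool :=
  !(Nat.beq (oL π.ax π.ay π.bx π.bY x y) (oR π.ax π.ay π.bx π.bY x y)) ||
    Nat.blt (x * π.ax + x * π.bx + y * π.ay + y * π.bY) (x * x + π.ax * π.bx + y * y + π.ay * π.bY)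

def lt4 (a b c d : ℕ) : Bool := Nat.blt a c && Nat.blt a d && Nat.blt b c && Nat.blt b d

def side (π σ : Pc) : Bool :=
  (Nat.blt (oL π.ax π.ay π.bx π.bY σ.ax σ.ay) (oR π.ax π.ay π.bx π.bY σ.ax σ.ay) &&
    Nat.blt (oL π.ax π.ay π.bx π.bY σ.bx σ.bY) (oR π.ax π.ay π.bx π.bY σ.bx σ.bY)) ||
  (Nat.blt (oR π.ax π.ay π.bx π.bY σ.ax σ.ay) (oL π.ax π.ay π.bx π.bY σ.ax σ.ay) &&
    Nat.blt (oR π.ax π.ay π.bx π.bY σ.bx σ.bY) (oL π.ax π.ay π.bx π.bY σ.bx σ.bY))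

def disj (π σ : Pc) : Bool :=
  lt4 π.ax π.bx σ.ax σ.bx || lt4 σ.ax σ.bx π.ax π.bx || lt4 π.ay π.bY σ.ay σ.bY ||
    lt4 σ.ay σ.bY π.ay π.bY || Nat.beq π.a σ.a || Nat.beq π.a σ.b || Nat.beq π.b σ.a ||
    Nat.beq π.b σ.b || side π σ || side σ π

def allPairs {β : Type} (f : β → β → Bool) : List β → Bool
  | [] => true
  | x :: l => l.all (f x) && allPairs f l

theorem allPairs_sound {β : Type} {f : β → β → Bool} {R : β → β → Prop} (hs : ∀ x y, R x y → R y x)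
    (hr : ∀ x, R x x) (hf : ∀ x y, f x y = true → R x y) :
    ∀ l : List β, allPairs f l = true → ∀ x ∈ l, ∀ y ∈ l, R x y
  | [], _ => by simp
  | a :: l, h => by
    simp only [allPairs, Bool.and_eq_true, List.all_eq_true] at h
    have ih := allPairs_sound hs hr hf l h.2
    intro x hx y hy
    rcases List.mem_cons.1 hx with rfl | hx' <;> rcases List.mem_cons.1 hy with rfl | hy'
    · exact hr _
    · exact hf _ _ (h.1 y hy')
    · exact hs _ _ (hf _ _ (h.1 x hx'))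
    · exact ih x hx' y hy'

def chkP (vt : List (ℕ × ℕ × ℕ)) (pt : List Pc) : Bool :=
  allPairs (fun v w => !(Nat.beq v.2.1 w.2.1) || !(Nat.beq v.2.2 w.2.2)) vt &&
    vt.all (fun v => pt.all (fun π => Nat.beq v.1 π.a || Nat.beq v.1 π.b || notOn v.2.1 v.2.2 π)) &&
    allPairs disj pt

def locNot (τ v a b : ℕ) : Bool :=
  decide (a / 128 = v / 128) && (lv τ a b).any (fun d =>
    decide (crsZ d (gl τ v - gl τ a) ≠ 0) || decide (dotZ d (gl τ v - gl τ a) < 0))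

def angOK (τ v m m' : ℕ) : Bool :=
  Nat.beq m m' || (lv τ v m).any (fun d => (lv τ v m').any (fun d' => decide (dotZ d d' ≤ |crsZ d d'|))) ||
    (decide (m < 2000) && decide (m' < 2000) &&
      decide (dotZ (qz τ m - qz τ v) (qz τ m' - qz τ v) < |crsZ (qz τ m - qz τ v) (qz τ m' - qz τ v)|))

def nbrs (v : ℕ) (pt : List Pc) : List ℕ :=
  pt.filterMap (fun π => bif Nat.beq π.a v then some π.b else bif Nat.beq π.b v then some π.a else none)

def chkQ (τ : ℕ) (vt : List (ℕ × ℕ × ℕ)) (pt : List Pc) : Bool :=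
  allPairs (fun v w => !(Nat.beq v.2.1 w.2.1) || !(Nat.beq v.2.2 w.2.2) ||
      (decide (v.1 / 128 = w.1 / 128) && decide (gl τ v.1 ≠ gl τ w.1))) vt &&
    vt.all (fun v => pt.all (fun π => Nat.beq v.1 π.a || Nat.beq v.1 π.b || notOn v.2.1 v.2.2 π ||
      (decide (π.b < 2000) && (locNot τ v.1 π.a π.b || locNot τ v.1 π.b π.a)))) &&
    vt.all (fun v => (nbrs v.1 pt).all (fun m => (nbrs v.1 pt).all (fun m' => angOK τ v.1 m m')))

def cN (x y : ℕ) : ℂ := ⟨x, y⟩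
def Pc.seg (π : Pc) : Set ℂ := segment ℝ (cN π.ax π.ay) (cN π.bx π.bY)

theorem not_mem_segment_iff {v a b : ℂ} :
    v ∉ segment ℝ a b ↔ crs (b - a) (v - a) ≠ 0 ∨ 0 < dot (v - a) (v - b) := by
  constructor
  · intro h
    by_contra hc
    push Not at hc
    obtain ⟨h1, h2⟩ := hc
    apply h
    by_cases hab : a = b
    · subst hab
      have : normSq (v - a) ≤ 0 := by simpa [dot, normSq_apply] using h2
      have : v - a = 0 := normSq_eq_zero.1 (le_antisymm this (normSq_nonneg _))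
      rw [sub_eq_zero.1 this]; exact left_mem_segment _ _ _
    · have hN : 0 < normSq (b - a) := normSq_pos.2 (sub_ne_zero.2 (Ne.symm hab))
      set t := dot (b - a) (v - a) / normSq (b - a) with ht
      have e : v - a = t * (b - a) := by
        have h3 : t * normSq (b - a) = dot (b - a) (v - a) := by rw [ht]; field_simp
        apply mul_left_cancel₀ (show ((normSq (b - a) : ℝ) : ℂ) ≠ 0 by exact_mod_cast hN.ne')
        rw [← mul_assoc, ← ofReal_mul, mul_comm _ t, h3]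
        simp only [crs, sub_re, sub_im] at h1
        apply Complex.ext <;> simp [normSq_apply, dot]
        · linear_combination (-(b.im - a.im)) * h1
        · linear_combination (b.re - a.re) * h1
      have e2 : dot (v - a) (v - b) = t * (t - 1) * normSq (b - a) := by
        have : v - b = (t - 1 : ℝ) * (b - a) := by push_cast; linear_combination e
        rw [this, e]; simp [dot, normSq_apply]; ring
      rw [e2] at h2
      have h4 : t * (t - 1) ≤ 0 := by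
        by_contra hc; push Not at hc; have := mul_pos hc hN; linarith
      rw [segment_eq_image']
      refine ⟨t, ⟨by nlinarith, by nlinarith⟩, ?_⟩
      simp only [real_smul]; linear_combination -e
  · rintro h ⟨s, t, hs, ht, hst, rfl⟩
    obtain rfl : s = 1 - t := by linarith
    rcases h with h | h
    · apply h; simp [crs]; ring
    · have : dot ((1 - t) • a + t • b - a) ((1 - t) • a + t • b - b) =
          -(t * (1 - t) * normSq (b - a)) := by simp [dot, normSq_apply]; ring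
      rw [this] at h
      have := mul_nonneg (mul_nonneg ht hs) (normSq_nonneg (b - a))
      linarith

theorem crs_cN (ax ay bx bY x y : ℕ) : crs (cN bx bY - cN ax ay) (cN x y - cN ax ay) =
    (oL ax ay bx bY x y : ℝ) - oR ax ay bx bY x y := by
  simp [crs, cN, oL, oR]; ring

theorem notOn_sound {x y : ℕ} {π : Pc} (h : notOn x y π = true) : cN x y ∉ π.seg := by
  apply not_mem_segment_iff.2
  simp only [notOn, Bool.or_eq_true, Bool.not_eq_true', Nat.blt_eq] at h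
  rcases h with h | h
  · left
    rw [crs_cN, sub_ne_zero]
    exact_mod_cast Nat.ne_of_beq_eq_false h
  · right
    have : ((x * π.ax + x * π.bx + y * π.ay + y * π.bY : ℕ) : ℝ) <
        (x * x + π.ax * π.bx + y * y + π.ay * π.bY : ℕ) := by exact_mod_cast h
    push_cast at this
    simp [dot, cN]; linarith

theorem sep {a b c d : ℂ} (α β γ : ℝ) (ha : α * a.re + β * a.im ≤ γ) (hb : α * b.re + β * b.im ≤ γ)
    (hc : γ < α * c.re + β * c.im) (hd : γ < α * d.re + β * d.im) :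
    Disjoint (segment ℝ a b) (segment ℝ c d) := by
  rw [Set.disjoint_left]
  rintro x ⟨s, t, hs, ht, hst, rfl⟩ ⟨s', t', hs', ht', hst', h⟩
  have h1 := congrArg Complex.re h
  have h2 := congrArg Complex.im h
  simp at h1 h2
  have e1 : α * (s * a.re + t * b.re) + β * (s * a.im + t * b.im) ≤ γ := by
    have : γ = s * γ + t * γ := by rw [← add_mul, hst, one_mul]
    nlinarith
  have e2 : γ < α * (s' * c.re + t' * d.re) + β * (s' * c.im + t' * d.im) := by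
    have : γ = s' * γ + t' * γ := by rw [← add_mul, hst', one_mul]
    rcases hs'.eq_or_lt with rfl | hs'
    · obtain rfl : t' = 1 := by linarith
      simpa using hd
    · nlinarith
  rw [h1, h2] at e2
  linarith

theorem side_sound {π σ : Pc} (h : side π σ = true) : Disjoint π.seg σ.seg := by
  simp only [side, Bool.or_eq_true, Bool.and_eq_true, Nat.blt_eq] at h
  have e1 := crs_cN π.ax π.ay π.bx π.bY σ.ax σ.ay
  have e2 := crs_cN π.ax π.ay π.bx π.bY σ.bx σ.bY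
  simp only [crs, cN, sub_re, sub_im] at e1 e2
  rcases h with ⟨h1, h2⟩ | ⟨h1, h2⟩
  · have k1 := (Nat.cast_lt (α := ℝ)).2 h1
    have k2 := (Nat.cast_lt (α := ℝ)).2 h2
    apply sep ((π.bY : ℝ) - π.ay) (-((π.bx : ℝ) - π.ax)) (((π.bY : ℝ) - π.ay) * π.ax - ((π.bx : ℝ) - π.ax) * π.ay)
      <;> simp only [cN] <;> linarith
  · have k1 := (Nat.cast_lt (α := ℝ)).2 h1
    have k2 := (Nat.cast_lt (α := ℝ)).2 h2
    apply sep (-((π.bY : ℝ) - π.ay)) ((π.bx : ℝ) - π.ax) (-(((π.bY : ℝ) - π.ay) * π.ax) + ((π.bx : ℝ) - π.ax) * π.ay)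
      <;> simp only [cN] <;> linarith

theorem lt4_sound {a b c d : ℕ} (h : lt4 a b c d = true) :
    ∃ γ : ℝ, a ≤ γ ∧ b ≤ γ ∧ γ < c ∧ γ < d := by
  simp only [lt4, Bool.and_eq_true, Nat.blt_eq] at h
  obtain ⟨⟨⟨h1, h2⟩, h3⟩, h4⟩ := h
  refine ⟨(max a b : ℕ), ?_, ?_, ?_, ?_⟩ <;> norm_cast <;> omega

def Pc.Sep (π σ : Pc) : Prop :=
  π.a = σ.a ∨ π.a = σ.b ∨ π.b = σ.a ∨ π.b = σ.b ∨ Disjoint π.seg σ.seg

theorem disj_sound (π σ : Pc) (h : disj π σ = true) : π.Sep σ := by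
  simp only [disj, Bool.or_eq_true, Nat.beq_eq] at h
  unfold Pc.Sep
  rcases h with ((((((((h | h) | h) | h) | h) | h) | h) | h) | h) | h
  · obtain ⟨γ, h1, h2, h3, h4⟩ := lt4_sound h
    refine Or.inr (Or.inr (Or.inr (Or.inr (sep 1 0 γ ?_ ?_ ?_ ?_)))) <;> simpa [cN]
  · obtain ⟨γ, h1, h2, h3, h4⟩ := lt4_sound h
    refine Or.inr (Or.inr (Or.inr (Or.inr (Disjoint.symm (sep 1 0 γ ?_ ?_ ?_ ?_))))) <;> simpa [cN]
  · obtain ⟨γ, h1, h2, h3, h4⟩ := lt4_sound h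
    refine Or.inr (Or.inr (Or.inr (Or.inr (sep 0 1 γ ?_ ?_ ?_ ?_)))) <;> simpa [cN]
  · obtain ⟨γ, h1, h2, h3, h4⟩ := lt4_sound h
    refine Or.inr (Or.inr (Or.inr (Or.inr (Disjoint.symm (sep 0 1 γ ?_ ?_ ?_ ?_))))) <;> simpa [cN]
  · tauto
  · tauto
  · tauto
  · tauto
  · exact Or.inr (Or.inr (Or.inr (Or.inr (side_sound h))))
  · exact Or.inr (Or.inr (Or.inr (Or.inr (side_sound h).symm)))

theorem cN_toNat {w : ℤ × ℤ} (h1 : 0 ≤ w.1) (h2 : 0 ≤ w.2) : cN w.1.toNat w.2.toNat = toC w := by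
  apply Complex.ext
  · simp only [cN, toC]; exact_mod_cast Int.toNat_of_nonneg h1
  · simp only [cN, toC]; exact_mod_cast Int.toNat_of_nonneg h2

variable {z : ℕ → ℕ → ℤ × ℤ} {τ : ℕ}

theorem Lay.cN (h : Lay z) (hτ : τ ≤ 4) {l : ℕ} (hl : l ∈ tileVerts τ) :
    cN (z τ l).1.toNat (z τ l).2.toNat = toC (z τ l) :=
  cN_toNat (h.inside τ hτ l hl).1.le (h.inside τ hτ l hl).2.2.1.le

theorem mem_vtab {l : ℕ} (hl : l ∈ tileVerts τ) :
    (l, (z τ l).1.toNat, (z τ l).2.toNat) ∈ vtab z τ := List.mem_map.2 ⟨l, hl, rfl⟩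

theorem ptab_edge (h : Lay z) (hτ : τ ≤ 4) {e : ℕ × ℕ} (he : e ∈ tileEdges τ) :
    ∃ π ∈ ptab z τ, π.a = e.1 ∧ π.b = e.2 ∧ π.seg = segment ℝ (toC (z τ e.1)) (toC (z τ e.2)) := by
  refine ⟨_, List.mem_append_left _ (List.mem_map.2 ⟨e, he, rfl⟩), rfl, rfl, ?_⟩
  have w := (tile_wf τ hτ).1 e he
  simp only [Pc.seg, h.cN hτ w.1, h.cN hτ w.2.1]

theorem ptab_stub (h : Lay z) (hτ : τ ≤ 4) {s : ℕ × ℤ × ℤ} (hs : s ∈ stubs τ) :
    ∃ π ∈ ptab z τ, π.a = s.1 ∧ π.b = 2000 + s.1 ∧ π.seg = segment ℝ (toC (z τ s.1)) (toC s.2) := by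
  refine ⟨_, List.mem_append_right _ (List.mem_map.2 ⟨s, hs, rfl⟩), rfl, rfl, ?_⟩
  have w := (tile_wf τ hτ).2.2.1 s hs
  simp only [Pc.seg, h.cN hτ w.1, cN_toNat w.2.1 w.2.2.2.1]

theorem toNat_ne {l m : ℕ}
    (hne : (z τ l).1.toNat ≠ (z τ m).1.toNat ∨ (z τ l).2.toNat ≠ (z τ m).2.toNat) : z τ l ≠ z τ m := by
  intro he; rw [he] at hne; simp at hne

end Pool.Agent.Lib.MP_a4368a_lc
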