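import Pool.Agent.Lib.MP_a4368a_lc.Planar

/-! A family of solutions tending to the nominal one gives a drawing. -/

namespace Pool.Agent.Lib.MP_a4368a_lc

open Complex Filter Topology

def ev (f : Form) (x : ℝ × ℝ × ℝ) : ℝ := f.1 + f.2.1 * x.1 + f.2.2.1 * x.2.1 + f.2.2.2 * x.2.2
def evC (F : Form × Form) (x : ℝ × ℝ × ℝ) : ℂ := ⟨ev F.1 x, ev F.2 x⟩

theorem ev_fadd (f h : Form) (x : ℝ × ℝ × ℝ) : ev (fadd f h) x = ev f x + ev h x := by
  simp [ev, fadd]; ring
theorem ev_fsm (k : ℤ) (f : Form) (x : ℝ × ℝ × ℝ) : ev (fsm k f) x = k * ev f x := by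
  simp [ev, fsm]; ring
theorem ev_fsub (f h : Form) (x : ℝ × ℝ × ℝ) : ev (fsub f h) x = ev f x - ev h x := by
  simp [fsub, ev_fadd, ev_fsm]; ring
theorem ev_zero (x : ℝ × ℝ × ℝ) : ev (0, 0, 0, 0) x = 0 := by simp [ev]

theorem evC_lin (a b : Form) (ε : ℤ) (d : ℤ × ℤ) (x : ℝ × ℝ × ℝ) :
    evC (lin a b ε d) x = evC (a, b) x * toC (d.1, ε * d.2) := by
  apply Complex.ext <;> simp [evC, lin, ev_fadd, ev_fsm] <;> ring

def U (c : Cl) (x : ℝ × ℝ × ℝ) : ℂ := if c.tiny then 1 else evC (c.ex, c.ey) x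

theorem evC_dirF (c : Cl) (d : ℤ × ℤ) (x : ℝ × ℝ × ℝ) :
    evC (dirF c d) x = U c x * toC (d.1, c.eps * d.2) := by
  unfold dirF U
  split_ifs
  · rw [evC_lin]; congr 1; apply Complex.ext <;> simp [evC, ev]
  · rw [evC_lin]

theorem evC_zero (F : Form × Form) : evC F 0 = toC (F.1.1, F.2.1) := by
  apply Complex.ext <;> simp [evC, ev]

theorem continuous_evC (F : Form × Form) : Continuous (evC F) := by
  have : evC F = fun x => (ev F.1 x : ℂ) + (ev F.2 x : ℂ) * I := by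
    funext x; apply Complex.ext <;> simp [evC]
  rw [this]; unfold ev; fun_prop

theorem continuous_dot : Continuous (fun p : ℂ × ℂ => dot p.1 p.2) := by unfold dot; fun_prop
theorem continuous_crs : Continuous (fun p : ℂ × ℂ => crs p.1 p.2) := by unfold crs; fun_prop

theorem ray_of {z d : ℂ} (h1 : crs z d = 0) (h2 : 0 < dot z d) : Ray z d := by
  have hd : d ≠ 0 := by rintro rfl; simp [dot] at h2
  have hN := normSq_pos.2 hd
  refine ⟨dot z d / normSq d, div_pos h2 hN, ?_⟩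
  apply mul_left_cancel₀ (show ((normSq d : ℝ) : ℂ) ≠ 0 by exact_mod_cast hN.ne')
  rw [← mul_assoc, ← ofReal_mul, mul_div_cancel₀ _ hN.ne']
  simp only [crs] at h1
  apply Complex.ext <;> simp [normSq_apply, dot]
  · linear_combination d.im * h1
  · linear_combination (-d.re) * h1

/-- the relation used to build a drawing -/
def RelC (k : ℕ) (a b c : ℝ) : Prop :=
  if k = 0 then a + b = 2 * c else if k = 1 then a ^ 2 = 3 * c ^ 2 - 2 * c * b else b < a

def TRel (τ : ℕ) (x : ℝ × ℝ × ℝ) : Prop :=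
  (τ = 1 → x.1 = x.2.1) ∧ (τ = 2 → x.1 + x.2.1 = 2 * x.2.2) ∧
    (τ = 3 → (1 + x.1) ^ 2 = 3 * (1 + x.2.2) ^ 2 - 2 * (1 + x.2.2) * (1 + x.2.1)) ∧ (τ = 4 → x.2.1 < x.1)

theorem ev_of_nf {τ : ℕ} {x : ℝ × ℝ × ℝ} (h : TRel τ x) {f : Form} (hf : nf τ f = (0, 0, 0, 0)) :
    ev f x = 0 := by
  unfold nf at hf
  split_ifs at hf with h1 h2
  · simp only [Prod.mk.injEq] at hf
    obtain ⟨a, b, -, d⟩ := hf
    have b' : (f.2.1 : ℝ) + f.2.2.1 = 0 := by exact_mod_cast b
    simp only [ev, a, d, h.1 h1]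
    linear_combination x.2.1 * b'
  · simp only [Prod.mk.injEq] at hf
    obtain ⟨a, b, c, -⟩ := hf
    have a' : 2 * (f.1 : ℝ) = 0 := by exact_mod_cast a
    have b' : 2 * (f.2.1 : ℝ) + f.2.2.2 = 0 := by exact_mod_cast b
    have c' : 2 * (f.2.2.1 : ℝ) + f.2.2.2 = 0 := by exact_mod_cast c
    have := h.2.1 h2
    simp only [ev]
    linear_combination (1 / 2) * a' + (x.1 / 2) * b' + (x.2.1 / 2) * c' - ((f.2.2.2 : ℝ) / 2) * this
  · rw [hf, ev_zero]

variable (cs : List Con)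

def gpar (v : ℕ → ℝ) (k : ℕ) : ℝ × ℝ × ℝ :=
  (v (occ cs (3 * k)) - 1, v (occ cs (3 * k + 1)) - 1, v (occ cs (3 * k + 2)) - 1)

def xi (v : ℕ → ℝ) (j : ℕ) : ℝ :=
  ev (pos (ty cs (0, j / 3)) (pN (ty cs (0, j / 3)) (2 * (j % 3)))).1 (gpar cs v (j / 3)) -
    (1080 * (j % 3 : ℕ) + 396)

def par (v : ℕ → ℝ) (c : ℕ × ℕ) : ℝ × ℝ × ℝ :=
  if c.1 = 0 then gpar cs v c.2 else (v (c.1 - 1) - 1, v (occ cs c.2) - 1, xi cs v c.2)

def PP (v : ℕ → ℝ) (u : GV) : ℂ := toC (org u.1) + evC (pos (ty cs u.1) u.2) (par cs v u.1)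

def Sol (v : ℕ → ℝ) : Prop := ∀ c ∈ cs, RelC c.1 (v c.2.1) (v c.2.2.1) (v c.2.2.2)

variable {cs}

theorem trel {v : ℕ → ℝ} (h : Sol cs v) {c : ℕ × ℕ} (hc : c ∈ cells cs) :
    TRel (ty cs c) (par cs v c) := by
  obtain ⟨i, k⟩ := c
  rcases mem_cells.1 hc with ⟨h0, hk⟩ | ⟨h0, -, -⟩
  · simp only at h0 hk
    subst h0
    have r := h _ (List.getElem_mem hk)
    have o0 : occ cs (3 * k) = cs[k].2.1 := by simp [occ, hk]
    have o1 : occ cs (3 * k + 1) = cs[k].2.2.1 := by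
      have : (3 * k + 1) / 3 = k := by omega
      simp [occ, this, hk]
    have o2 : occ cs (3 * k + 2) = cs[k].2.2.2 := by
      have : (3 * k + 2) / 3 = k := by omega
      simp [occ, this, hk]
    have hg : cs.getD k (0, 0, 0, 0) = cs[k] := by simp [hk]
    rw [ty_zero, hg]
    simp only [par, if_true, gpar, o0, o1, o2, TRel, gty, RelC] at r ⊢
    split_ifs at r ⊢
    · refine ⟨by omega, fun _ => by linarith, by omega, by omega⟩
    · refine ⟨by omega, by omega, fun _ => by linear_combination r, by omega⟩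
    · refine ⟨by omega, by omega, by omega, fun _ => by linarith⟩
  · obtain ⟨i, rfl⟩ : ∃ i', i = i' + 1 := ⟨i - 1, by simp at h0; omega⟩
    rw [ty_grid]
    split_ifs with h1
    · refine ⟨fun _ => ?_, by omega, by omega, by omega⟩
      simp [par, ← h1]
    · exact ⟨by omega, by omega, by omega, by omega⟩

theorem vlink_re (v : ℕ → ℝ) {i j k : ℕ} (hk : k < 2) (ht : ty cs (below i j) ≠ 1) :
    (PP cs v (vlink cs i j k).1).re = (PP cs v (vlink cs i j k).2).re := by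
  have f1 := form_S _ (ty_grid_le cs i j) k hk
  simp only [PP, vlink, add_re, toC_re, evC, f1]
  by_cases h0 : i = 0
  · subst h0
    have hb : below 0 j = (0, j / 3) := rfl
    have hs : sub 0 j = 2 * (j % 3) := rfl
    have h2 : 2 ≤ ty cs (0, j / 3) := (ty_ge cs _).2 rfl
    have hq : j % 3 < 3 := Nat.mod_lt _ (by norm_num)
    have f2 := form_G _ (ty_le cs (0, j / 3)) (j % 3) hq h2
    have e1 : (j : ℝ) = 3 * (j / 3 : ℕ) + (j % 3 : ℕ) := by
      exact_mod_cast (Nat.div_add_mod j 3).symm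
    have e2 : ev (unitF (j % 3)) (gpar cs v (j / 3)) = 288 * v (occ cs j) := by
      have e3 : j = 3 * (j / 3) + j % 3 := (Nat.div_add_mod j 3).symm
      generalize j % 3 = q at *
      generalize j / 3 = m at *
      subst e3
      interval_cases q <;> simp [ev, unitF, gpar] <;> ring
    rw [hb, hs]
    have p0 : par cs v (0, j / 3) = gpar cs v (j / 3) := rfl
    have p1 : par cs v (0 + 1, j) = (v 0 - 1, v (occ cs j) - 1, xi cs v j) := rfl
    have o0 : ((org (0, j / 3)).1 : ℝ) = 3240 * (j / 3 : ℕ) := by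
      have : (org (0, j / 3)).1 = 3240 * (j / 3 : ℕ) := rfl
      rw [this, Int.cast_mul, Int.cast_natCast]; norm_num
    have o1 : ((org (0 + 1, j)).1 : ℝ) = 1080 * j := by simp [org]
    rw [p0, p1, o0, o1, e1]
    interval_cases k
    · rw [add_zero]
      set X := ev (pos (ty cs (0, j / 3)) (pN (ty cs (0, j / 3)) (2 * (j % 3)))).1 (gpar cs v (j / 3))
        with hX
      simp only [xi, ← hX]
      simp [ev, xk]; ring
    · rw [f2, ev_fadd, e2]
      set X := ev (pos (ty cs (0, j / 3)) (pN (ty cs (0, j / 3)) (2 * (j % 3)))).1 (gpar cs v (j / 3))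
        with hX
      simp only [xi, ← hX]
      simp [ev, xk]; ring
  · obtain ⟨i, rfl⟩ : ∃ i', i = i' + 1 := ⟨i - 1, by omega⟩
    have hb : below (i + 1) j = (i + 1, j) := rfl
    have hs : sub (i + 1) j = 0 := rfl
    have h2 : ty cs (i + 1, j) = 0 := by
      have := ty_grid_le cs i j
      rw [hb] at ht; omega
    rw [hb, hs, h2, zero_add, form_N k hk]
    simp [ev, par, org]

theorem hlink_im (v : ℕ → ℝ) {i j k : ℕ} (hk : k < 2) :
    (PP cs v (hlink cs i j k).1).im = (PP cs v (hlink cs i j k).2).im := by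
  have f1 := form_E _ (ty_grid_le cs i j) k hk
  have f2 := form_W _ (ty_grid_le cs i (j + 1)) k hk
  simp only [PP, hlink, add_im, toC_im, evC, f1, f2]
  simp [ev, par, org]

theorem PP_same (v : ℕ → ℝ) (c : ℕ × ℕ) {l m : ℕ} (h : m / 128 = l / 128) :
    PP cs v (c, m) - PP cs v (c, l) =
      evC ((cl (ty cs c) (l / 128)).ex, (cl (ty cs c) (l / 128)).ey) (par cs v c) *
        toC ((gl (ty cs c) m - gl (ty cs c) l).1,
          (cl (ty cs c) (l / 128)).eps * (gl (ty cs c) m - gl (ty cs c) l).2) := by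
  apply Complex.ext <;> simp [PP, pos, h, evC, ev_fadd, lin, ev_fsm] <;> ring

theorem ray_same {v : ℕ → ℝ} (hv : Sol cs v) {c : ℕ × ℕ} (hc : c ∈ cells cs) {l m : ℕ}
    (hl : l ∈ tileVerts (ty cs c)) (h : m / 128 = l / 128) :
    Ray (PP cs v (c, m) - PP cs v (c, l))
      (evC (dirF (cl (ty cs c) (l / 128)) (gl (ty cs c) m - gl (ty cs c) l)) (par cs v c)) := by
  rw [PP_same v c h, evC_dirF]
  have ok := cl_ok _ (ty_le cs c) l hl
  unfold U
  split_ifs with ht
  · obtain ⟨h4, hx, hy⟩ := ok.2.1 ht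
    have := (trel hv hc).2.2.2 h4
    refine ⟨144 * ((par cs v c).1 - (par cs v c).2.1), by linarith, ?_⟩
    rw [hx, hy, one_mul]
    congr 1
    apply Complex.ext <;> simp [evC, ev]; ring
  · exact ⟨1, one_pos, by simp⟩

theorem quad_exact {x : ℝ × ℝ × ℝ} (h : TRel 3 x) :
    crs (evC (pos 3 896) x - evC (pos 3 770) x) (evC (dirF (cl 3 (770 / 128)) (0, -1)) x) = 0 := by
  have e1 : pos 3 896 = ((1548, 0, -432, 648), (1080, 576, 0, 0)) := by decide +kernel
  have e2 : pos 3 770 = ((1404, 72, 0, 0), (840, 216, 0, 120)) := by decide +kernel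
  have e3 : dirF (cl 3 (770 / 128)) (0, -1) = ((36, 36, 0, 0), (60, 0, 0, 60)) := by decide +kernel
  rw [e1, e2, e3]
  have := h.2.2.1 rfl
  simp [crs, evC, ev]
  linear_combination (-12960) * this

section Family

variable {T : Type} {F : Filter T} {val : T → ℕ → ℝ}

theorem tendsto_gpar (hval : ∀ i, Tendsto (fun t => val t i) F (𝓝 1)) (k : ℕ) :
    Tendsto (fun t => gpar cs (val t) k) F (𝓝 0) := by
  have h : ∀ i, Tendsto (fun t => val t i - 1) F (𝓝 0) := fun i => by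
    simpa using (hval i).sub_const 1
  exact (h _).prodMk_nhds ((h _).prodMk_nhds (h _))

theorem tendsto_par (hval : ∀ i, Tendsto (fun t => val t i) F (𝓝 1)) (c : ℕ × ℕ) :
    Tendsto (fun t => par cs (val t) c) F (𝓝 0) := by
  unfold par
  split_ifs
  · exact tendsto_gpar hval _
  · have h : ∀ i, Tendsto (fun t => val t i - 1) F (𝓝 0) := fun i => by
      simpa using (hval i).sub_const 1
    refine (h _).prodMk_nhds ((h _).prodMk_nhds ?_)
    have f := form_G0 _ (ty_le cs (0, c.2 / 3)) (c.2 % 3) (Nat.mod_lt _ (by norm_num))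
      ((ty_ge cs _).2 rfl)
    have hc : Continuous (ev (pos (ty cs (0, c.2 / 3)) (pN (ty cs (0, c.2 / 3)) (2 * (c.2 % 3)))).1) := by
      unfold ev; fun_prop
    have := ((hc.tendsto 0).comp (tendsto_gpar (cs := cs) hval (c.2 / 3))).sub_const
      (1080 * (c.2 % 3 : ℕ) + 396)
    have e : ev (pos (ty cs (0, c.2 / 3)) (pN (ty cs (0, c.2 / 3)) (2 * (c.2 % 3)))).1 0 -
        (1080 * (c.2 % 3 : ℕ) + 396) = 0 := by
      simp only [ev, f, Int.cast_add, Int.cast_mul, Int.cast_natCast]; simp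
    rw [e] at this
    exact this

theorem tendsto_evC (hval : ∀ i, Tendsto (fun t => val t i) F (𝓝 1)) (c : ℕ × ℕ) (G : Form × Form) :
    Tendsto (fun t => evC G (par cs (val t) c)) F (𝓝 (toC (G.1.1, G.2.1))) := by
  rw [← evC_zero]
  exact ((continuous_evC G).tendsto 0).comp (tendsto_par hval c)

theorem tendsto_PP (hval : ∀ i, Tendsto (fun t => val t i) F (𝓝 1)) (u : GV) :
    Tendsto (fun t => PP cs (val t) u) F (𝓝 (Z cs qz u)) :=
  (tendsto_evC hval u.1 _).const_add _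

theorem tendsto_dot {f h : T → ℂ} {a b : ℂ} (hf : Tendsto f F (𝓝 a)) (hh : Tendsto h F (𝓝 b)) :
    Tendsto (fun t => dot (f t) (h t)) F (𝓝 (dot a b)) :=
  (continuous_dot.tendsto (a, b)).comp (hf.prodMk_nhds hh)

theorem tendsto_crs {f h : T → ℂ} {a b : ℂ} (hf : Tendsto f F (𝓝 a)) (hh : Tendsto h F (𝓝 b)) :
    Tendsto (fun t => crs (f t) (h t)) F (𝓝 (crs a b)) :=
  (continuous_crs.tendsto (a, b)).comp (hf.prodMk_nhds hh)

theorem U_ne (hval : ∀ i, Tendsto (fun t => val t i) F (𝓝 1)) {c : ℕ × ℕ} {l : ℕ}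
    (hl : l ∈ tileVerts (ty cs c)) : ∀ᶠ t in F, U (cl (ty cs c) (l / 128)) (par cs (val t) c) ≠ 0 := by
  have ok := cl_ok _ (ty_le cs c) l hl
  unfold U
  split_ifs with ht
  · simp
  · apply (tendsto_evC hval c _).eventually_ne
    intro h
    have h1 := congrArg Complex.re h
    have h2 := congrArg Complex.im h
    simp only [toC_re, toC_im, zero_re, zero_im, Int.cast_eq_zero] at h1 h2
    rcases ok.2.2 (by simpa using ht) with q | q
    exacts [q h1, q h2]

theorem Z_diff (c : ℕ × ℕ) (l m : ℕ) :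
    Z cs qz (c, m) - Z cs qz (c, l) = toC (qz (ty cs c) m - qz (ty cs c) l) := by
  simp [Z, toC_sub]

theorem ray_inner (hval : ∀ i, Tendsto (fun t => val t i) F (𝓝 1)) (hsol : ∀ᶠ t in F, Sol cs (val t))
    {c : ℕ × ℕ} (hc : c ∈ cells cs) {l m : ℕ} (hl : l ∈ tileVerts (ty cs c))
    (ok : LinkOK (ty cs c) l m) {d : ℤ × ℤ} (hd : d ∈ lv (ty cs c) l m) :
    ∀ᶠ t in F, Ray (PP cs (val t) (c, m) - PP cs (val t) (c, l))
      (evC (dirF (cl (ty cs c) (l / 128)) d) (par cs (val t) c)) := by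
  by_cases h : m / 128 = l / 128
  · simp only [lv, if_pos h, Option.mem_def, Option.some.injEq] at hd
    subst hd
    exact hsol.mono fun t ht => ray_same ht hc hl h
  · obtain ⟨ex, po⟩ := (ok.resolve_left h) d hd
    have t1 := tendsto_dot ((tendsto_PP (cs := cs) hval (c, m)).sub (tendsto_PP (cs := cs) hval (c, l)))
      (tendsto_evC (cs := cs) hval c (dirF (cl (ty cs c) (l / 128)) d))
    rw [Z_diff, dot_toC] at t1
    have t2 := t1.eventually_const_lt (show (0 : ℝ) < _ by exact_mod_cast po)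
    filter_upwards [hsol, t2] with t ht h2
    refine ray_of ?_ h2
    have tr := trel ht hc
    have e : PP cs (val t) (c, m) - PP cs (val t) (c, l) =
        evC (pos (ty cs c) m) (par cs (val t) c) - evC (pos (ty cs c) l) (par cs (val t) c) := by
      simp [PP]
    rw [e]
    rcases ex with ⟨q1, q2⟩ | ⟨q1, q2⟩ | ⟨q1, rfl, rfl, rfl⟩
    · have := ev_of_nf tr q2
      rw [ev_fsub] at this
      simp [crs, evC, q1, ev_zero, this]
    · have := ev_of_nf tr q2
      rw [ev_fsub] at this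
      simp [crs, evC, q1, ev_zero, this]
    · rw [q1] at tr ⊢
      exact quad_exact tr

theorem ray_stub (hval : ∀ i, Tendsto (fun t => val t i) F (𝓝 1)) {u w : GV} {s : ℕ × ℤ × ℤ}
    (hs : u.2 = s.1) {r : ℝ} (hr : 0 < r)
    (hb : toC (org u.1 + s.2) - Z cs qz u = r * (Z cs qz w - Z cs qz u))
    (hk : (s ∈ stubsV (ty cs u.1) ∧ ∀ v, (PP cs v u).re = (PP cs v w).re) ∨
      (s ∈ stubsH (ty cs u.1) ∧ ∀ v, (PP cs v u).im = (PP cs v w).im))
    {d : ℤ × ℤ} (hd : d ∈ lv (ty cs u.1) u.2 (2000 + u.2)) :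
    ∀ᶠ t in F, Ray (PP cs (val t) w - PP cs (val t) u)
      (evC (dirF (cl (ty cs u.1) (u.2 / 128)) d) (par cs (val t) u.1)) := by
  have key : (∀ v, crs (PP cs v w - PP cs v u) (evC (dirF (cl (ty cs u.1) (u.2 / 128)) d) (par cs v u.1)) = 0) ∧
      0 < dotZ (s.2 - qz (ty cs u.1) u.2) (dir0 (cl (ty cs u.1) (u.2 / 128)) d) := by
    rcases hk with ⟨m, h⟩ | ⟨m, h⟩
    · obtain ⟨d', h1, h2, h3⟩ := stubsV_ok _ (ty_le cs _) s m
      rw [← hs] at h1 h2 h3
      obtain rfl : d = d' := Option.mem_unique hd h1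
      exact ⟨fun v => by simp [crs, evC, h2, ev_zero, h v], h3⟩
    · obtain ⟨d', h1, h2, h3⟩ := stubsH_ok _ (ty_le cs _) s m
      rw [← hs] at h1 h2 h3
      obtain rfl : d = d' := Option.mem_unique hd h1
      exact ⟨fun v => by simp [crs, evC, h2, ev_zero, h v], h3⟩
  have t1 := tendsto_dot ((tendsto_PP (cs := cs) hval w).sub (tendsto_PP (cs := cs) hval u))
    (tendsto_evC (cs := cs) hval u.1 (dirF (cl (ty cs u.1) (u.2 / 128)) d))
  have e1 : toC (org u.1 + s.2) - Z cs qz u = toC (s.2 - qz (ty cs u.1) u.2) := by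
    simp [Z, toC_add, toC_sub]
  have p1 : (0 : ℝ) < dot (toC (s.2 - qz (ty cs u.1) u.2)) (toC (dir0 (cl (ty cs u.1) (u.2 / 128)) d)) := by
    rw [dot_toC]; exact_mod_cast key.2
  rw [← e1, hb] at p1
  have e2 : ∀ a b : ℂ, dot (r * a) b = r * dot a b := fun a b => by simp [dot]; ring
  rw [e2] at p1
  have t2 := t1.eventually_const_lt ((mul_pos_iff_of_pos_left hr).1 p1)
  exact t2.mono fun t h2 => ray_of (key.1 _) h2

end Family

end Pool.Agent.Lib.MP_a4368a_lc
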