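import Pool.Agent.Lib.MP_a4368a_lc.Cells

/-! Coordinates of the tiles: affine forms in three parameters and a plane layout. -/

namespace Pool.Agent.Lib.MP_a4368a_lc

abbrev Form : Type := ℤ × ℤ × ℤ × ℤ

instance formDecEq : DecidableEq Form := inferInstance

def fadd (f h : Form) : Form := (f.1 + h.1, f.2.1 + h.2.1, f.2.2.1 + h.2.2.1, f.2.2.2 + h.2.2.2)
def fsm (k : ℤ) (f : Form) : Form := (k * f.1, k * f.2.1, k * f.2.2.1, k * f.2.2.2)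
def fsub (f h : Form) : Form := fadd f (fsm (-1) h)

structure Cl where
  n : ℕ
  kind : ℕ
  ox : Form
  oy : Form
  ex : Form
  ey : Form
  eps : ℤ
  tiny : Bool
  pl : Form

def geo (τ : ℕ) : List Cl :=
  if τ = 0 then [⟨8, 1, (252, 0, -144, 1), (216, 0, -72, 0), (72, 0, 72, 0), (0, 0, 0, 0), 1, false, (252, 216, 6, 0)⟩,
    ⟨8, 1, (252, 0, -144, 1), (720, 360, 72, 0), (72, 0, 72, 0), (0, 0, 0, 0), -1, false, (252, 720, 6, 0)⟩]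
  else if τ = 1 then [⟨9, 1, (252, 0, -144, 1), (180, -36, -72, 0), (72, 0, 72, 0), (0, 0, 0, 0), 1, false, (252, 180, 6, 0)⟩,
    ⟨15, 0, (180, 36, 0, 0), (180, -108, 0, 0), (0, 0, 0, 0), (36, 36, 0, 0), 1, false, (180, 180, 0, 3)⟩,
    ⟨17, 0, (972, 0, 0, 0), (108, -180, 0, 0), (0, 0, 0, 0), (36, 36, 0, 0), -1, false, (972, 108, 0, 3)⟩]
  else if τ = 2 then [⟨8, 1, (108, -288, 0, 0), (864, 144, 0, 0), (144, 144, 0, 0), (0, 0, 0, 0), -1, false, (108, 864, 12, 0)⟩,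
    ⟨20, 0, (252, 144, 0, -288), (360, 0, 0, 0), (144, 0, 0, 144), (0, 0, 0, 0), -1, false, (252, 360, 12, 0)⟩,
    ⟨15, 0, (828, 576, -144, 0), (1224, 0, 0, 0), (72, 0, 72, 0), (0, 0, 0, 0), 1, false, (828, 1224, 6, 0)⟩,
    ⟨6, 1, (1440, 144, 0, 864), (612, 0, 0, 0), (0, 0, 0, 0), (36, 0, 0, 0), 1, false, (1440, 612, 0, 3)⟩]
  else if τ = 3 then [⟨9, 1, (252, -144, 0, 0), (1260, 756, 0, 0), (72, 72, 0, 0), (0, 0, 0, 0), -1, false, (252, 1260, 6, 0)⟩,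
    ⟨26, 0, (1008, 0, 0, 0), (432, -72, 0, 0), (0, 0, 0, 0), (36, 36, 0, 0), 1, false, (1008, 432, 0, 3)⟩,
    ⟨12, 0, (180, 0, 0, 0), (828, 324, 0, 0), (0, 0, 0, 0), (36, 36, 0, 0), 1, false, (180, 828, 0, 3)⟩,
    ⟨6, 1, (1116, 0, 0, -216), (432, 0, 0, -72), (72, 0, 0, 72), (0, 0, 0, 0), 1, false, (1116, 432, 6, 0)⟩,
    ⟨26, 0, (1116, 0, 0, -216), (216, 0, 0, 0), (72, 0, 0, 72), (0, 0, 0, 0), -1, false, (1116, 216, 6, 0)⟩,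
    ⟨12, 1, (1260, 0, -720, 648), (1224, 792, -72, 0), (72, 0, 72, 0), (0, 0, 0, 0), 1, false, (1260, 1224, 6, 0)⟩,
    ⟨10, 2, (1284, 72, 0, -120), (912, 288, 0, 120), (60, 0, 0, 60), (-36, -36, 0, 0), -1, false, (1284, 912, 5, -3)⟩,
    ⟨0, 0, (1548, 0, -432, 648), (1080, 576, 0, 0), (36, 0, 0, 0), (0, 0, 0, 0), 1, false, (1548, 1080, 3, 0)⟩]
  else [⟨8, 1, (252, -144, 0, 0), (1152, 72, 0, 0), (72, 72, 0, 0), (0, 0, 0, 0), -1, false, (252, 1152, 6, 0)⟩,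
    ⟨22, 1, (324, 72, -144, 0), (720, 0, 72, 0), (72, 0, 72, 0), (0, 0, 0, 0), -1, false, (324, 720, 6, 0)⟩,
    ⟨5, 0, (612, -216, 432, 0), (864, 0, 0, 0), (0, 144, -144, 0), (0, 0, 0, 0), 1, true, (588, 864, 1, 0)⟩,
    ⟨16, 0, (144, 0, 0, 0), (576, 0, 0, 0), (0, 0, 0, 0), (36, 0, 0, 0), 1, false, (144, 576, 0, 3)⟩,
    ⟨6, 0, (2268, 0, 0, -288), (1080, 0, 0, 0), (144, 0, 0, 144), (0, 0, 0, 0), -1, false, (2268, 1080, 12, 0)⟩]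

def cl (τ r : ℕ) : Cl :=
  (geo τ).getD r ⟨0, 0, (0, 0, 0, 0), (0, 0, 0, 0), (0, 0, 0, 0), (0, 0, 0, 0), 1, false, (0, 0, 0, 0)⟩

/-- coordinates inside a ruler -/
def g (n l : ℕ) : ℤ × ℤ :=
  if l < 32 then (l, (l % 2 : ℕ))
  else if l < 64 then ((l - 32 : ℕ), 2 - 3 * (l % 2 : ℕ))
  else if l = 64 then (0, 2) else if l = 65 then (1, 3)
  else if l = 66 then (n, 3 * ((n - 1) % 2 : ℕ) - 1) else ((n - 1 : ℕ), 5 * ((n - 1) % 2 : ℕ) - 2)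

/-- plane coordinates inside a ruler -/
def gp (n kind l : ℕ) : ℤ × ℤ :=
  if kind = 2 ∧ l = 1 then (28, 12) else if kind = 2 ∧ l = 0 then (25, 12)
  else if kind = 2 ∧ l = 33 then (26, 9) else if kind = 2 ∧ l = 34 then (24, 24)
  else if kind = 2 ∧ l + 1 = n then (12 * n - 28, 12) else if kind = 2 ∧ l = n then (12 * n - 25, 12)
  else if kind = 2 ∧ l = 31 + n then (12 * n - 26, 9) else if kind = 2 ∧ l = 30 + n then (12 * n - 24, 24)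
  else if l < 32 then (12 * l, 12 * (l % 2 : ℕ))
  else if l < 64 then (12 * (l - 32 : ℕ), 8 - 4 * (l % 2 : ℕ))
  else if l = 64 then (21, 6) else if l = 65 then (19, 9)
  else if l = 66 then (12 * n - 21, 6) else (12 * n - 19, if n % 2 = 0 then 9 else 3)

def portDir (n kind l : ℕ) : Option (ℤ × ℤ) :=
  if 2 ≤ l ∧ l + 2 ≤ n then (if l % 2 = 0 then some (0, -1) else some (0, 1))
  else if kind = 1 ∧ l = 1 then some (-1, 0) else if kind = 1 ∧ l + 1 = n then some (1, 0) else none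

def gl (τ l : ℕ) : ℤ × ℤ := g (cl τ (l / 128)).n (l % 128)

/-- the vector with coordinates `d` in the frame `(x, y)` of orientation `ε` -/
def lin (x y : Form) (ε : ℤ) (d : ℤ × ℤ) : Form × Form :=
  (fadd (fsm d.1 x) (fsm (-(d.2 * ε)) y), fadd (fsm d.1 y) (fsm (d.2 * ε) x))

def pos (τ l : ℕ) : Form × Form :=
  (fadd (cl τ (l / 128)).ox (lin (cl τ (l / 128)).ex (cl τ (l / 128)).ey (cl τ (l / 128)).eps (gl τ l)).1,
    fadd (cl τ (l / 128)).oy (lin (cl τ (l / 128)).ex (cl τ (l / 128)).ey (cl τ (l / 128)).eps (gl τ l)).2)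

def qz (τ l : ℕ) : ℤ × ℤ := ((pos τ l).1.1, (pos τ l).2.1)

def pzc (c : Cl) (d : ℤ × ℤ) : ℤ × ℤ :=
  (c.pl.1 + d.1 * c.pl.2.2.1 - d.2 * c.eps * c.pl.2.2.2, c.pl.2.1 + d.1 * c.pl.2.2.2 + d.2 * c.eps * c.pl.2.2.1)

def pz (τ l : ℕ) : ℤ × ℤ :=
  pzc (cl τ (l / 128)) (gp (cl τ (l / 128)).n (cl τ (l / 128)).kind (l % 128))

theorem lay_qz : Lay qz := ⟨by decide +kernel, by decide +kernel, by decide +kernel⟩
theorem lay_pz : Lay pz := ⟨by decide +kernel, by decide +kernel, by decide +kernel⟩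

def dotZ (z w : ℤ × ℤ) : ℤ := z.1 * w.1 + z.2 * w.2
def crsZ (z w : ℤ × ℤ) : ℤ := z.1 * w.2 - z.2 * w.1

theorem dot_toC (z w : ℤ × ℤ) : dot (toC z) (toC w) = dotZ z w := by simp [dot, dotZ]
theorem crs_toC (z w : ℤ × ℤ) : crs (toC z) (toC w) = crsZ z w := by simp [crs, crsZ]

/-- direction of the edge from `l` to `m` in the frame of the ruler of `l`, if it is forced -/
def lv (τ l m : ℕ) : Option (ℤ × ℤ) :=
  if m / 128 = l / 128 then some (gl τ m - gl τ l)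
  else portDir (cl τ (l / 128)).n (cl τ (l / 128)).kind (l % 128)

/-- direction field of a ruler -/
def dirF (c : Cl) (d : ℤ × ℤ) : Form × Form :=
  if c.tiny then lin (1, 0, 0, 0) (0, 0, 0, 0) c.eps d else lin c.ex c.ey c.eps d

def dir0 (c : Cl) (d : ℤ × ℤ) : ℤ × ℤ := ((dirF c d).1.1, (dirF c d).2.1)

/-- normal form modulo the linear relation of a tile -/
def nf (τ : ℕ) (f : Form) : Form :=
  if τ = 1 then (f.1, f.2.1 + f.2.2.1, 0, f.2.2.2)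
  else if τ = 2 then (2 * f.1, 2 * f.2.1 + f.2.2.2, 2 * f.2.2.1 + f.2.2.2, 0) else f

def LinkOK (τ a m : ℕ) : Prop :=
  m / 128 = a / 128 ∨ ∀ d ∈ lv τ a m,
    (((dirF (cl τ (a / 128)) d).1 = (0, 0, 0, 0) ∧ nf τ (fsub (pos τ m).1 (pos τ a).1) = (0, 0, 0, 0)) ∨
      ((dirF (cl τ (a / 128)) d).2 = (0, 0, 0, 0) ∧ nf τ (fsub (pos τ m).2 (pos τ a).2) = (0, 0, 0, 0)) ∨
      (τ = 3 ∧ a = 770 ∧ m = 896 ∧ d = (0, -1))) ∧ 0 < dotZ (qz τ m - qz τ a) (dir0 (cl τ (a / 128)) d)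

instance (τ a m : ℕ) : Decidable (LinkOK τ a m) := by unfold LinkOK; infer_instance

theorem links_ok : ∀ τ ≤ 4, ∀ e ∈ tileEdges τ, LinkOK τ e.1 e.2 ∧ LinkOK τ e.2 e.1 := by
  decide +kernel

theorem stubsV_ok : ∀ τ ≤ 4, ∀ s ∈ stubsV τ, ∃ d ∈ lv τ s.1 (2000 + s.1),
    (dirF (cl τ (s.1 / 128)) d).1 = (0, 0, 0, 0) ∧
      0 < dotZ (s.2 - qz τ s.1) (dir0 (cl τ (s.1 / 128)) d) := by
  decide +kernel

theorem stubsH_ok : ∀ τ ≤ 4, ∀ s ∈ stubsH τ, ∃ d ∈ lv τ s.1 (2000 + s.1),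
    (dirF (cl τ (s.1 / 128)) d).2 = (0, 0, 0, 0) ∧
      0 < dotZ (s.2 - qz τ s.1) (dir0 (cl τ (s.1 / 128)) d) := by
  decide +kernel

def ClOK (τ : ℕ) (c : Cl) : Prop :=
  (c.eps = 1 ∨ c.eps = -1) ∧
    (c.tiny = true → τ = 4 ∧ c.ex = (0, 144, -144, 0) ∧ c.ey = (0, 0, 0, 0)) ∧
    (c.tiny = false → c.ex.1 ≠ 0 ∨ c.ey.1 ≠ 0)

instance (τ : ℕ) (c : Cl) : Decidable (ClOK τ c) := by unfold ClOK; infer_instance

theorem cl_ok : ∀ τ ≤ 4, ∀ l ∈ tileVerts τ, ClOK τ (cl τ (l / 128)) := by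
  decide +kernel

theorem form_S : ∀ τ ≤ 1, ∀ k < 2, (pos τ (pS k)).1 = (xk k, (0 : ℤ), 288 * (k : ℤ), (1 : ℤ)) := by
  decide +kernel
theorem form_W : ∀ τ ≤ 1, ∀ k < 2, (pos τ (pW τ k)).2 = (yk k, 360 * (k : ℤ), (0 : ℤ), (0 : ℤ)) := by
  decide +kernel
theorem form_E : ∀ τ ≤ 1, ∀ k < 2, (pos τ (pE τ k)).2 = (yk k, 360 * (k : ℤ), (0 : ℤ), (0 : ℤ)) := by
  decide +kernel
theorem form_N : ∀ k < 2, (pos 0 (pN 0 k)).1 = (xk k, (0 : ℤ), 288 * (k : ℤ), (1 : ℤ)) := by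
  decide +kernel
def unitF (q : ℕ) : Form :=
  (288, if q = 0 then 288 else 0, if q = 1 then 288 else 0, if q = 2 then 288 else 0)
theorem form_G : ∀ τ ≤ 4, ∀ q < 3, 2 ≤ τ → (pos τ (pN τ (2 * q + 1))).1 =
    fadd (pos τ (pN τ (2 * q))).1 (unitF q) := by
  decide +kernel
theorem form_G0 : ∀ τ ≤ 4, ∀ q < 3, 2 ≤ τ → (pos τ (pN τ (2 * q))).1.1 = 1080 * (q : ℤ) + 396 := by
  decide +kernel

end Pool.Agent.Lib.MP_a4368a_lc
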