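import Mathlib

/-! Plane geometry for drawings with angular resolution at least a quarter of pi. -/

namespace Pool.Agent.Lib.MP_a4368a_lc

open Complex

def dot (z w : ℂ) : ℝ := z.re * w.re + z.im * w.im
def crs (z w : ℂ) : ℝ := z.re * w.im - z.im * w.re

/-- the angle between `z` and `w` is at least 45 degrees -/
def A (z w : ℂ) : Prop := dot z w ≤ |crs z w|

theorem normSq_mul_normSq (z w : ℂ) : normSq z * normSq w = dot z w ^ 2 + crs z w ^ 2 := by
  simp [normSq_apply, dot, crs]; ring

theorem angle_iff {z w : ℂ} (hz : z ≠ 0) (hw : w ≠ 0) :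
    Real.pi / 4 ≤ InnerProductGeometry.angle z w ↔ A z w := by
  have hin : inner ℝ z w = dot z w := by
    rw [Complex.inner]; simp [dot]; ring
  have hpos : 0 < ‖z‖ * ‖w‖ := mul_pos (norm_pos_iff.2 hz) (norm_pos_iff.2 hw)
  have hN : (‖z‖ * ‖w‖) ^ 2 = dot z w ^ 2 + crs z w ^ 2 := by
    rw [mul_pow, ← normSq_mul_normSq, Complex.normSq_eq_norm_sq, Complex.normSq_eq_norm_sq]
  have key : Real.pi / 4 ≤ InnerProductGeometry.angle z w ↔
      Real.cos (InnerProductGeometry.angle z w) ≤ Real.cos (Real.pi / 4) := by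
    have h1 := InnerProductGeometry.angle_nonneg z w
    have h2 := InnerProductGeometry.angle_le_pi z w
    have h3 := Real.pi_pos
    rw [(Real.strictAntiOn_cos.le_iff_ge ⟨h1, h2⟩ ⟨by linarith, by linarith⟩)]
  rw [key, InnerProductGeometry.cos_angle, hin, Real.cos_pi_div_four, div_le_iff₀ hpos]
  set N := ‖z‖ * ‖w‖
  set d := dot z w with hd
  set c := crs z w with hc
  have hs : (√2 : ℝ) ^ 2 = 2 := Real.sq_sqrt (by norm_num)
  have hs0 : (0 : ℝ) < √2 := Real.sqrt_pos.2 (by norm_num)
  have h2 : (√2 / 2 * N) ^ 2 = (d ^ 2 + c ^ 2) / 2 := by rw [mul_pow, div_pow, hs, hN]; ring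
  have hp : 0 ≤ √2 / 2 * N := by positivity
  unfold A
  rw [← hd, ← hc]
  constructor
  · intro h
    by_contra hcon
    push Not at hcon
    have h0 : 0 ≤ |c| := abs_nonneg c
    have h3 : d ^ 2 ≤ (√2 / 2 * N) ^ 2 := pow_le_pow_left₀ (by linarith) h 2
    have h4 : |c| ^ 2 < d ^ 2 := pow_lt_pow_left₀ hcon h0 (by norm_num)
    rw [sq_abs] at h4
    linarith
  · intro h
    by_contra hcon
    push Not at hcon
    have h4 : (√2 / 2 * N) ^ 2 < d ^ 2 := pow_lt_pow_left₀ hcon hp (by norm_num)
    have h3 : d ^ 2 ≤ |c| ^ 2 := pow_le_pow_left₀ (by linarith) h 2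
    rw [sq_abs] at h3
    linarith

theorem A.symm {z w : ℂ} (h : A z w) : A w z := by
  unfold A at *
  have h1 : dot w z = dot z w := by simp [dot]; ring
  have h2 : crs w z = -crs z w := by simp [crs]; ring
  rw [h1, h2, abs_neg]; exact h

theorem dot_mul (u z w : ℂ) : dot (u * z) (u * w) = normSq u * dot z w := by
  simp [dot, normSq_apply]; ring

theorem crs_mul (u z w : ℂ) : crs (u * z) (u * w) = normSq u * crs z w := by
  simp [crs, normSq_apply]; ring

theorem A_mul {u : ℂ} (hu : u ≠ 0) (z w : ℂ) : A (u * z) (u * w) ↔ A z w := by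
  unfold A
  have := normSq_pos.2 hu
  rw [dot_mul, crs_mul, abs_mul, abs_of_pos this]
  exact mul_le_mul_iff_of_pos_left this

theorem A_smul {a b : ℝ} (ha : 0 < a) (hb : 0 < b) (z w : ℂ) : A (a * z) (b * w) ↔ A z w := by
  unfold A
  have h1 : dot (a * z) (b * w) = (a * b) * dot z w := by simp [dot]; ring
  have h2 : crs (a * z) (b * w) = (a * b) * crs z w := by simp [crs]; ring
  have := mul_pos ha hb
  rw [h1, h2, abs_mul, abs_of_pos this]
  exact mul_le_mul_iff_of_pos_left this

theorem not_A_self {z : ℂ} (hz : z ≠ 0) : ¬ A z z := by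
  unfold A
  have h1 : dot z z = normSq z := by simp [dot, normSq_apply]
  have h2 : crs z z = 0 := by simp [crs]; ring
  rw [h1, h2, abs_zero]
  exact not_le.2 (normSq_pos.2 hz)

/-- among three vectors with pairwise angles at least 45 degrees, two are at least orthogonal -/
theorem three_vec {u v w : ℂ} (hu : u ≠ 0) (hv : v ≠ 0) (hw : w ≠ 0)
    (h1 : A u v) (h2 : A v w) (h3 : A w u) : dot u v ≤ 0 ∨ dot v w ≤ 0 ∨ dot w u ≤ 0 := by
  by_contra hcon
  push Not at hcon
  obtain ⟨a, b, c⟩ := hcon
  have key : ∀ x y z : ℂ, y ≠ 0 → A x y → A y z → 0 < dot x y → 0 < dot y z → 0 < dot z x →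
      ¬ (0 < crs x y * crs y z) := by
    intro x y z hy hxy hyz p q r hs
    have e : dot z x * normSq y = dot x y * dot y z - crs x y * crs y z := by
      simp [dot, crs, normSq_apply]; ring
    have h5 : dot x y * dot y z ≤ |crs x y| * |crs y z| :=
      mul_le_mul hxy hyz q.le (abs_nonneg _)
    rw [← abs_mul, abs_of_pos hs] at h5
    have := mul_pos r (normSq_pos.2 hy)
    linarith
  have k1 := key u v w hv h1 h2 a b c
  have k2 := key v w u hw h2 h3 b c a
  have k3 := key w u v hu h3 h1 c a b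
  have n1 : crs u v ≠ 0 := by intro h; unfold A at h1; rw [h, abs_zero] at h1; linarith
  have n2 : crs v w ≠ 0 := by intro h; unfold A at h2; rw [h, abs_zero] at h2; linarith
  have n3 : crs w u ≠ 0 := by intro h; unfold A at h3; rw [h, abs_zero] at h3; linarith
  rcases n1.lt_or_gt with p | p <;> rcases n2.lt_or_gt with q | q <;>
    rcases n3.lt_or_gt with r | r <;>
    first
      | exact k1 (mul_pos p q)
      | exact k1 (mul_pos_of_neg_of_neg p q)
      | exact k2 (mul_pos q r)
      | exact k2 (mul_pos_of_neg_of_neg q r)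
      | exact k3 (mul_pos r p)
      | exact k3 (mul_pos_of_neg_of_neg r p)

/-- a triangle with angles at least 45 degrees and one angle at least 90 degrees -/
theorem tri {u v : ℂ} (h0 : dot u v ≤ 0) (h1 : A (-u) (v - u)) (h2 : A (-v) (u - v)) :
    v = I * u ∨ v = -(I * u) := by
  unfold A at h1 h2
  have e1 : dot (-u) (v - u) = normSq u - dot u v := by simp [dot, normSq_apply]; ring
  have e2 : dot (-v) (u - v) = normSq v - dot u v := by simp [dot, normSq_apply]; ring
  have e3 : crs (-u) (v - u) = -crs u v := by simp [crs]; ring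
  have e4 : crs (-v) (u - v) = crs u v := by simp [crs]; ring
  rw [e1, e3, abs_neg] at h1
  rw [e2, e4] at h2
  have hN := normSq_mul_normSq u v
  have pu := normSq_nonneg u
  have pv := normSq_nonneg v
  set c := |crs u v| with hc
  have hc2 : c ^ 2 = crs u v ^ 2 := sq_abs _
  have hc0 : 0 ≤ c := abs_nonneg _
  have h5 : normSq u * normSq v ≤ c * c := mul_le_mul (by linarith) (by linarith) pv hc0
  have hd : dot u v = 0 := by nlinarith
  have h6 : normSq u * normSq v = c * c := by rw [hN, hd, ← hc2]; ring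
  have h7 : normSq u = normSq v := by
    rw [hd] at h1 h2
    rcases hc0.eq_or_lt with h | h
    · linarith
    · nlinarith
  have h8 : (v - I * u) * (v + I * u) = 0 := by
    have : v * v + u * u = 0 := by
      have hd' : u.re * v.re + u.im * v.im = 0 := hd
      have h7' : u.re * u.re + u.im * u.im = v.re * v.re + v.im * v.im := by
        simpa [normSq_apply] using h7
      by_cases hu : u = 0
      · have : normSq v = 0 := by rw [← h7, hu]; simp
        rw [normSq_eq_zero.1 this, hu]; simp
      · have hp : 0 < u.re * u.re + u.im * u.im := by simpa [normSq_apply] using normSq_pos.2 hu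
        apply Complex.ext
        · simp only [add_re, mul_re, zero_re]
          have : (u.re * u.re + u.im * u.im) * (v.re * v.re - v.im * v.im + (u.re * u.re - u.im * u.im)) = 0 := by
            linear_combination (2 * (u.re * v.re - u.im * v.im)) * hd' + (u.re * u.re - u.im * u.im) * h7'
          rcases mul_eq_zero.1 this with h | h
          · linarith
          · exact h
        · simp only [add_im, mul_im, zero_im]
          have : (u.re * u.re + u.im * u.im) * (v.re * v.im + v.im * v.re + (u.re * u.im + u.im * u.re)) = 0 := by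
            linear_combination (2 * (u.re * v.im + u.im * v.re)) * hd' + (2 * u.re * u.im) * h7'
          rcases mul_eq_zero.1 this with h | h
          · linarith
          · exact h
    linear_combination this - u * u * I_mul_I
  rcases mul_eq_zero.1 h8 with h | h
  · left; linear_combination h
  · right; linear_combination h

/-- `ε` is a sign -/
def Sg (ε : ℂ) : Prop := ε = 1 ∨ ε = -1

theorem Sg.neg {ε : ℂ} (h : Sg ε) : Sg (-ε) := by
  rcases h with h | h <;> simp [Sg, h]

theorem Sg.sq {ε : ℂ} (h : Sg ε) : ε * ε = 1 := by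
  rcases h with h | h <;> simp [h]

theorem k4_norm {ε c : ℂ} (hε : Sg ε) (hc : c ≠ 0) (hbc : 1 ≠ c) (hcd : c ≠ ε * I)
    (b1 : A (c - 1) (-1)) (b2 : A (c - 1) (ε * I - 1))
    (d1 : A (c - ε * I) (-(ε * I))) (d2 : A (c - ε * I) (1 - ε * I))
    (c1 : A (-c) (1 - c)) (c2 : A (1 - c) (ε * I - c)) (c3 : A (ε * I - c) (-c))
    (a1 : A c 1) (a2 : A c (ε * I)) : c = 1 + ε * I := by
  have h3 := three_vec (neg_ne_zero.2 hc) (sub_ne_zero.2 hbc) (sub_ne_zero.2 hcd.symm) c1 c2 c3
  obtain ⟨x, y⟩ := c
  rcases h3 with h | h | h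
  · have := tri h (by simpa using a1) (by convert b1 using 1 <;> ring)
    exfalso
    rcases hε with rfl | rfl <;> rcases this with t | t <;>
      simp [Complex.ext_iff] at t <;> obtain ⟨t1, t2⟩ := t
    · have hx : x = 1 / 2 := by linarith
      have hy : y = 1 / 2 := by linarith
      subst hx hy; norm_num [A, dot, crs] at b2
    · have hx : x = 1 / 2 := by linarith
      have hy : y = -1 / 2 := by linarith
      subst hx hy; norm_num [A, dot, crs, abs_of_pos, abs_of_neg] at d1
    · have hx : x = 1 / 2 := by linarith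
      have hy : y = 1 / 2 := by linarith
      subst hx hy; norm_num [A, dot, crs, abs_of_pos, abs_of_neg] at d1
    · have hx : x = 1 / 2 := by linarith
      have hy : y = -1 / 2 := by linarith
      subst hx hy; norm_num [A, dot, crs] at b2
  · have := tri h (by simpa using b2) (by simpa using d2)
    rcases hε with rfl | rfl <;> rcases this with t | t <;>
      simp [Complex.ext_iff] at t <;> obtain ⟨t1, t2⟩ := t
    · exfalso; apply hc; apply Complex.ext <;> simp <;> linarith
    · apply Complex.ext <;> simp <;> linarith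
    · apply Complex.ext <;> simp <;> linarith
    · exfalso; apply hc; apply Complex.ext <;> simp <;> linarith
  · have := tri h (by convert d1 using 1 <;> ring) (by simpa using a2)
    exfalso
    rcases hε with rfl | rfl <;> rcases this with t | t <;>
      simp [Complex.ext_iff] at t <;> obtain ⟨t1, t2⟩ := t
    · have hx : x = 1 / 2 := by linarith
      have hy : y = 1 / 2 := by linarith
      subst hx hy; norm_num [A, dot, crs] at b2
    · have hx : x = -1 / 2 := by linarith
      have hy : y = 1 / 2 := by linarith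
      subst hx hy; norm_num [A, dot, crs, abs_of_pos, abs_of_neg] at b1
    · have hx : x = -1 / 2 := by linarith
      have hy : y = -1 / 2 := by linarith
      subst hx hy; norm_num [A, dot, crs, abs_of_pos, abs_of_neg] at b1
    · have hx : x = 1 / 2 := by linarith
      have hy : y = -1 / 2 := by linarith
      subst hx hy; norm_num [A, dot, crs] at b2

section Graph

variable {α : Type} {adj : α → α → Prop} {p : α → ℂ}

/-- all angles at common vertices are at least 45 degrees -/
structure Good (adj : α → α → Prop) (p : α → ℂ) : Prop where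
  symm : ∀ u v, adj u v → adj v u
  ne : ∀ u v, adj u v → p u ≠ p v
  ang : ∀ v a b, adj v a → adj v b → a ≠ b → A (p a - p v) (p b - p v)

theorem Good.vne (h : Good adj p) {u v : α} (huv : adj u v) : u ≠ v := by
  rintro rfl; exact h.ne _ _ huv rfl

/-- four mutually adjacent vertices -/
structure K4 (adj : α → α → Prop) (a b c d : α) : Prop where
  ab : adj a b
  ac : adj a c
  ad : adj a d
  bc : adj b c
  bd : adj b d
  cd : adj c d

theorem K4.swap12 (h : Good adj p) {a b c d : α} (k : K4 adj a b c d) : K4 adj b a c d :=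
  ⟨h.symm _ _ k.ab, k.bc, k.bd, k.ac, k.ad, k.cd⟩
theorem K4.swap23 (h : Good adj p) {a b c d : α} (k : K4 adj a b c d) : K4 adj a c b d :=
  ⟨k.ac, k.ab, k.ad, h.symm _ _ k.bc, k.cd, k.bd⟩
theorem K4.swap34 (h : Good adj p) {a b c d : α} (k : K4 adj a b c d) : K4 adj a b d c :=
  ⟨k.ab, k.ad, k.ac, k.bd, k.bc, h.symm _ _ k.cd⟩

theorem k4_right (h : Good adj p) {a b c d : α} (k : K4 adj a b c d)
    (h0 : dot (p b - p a) (p d - p a) ≤ 0) :
    ∃ ε, Sg ε ∧ p d - p a = ε * I * (p b - p a) ∧ p c = p b + p d - p a := by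
  have s := h.symm
  have t := tri h0 (by simpa using h.ang b a d (s _ _ k.ab) k.bd (h.vne k.ad))
    (by simpa using h.ang d a b (s _ _ k.ad) (s _ _ k.bd) (h.vne k.ab))
  obtain ⟨ε, hε, he⟩ : ∃ ε, Sg ε ∧ p d - p a = ε * I * (p b - p a) := by
    rcases t with t | t
    · exact ⟨1, Or.inl rfl, by rw [t]; ring⟩
    · exact ⟨-1, Or.inr rfl, by rw [t]; ring⟩
  refine ⟨ε, hε, he, ?_⟩
  set u := p b - p a with hu
  have hu0 : u ≠ 0 := sub_ne_zero.2 (h.ne _ _ k.ab).symm
  set c' := (p c - p a) / u with hc'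
  have hc : p c = p a + u * c' := by rw [hc']; field_simp; ring
  have hb : p b = p a + u := by rw [hu]; ring
  have hd : p d = p a + u * (ε * I) := by linear_combination he
  have tr : ∀ {x y z w : ℂ}, A x y → x = u * z → y = u * w → A z w := by
    intro x y z w hA hx hy
    rw [hx, hy, A_mul hu0] at hA; exact hA
  have := k4_norm (c := c') hε
    (by intro h1; apply h.ne _ _ k.ac; rw [hc, h1]; ring)
    (by intro h1; apply h.ne _ _ k.bc; rw [hc, hb, ← h1]; ring)
    (by intro h1; apply h.ne _ _ k.cd; rw [hc, hd, h1])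
    (tr (h.ang b c a k.bc (s _ _ k.ab) (h.vne k.ac).symm) (by rw [hc, hb]; ring) (by rw [hb]; ring))
    (tr (h.ang b c d k.bc k.bd (h.vne k.cd)) (by rw [hc, hb]; ring) (by rw [hd, hb]; ring))
    (tr (h.ang d c a (s _ _ k.cd) (s _ _ k.ad) (h.vne k.ac).symm) (by rw [hc, hd]; ring)
      (by rw [hd]; ring))
    (tr (h.ang d c b (s _ _ k.cd) (s _ _ k.bd) (h.vne k.bc).symm) (by rw [hc, hd]; ring)
      (by rw [hd, hb]; ring))
    (tr (h.ang c a b (s _ _ k.ac) (s _ _ k.bc) (h.vne k.ab)) (by rw [hc]; ring)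
      (by rw [hc, hb]; ring))
    (tr (h.ang c b d (s _ _ k.bc) k.cd (h.vne k.bd)) (by rw [hc, hb]; ring) (by rw [hc, hd]; ring))
    (tr (h.ang c d a k.cd (s _ _ k.ac) (h.vne k.ad).symm) (by rw [hc, hd]; ring) (by rw [hc]; ring))
    (tr (h.ang a c b k.ac k.ab (h.vne k.bc).symm) (by rw [hc]; ring) (by rw [hb]; ring))
    (tr (h.ang a c d k.ac k.ad (h.vne k.cd)) (by rw [hc]; ring) (by rw [hd]; ring))
  rw [hc, this, hb, hd]; ring

/-- `x` and `y` are at the positions `z` and `w` in some order -/
def Two (p : α → ℂ) (x y : α) (z w : ℂ) : Prop := (p x = z ∧ p y = w) ∨ (p x = w ∧ p y = z)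

/-- a complete graph on four vertices is drawn as a square -/
theorem k4_cases (h : Good adj p) {u v x y : α} (k : K4 adj u v x y) :
    (∃ ε, Sg ε ∧ Two p x y (p u + ε * I * (p v - p u)) (p v + ε * I * (p v - p u))) ∨
      Two p x y (p u + (1 + I) / 2 * (p v - p u)) (p u + (1 - I) / 2 * (p v - p u)) := by
  have hI : I * I = -1 := I_mul_I
  have h3 := three_vec (sub_ne_zero.2 (h.ne _ _ k.ab).symm) (sub_ne_zero.2 (h.ne _ _ k.ac).symm)
    (sub_ne_zero.2 (h.ne _ _ k.ad).symm) (h.ang _ _ _ k.ab k.ac (h.vne k.bc))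
    (h.ang _ _ _ k.ac k.ad (h.vne k.cd)) (h.ang _ _ _ k.ad k.ab (h.vne k.bd).symm)
  rcases h3 with t | t | t
  · obtain ⟨ε, hε, h1, h2⟩ := k4_right h (k.swap34 h) t
    exact Or.inl ⟨ε, hε, Or.inl ⟨by linear_combination h1, by linear_combination h1 + h2⟩⟩
  · obtain ⟨ε, hε, h1, h2⟩ := k4_right h (k.swap23 h) t
    right
    rcases hε with rfl | rfl
    · right
      constructor
      · linear_combination (-(1 - I) / 2) * h1 + (-(1 - I) / 2) * h2 + ((p x - p u) / 2) * hI
      · linear_combination (1 - (1 + I) / 2) * h1 + (-(1 + I) / 2) * h2 - ((p x - p u) / 2) * hI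
    · left
      constructor
      · linear_combination (-(1 + I) / 2) * h1 + (-(1 + I) / 2) * h2 + ((p x - p u) / 2) * hI
      · linear_combination (1 - (1 - I) / 2) * h1 + (-(1 - I) / 2) * h2 - ((p x - p u) / 2) * hI
  · have t' : dot (p v - p u) (p y - p u) ≤ 0 := by
      have : dot (p v - p u) (p y - p u) = dot (p y - p u) (p v - p u) := by simp [dot]; ring
      rw [this]; exact t
    obtain ⟨ε, hε, h1, h2⟩ := k4_right h k t'
    exact Or.inl ⟨ε, hε, Or.inr ⟨by linear_combination h1 + h2, by linear_combination h1⟩⟩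

theorem Two.exists_left {x y : α} {z w : ℂ} (h : Two p x y z w) : ∃ a, (a = x ∨ a = y) ∧ p a = z := by
  rcases h with h | h
  · exact ⟨x, Or.inl rfl, h.1⟩
  · exact ⟨y, Or.inr rfl, h.2⟩

theorem Two.exists_right {x y : α} {z w : ℂ} (h : Two p x y z w) : ∃ a, (a = x ∨ a = y) ∧ p a = w := by
  rcases h with h | h
  · exact ⟨y, Or.inr rfl, h.2⟩
  · exact ⟨x, Or.inl rfl, h.1⟩

theorem Two.swap {x y : α} {z w : ℂ} (h : Two p x y z w) : Two p x y w z := Or.symm h

theorem k4_diag (h : Good adj p) {u v x y : α} (k : K4 adj u v x y) :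
    ∃ ε, Sg ε ∧ ∃ a, (a = x ∨ a = y) ∧ ∃ r : ℝ, 0 < r ∧ p a - p u = r * ((1 + ε * I) * (p v - p u)) := by
  rcases k4_cases h k with ⟨ε, hε, t⟩ | t
  · obtain ⟨a, ha, hp⟩ := t.exists_right
    exact ⟨ε, hε, a, ha, 1, one_pos, by rw [hp]; push_cast; ring⟩
  · obtain ⟨a, ha, hp⟩ := t.exists_left
    exact ⟨1, Or.inl rfl, a, ha, 1 / 2, by norm_num, by rw [hp]; push_cast; ring⟩

/-- two complete graphs on four vertices with a common edge: adjacent squares -/
theorem k4_two (h : Good adj p) {u v x y z w : α} (k : K4 adj u v x y) (k' : K4 adj u v z w)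
    (hxz : x ≠ z) (hxw : x ≠ w) (hyz : y ≠ z) (hyw : y ≠ w) :
    ∃ δ, (δ = I * (p v - p u) ∨ δ = -(I * (p v - p u))) ∧ Two p x y (p u + δ) (p v + δ) ∧
      Two p z w (p u - δ) (p v - δ) := by
  have ht : p v - p u ≠ 0 := sub_ne_zero.2 (h.ne _ _ k.ab).symm
  have clash : ∀ ε, Sg ε → ∀ a b, (a = x ∨ a = y) → (b = z ∨ b = w) → ∀ r s : ℝ, 0 < r → 0 < s →
      p a - p u = r * ((1 + ε * I) * (p v - p u)) → p b - p u = s * ((1 + ε * I) * (p v - p u)) →
      False := by
    intro ε hε a b ha hb r s hr hs e1 e2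
    have hA : A (p a - p u) (p b - p u) := by
      apply h.ang
      · rcases ha with rfl | rfl; exacts [k.ac, k.ad]
      · rcases hb with rfl | rfl; exacts [k'.ac, k'.ad]
      · rcases ha with rfl | rfl <;> rcases hb with rfl | rfl <;> assumption
    rw [e1, e2, A_smul hr hs] at hA
    refine not_A_self (mul_ne_zero ?_ ht) hA
    rcases hε with rfl | rfl <;> simp [Complex.ext_iff]
  have diag : ∀ {x y : α}, Two p x y (p u + (1 + I) / 2 * (p v - p u)) (p u + (1 - I) / 2 * (p v - p u)) →
      ∀ ε, Sg ε → ∃ a, (a = x ∨ a = y) ∧ p a - p u = (1 / 2 : ℝ) * ((1 + ε * I) * (p v - p u)) := by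
    intro x y t ε hε
    rcases hε with rfl | rfl
    · obtain ⟨a, ha, hp⟩ := t.exists_left
      exact ⟨a, ha, by rw [hp]; push_cast; ring⟩
    · obtain ⟨a, ha, hp⟩ := t.exists_right
      exact ⟨a, ha, by rw [hp]; push_cast; ring⟩
  rcases k4_cases h k with ⟨ε, hε, t⟩ | t
  · rcases k4_cases h k' with ⟨ε', hε', t'⟩ | t'
    · by_cases he : ε' = ε
      · exfalso
        subst he
        obtain ⟨a, ha, hp⟩ := t.exists_right
        obtain ⟨b, hb, hq⟩ := t'.exists_right
        exact clash ε' hε a b ha hb 1 1 one_pos one_pos (by rw [hp]; push_cast; ring)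
          (by rw [hq]; push_cast; ring)
      · have he' : ε' = -ε := by
          rcases hε with rfl | rfl <;> rcases hε' with rfl | rfl <;> simp_all
        subst he'
        refine ⟨ε * I * (p v - p u), ?_, t, ?_⟩
        · rcases hε with rfl | rfl
          · left; ring
          · right; ring
        · convert t' using 1 <;> ring
    · exfalso
      obtain ⟨a, ha, hp⟩ := t.exists_right
      obtain ⟨b, hb, hq⟩ := diag t' ε hε
      exact clash ε hε a b ha hb 1 (1 / 2) one_pos (by norm_num) (by rw [hp]; push_cast; ring) hq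
  · exfalso
    obtain ⟨ε, hε, b, hb, r, hr, hq⟩ := k4_diag h k'
    obtain ⟨a, ha, hp⟩ := diag t ε hε
    exact clash ε hε a b ha hb (1 / 2) r (by norm_num) hr hp hq

end Graph

/-- `z` is a positive multiple of `d` -/
def Ray (z d : ℂ) : Prop := ∃ r : ℝ, 0 < r ∧ z = r * d

theorem port_norm {z : ℂ} (hz : z ≠ 0) (h1 : A z (1 + I)) (h2 : A z (1 - I)) (h3 : A z (-1 + I))
    (h4 : A z (-1 - I)) (h5 : A z I) (h6 : A z (-I)) (h7 : A z (-1)) : Ray z 1 := by
  obtain ⟨x, y⟩ := z
  simp only [A, dot, crs] at *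
  norm_num at h1 h2 h3 h4 h5 h6 h7
  have hxy : ¬ (x = 0 ∧ y = 0) := by
    intro h; apply hz; simp [Complex.ext_iff, h.1, h.2]
  have hy : y = 0 := by
    by_contra hy
    rcases lt_or_gt_of_ne hy with hy | hy <;> rcases lt_trichotomy x 0 with hx | hx | hx <;>
      simp only [le_abs] at * <;> grind
  subst hy
  have hx : 0 < x := by
    simp only [le_abs] at *
    grind
  exact ⟨x, hx, by simp [Complex.ext_iff]⟩

/-- seven of the eight directions are taken -/
theorem port {z d f : ℂ} (hz : z ≠ 0) (hd : d ≠ 0) (hf : f = I * d ∨ f = -(I * d))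
    (h1 : A z (d + f)) (h2 : A z (d - f)) (h3 : A z (-d + f)) (h4 : A z (-d - f))
    (h5 : A z (2 * f)) (h6 : A z (-(2 * f))) (h7 : A z (-(2 * d))) : Ray z d := by
  have e : z = d * (z / d) := by field_simp
  have hz' : z / d ≠ 0 := div_ne_zero hz hd
  have tr : ∀ {y w : ℂ} (r : ℝ), 0 < r → A z y → y = d * (r * w) → A (z / d) w := by
    intro y w r hr hA hy
    rw [e, hy, A_mul hd] at hA
    have := (A_smul one_pos hr (z / d) w).1 (by simpa using hA)
    exact this
  have : Ray (z / d) 1 := by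
    rcases hf with rfl | rfl
    · exact port_norm hz' (tr 1 one_pos h1 (by push_cast; ring)) (tr 1 one_pos h2 (by push_cast; ring))
        (tr 1 one_pos h3 (by push_cast; ring)) (tr 1 one_pos h4 (by push_cast; ring))
        (tr 2 two_pos h5 (by push_cast; ring)) (tr 2 two_pos h6 (by push_cast; ring))
        (tr 2 two_pos h7 (by push_cast; ring))
    · exact port_norm hz' (tr 1 one_pos h2 (by push_cast; ring)) (tr 1 one_pos h1 (by push_cast; ring))
        (tr 1 one_pos h4 (by push_cast; ring)) (tr 1 one_pos h3 (by push_cast; ring))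
        (tr 2 two_pos h6 (by push_cast; ring)) (tr 2 two_pos h5 (by push_cast; ring))
        (tr 2 two_pos h7 (by push_cast; ring))
  obtain ⟨r, hr, h⟩ := this
  exact ⟨r, hr, by rw [e, h]; ring⟩

end Pool.Agent.Lib.MP_a4368a_lc
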