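import Pool.Agent.Lib.MP_a4368a_lc.Ruler

/-! The graph built from a list of arithmetic constraints. -/

namespace Pool.Agent.Lib.MP_a4368a_lc

/-- lengths and flap flags of the rulers of the five tiles -/
def shape (τ : ℕ) : List (ℕ × Bool) :=
  if τ = 0 then [(8, true), (8, true)]
  else if τ = 1 then [(9, true), (15, false), (17, false)]
  else if τ = 2 then [(8, true), (20, false), (15, false), (6, true)]
  else if τ = 3 then [(9, true), (26, false), (12, false), (6, true), (26, false), (12, true),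
    (10, false), (0, false)]
  else [(8, true), (22, true), (5, false), (16, false), (6, false)]

/-- links inside a tile; vertex `l` of ruler `r` has number `128 * r + l` -/
def links (τ : ℕ) : List (ℕ × ℕ) :=
  if τ = 0 then [(3, 131), (5, 133)]
  else if τ = 1 then [(130, 1), (8, 258), (136, 266), (138, 268)]
  else if τ = 2 then [(3, 130), (6, 258), (7, 387), (136, 385), (389, 264)]
  else if τ = 3 then [(266, 1), (8, 151), (258, 141), (260, 143), (130, 385), (136, 802), (146, 896),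
    (152, 641), (387, 802), (389, 808), (386, 514), (388, 516), (520, 808), (524, 650), (644, 896),
    (770, 896)]
  else [(386, 129), (398, 1), (3, 130), (132, 258), (259, 5)]

def portN (τ : ℕ) : List ℕ :=
  if τ = 0 then [130, 134] else if τ = 1 then []
  else if τ = 2 then [2, 4, 265, 269, 144, 146]
  else if τ = 3 then [2, 6, 643, 647, 532, 536] else [2, 6, 144, 148, 514, 516]
def pN (τ k : ℕ) : ℕ := (portN τ).getD k 0
def pS (k : ℕ) : ℕ := if k = 0 then 2 else 6
def pW (τ k : ℕ) : ℕ := if τ = 0 then (if k = 0 then 1 else 129) else (if k = 0 then 131 else 141)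
def pE (τ k : ℕ) : ℕ := if τ = 0 then (if k = 0 then 7 else 135) else (if k = 0 then 261 else 271)

def tileEdges (τ : ℕ) : List (ℕ × ℕ) :=
  (shape τ).zipIdx.flatMap (fun c => (rEdges c.1.1 c.1.2).map
    (fun e => (128 * c.2 + e.1, 128 * c.2 + e.2))) ++ links τ

def tileVerts (τ : ℕ) : List ℕ :=
  (shape τ).zipIdx.flatMap (fun c => (rVerts c.1.1 c.1.2).map (fun l => 128 * c.2 + l))

abbrev Con : Type := ℕ × ℕ × ℕ × ℕ
abbrev GV : Type := (ℕ × ℕ) × ℕ

def gty (k : ℕ) : ℕ := if k = 0 then 2 else if k = 1 then 3 else 4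

def occ (cs : List Con) (j : ℕ) : ℕ :=
  if j % 3 = 0 then (cs.getD (j / 3) (0, 0, 0, 0)).2.1
  else if j % 3 = 1 then (cs.getD (j / 3) (0, 0, 0, 0)).2.2.1 else (cs.getD (j / 3) (0, 0, 0, 0)).2.2.2

def ty (cs : List Con) (c : ℕ × ℕ) : ℕ :=
  if c.1 = 0 then gty (cs.getD c.2 (0, 0, 0, 0)).1 else if c.1 = occ cs c.2 + 1 then 1 else 0

def cells (cs : List Con) : List (ℕ × ℕ) :=
  (List.range cs.length).map (fun k => (0, k)) ++
    (List.range (3 * cs.length)).flatMap (fun i => (List.range (3 * cs.length)).map (fun j => (i + 1, j)))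

def below (i j : ℕ) : ℕ × ℕ := if i = 0 then (0, j / 3) else (i, j)
def sub (i j : ℕ) : ℕ := if i = 0 then 2 * (j % 3) else 0

def vlink (cs : List Con) (i j k : ℕ) : GV × GV :=
  (((i + 1, j), pS k), (below i j, pN (ty cs (below i j)) (sub i j + k)))

def hlink (cs : List Con) (i j k : ℕ) : GV × GV :=
  (((i + 1, j), pE (ty cs (i + 1, j)) k), ((i + 1, j + 1), pW (ty cs (i + 1, j + 1)) k))

def verts (cs : List Con) : List GV :=
  (cells cs).flatMap (fun c => (tileVerts (ty cs c)).map (fun l => (c, l)))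

def edges (cs : List Con) : List (GV × GV) :=
  (cells cs).flatMap (fun c => (tileEdges (ty cs c)).map (fun e => ((c, e.1), (c, e.2)))) ++
  (List.range (3 * cs.length)).flatMap (fun i => (List.range (3 * cs.length)).flatMap (fun j =>
    if ty cs (below i j) = 1 then [] else [vlink cs i j 0, vlink cs i j 1])) ++
  (List.range (3 * cs.length)).flatMap (fun i => (List.range (3 * cs.length - 1)).flatMap (fun j =>
    [hlink cs i j 0, hlink cs i j 1]))

theorem mem_cells {cs : List Con} {c : ℕ × ℕ} : c ∈ cells cs ↔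
    (c.1 = 0 ∧ c.2 < cs.length) ∨ (0 < c.1 ∧ c.1 ≤ 3 * cs.length ∧ c.2 < 3 * cs.length) := by
  obtain ⟨a, b⟩ := c
  simp only [cells, List.mem_append, List.mem_map, List.mem_range, List.mem_flatMap, Prod.mk.injEq]
  constructor
  · rintro (⟨k, hk, rfl, rfl⟩ | ⟨i, hi, j, hj, rfl, rfl⟩)
    · exact Or.inl ⟨rfl, hk⟩
    · exact Or.inr ⟨by omega, by omega, hj⟩
  · rintro (⟨rfl, h⟩ | ⟨h1, h2, h3⟩)
    · exact Or.inl ⟨b, h, rfl, rfl⟩
    · exact Or.inr ⟨a - 1, by omega, b, h3, by omega, rfl⟩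

theorem mem_verts {cs : List Con} {v : GV} :
    v ∈ verts cs ↔ v.1 ∈ cells cs ∧ v.2 ∈ tileVerts (ty cs v.1) := by
  obtain ⟨c, l⟩ := v
  simp only [verts, List.mem_flatMap, List.mem_map, Prod.mk.injEq]
  constructor
  · rintro ⟨c', h1, l', h2, rfl, rfl⟩; exact ⟨h1, h2⟩
  · rintro ⟨h1, h2⟩; exact ⟨c, h1, l, h2, rfl, rfl⟩

theorem mem_edges {cs : List Con} {e : GV × GV} : e ∈ edges cs ↔
    (∃ c ∈ cells cs, ∃ f ∈ tileEdges (ty cs c), e = ((c, f.1), (c, f.2))) ∨
    (∃ i j k, i < 3 * cs.length ∧ j < 3 * cs.length ∧ k < 2 ∧ ty cs (below i j) ≠ 1 ∧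
      e = vlink cs i j k) ∨
    (∃ i j k, i < 3 * cs.length ∧ j + 1 < 3 * cs.length ∧ k < 2 ∧ e = hlink cs i j k) := by
  simp only [edges, List.mem_append, List.mem_flatMap, List.mem_map, List.mem_range, or_assoc]
  refine or_congr ?_ (or_congr ?_ ?_)
  · simp only [eq_comm]
  · constructor
    · rintro ⟨i, hi, j, hj, h⟩
      split_ifs at h with ht
      · simp at h
      · simp only [List.mem_cons, List.not_mem_nil, or_false] at h
        rcases h with h | h
        · exact ⟨i, j, 0, hi, hj, by omega, ht, h⟩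
        · exact ⟨i, j, 1, hi, hj, by omega, ht, h⟩
    · rintro ⟨i, j, k, hi, hj, hk, ht, rfl⟩
      refine ⟨i, hi, j, hj, ?_⟩
      rw [if_neg ht]
      interval_cases k <;> simp
  · constructor
    · rintro ⟨i, hi, j, hj, h⟩
      simp only [List.mem_cons, List.not_mem_nil, or_false] at h
      rcases h with h | h
      · exact ⟨i, j, 0, hi, by omega, by omega, h⟩
      · exact ⟨i, j, 1, hi, by omega, by omega, h⟩
    · rintro ⟨i, j, k, hi, hj, hk, rfl⟩
      refine ⟨i, hi, j, by omega, ?_⟩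
      interval_cases k <;> simp

theorem ty_le (cs : List Con) (c : ℕ × ℕ) : ty cs c ≤ 4 := by
  unfold ty gty; split_ifs <;> omega

theorem ty_grid (cs : List Con) (i j : ℕ) : ty cs (i + 1, j) = if i = occ cs j then 1 else 0 := by
  simp [ty]

theorem ty_zero (cs : List Con) (k : ℕ) : ty cs (0, k) = gty (cs.getD k (0, 0, 0, 0)).1 := by
  simp [ty]

theorem ty_ge (cs : List Con) (c : ℕ × ℕ) : 2 ≤ ty cs c ↔ c.1 = 0 := by
  unfold ty gty; split_ifs <;> simp_all

/-- the relation imposed by a gadget -/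
def Rel (k : ℕ) (a b c : ℝ) : Prop :=
  if k = 0 then a + b = 2 * c else if k = 1 then a ^ 2 = 3 * c ^ 2 - 2 * c * b else a ≠ b

end Pool.Agent.Lib.MP_a4368a_lc
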