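import Pool.Agent.Lib.MP_a4368a_lc.Tseitin

/-! The stack machine reading a word in reverse Polish order. -/

namespace Pool.Agent.Lib.MP_a4368a_lc

abbrev Item : Type := Bool × List ℕ

def ar (k : ℕ) : ℕ := if k ≤ 1 ∨ 11 ≤ k then 0 else if k = 4 ∨ k = 8 then 1 else 2
def opB (st : List Item) : List ℕ := (st.getD 0 (false, [])).2
def opA (st : List Item) : List ℕ := (st.getD 1 (false, [])).2
def okb (k : ℕ) (st : List Item) : Bool :=
  decide (ar k ≤ st.length) && (st.take (ar k)).all (fun it => it.1 == decide (8 ≤ k))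
def newc (k : ℕ) (st : List Item) : List ℕ :=
  (if ar k = 2 then opA st else []) ++ (if ar k = 0 then [] else opB st) ++ [k]
def mstep (st : List Item) (k : ℕ) : List Item :=
  if okb k st = true then (decide (5 ≤ k ∧ k ≤ 10), newc k st) :: st.drop (ar k) else st
def stk (w : List ℕ) : List Item := w.foldl mstep []
def nodeCons (k : ℕ) (st : List Item) : List RCon :=
  if okb k st = true then gen k (opA st) (opB st) (newc k st) else []
def unsat : List RCon := [(true, vZ, vZ, vO)]
def tse (w : List ℕ) : List RCon :=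
  if stk w = [(true, w)] then (true, (w, 0), vZ, vO) ::
    (List.range w.length).flatMap (fun i => nodeCons (w.getD i 0) (stk (w.take i)))
  else unsat

theorem run_tm (t : Tm) (st : List Item) : t.code.foldl mstep st = (false, t.code) :: st := by
  induction t generalizing st with
  | var i => simp [Tm.code, mstep, okb, ar, newc]
  | zero => simp [Tm.code, mstep, okb, ar, newc]
  | one => simp [Tm.code, mstep, okb, ar, newc]
  | add s t ihs iht => simp [Tm.code, ihs, iht, mstep, okb, ar, newc, opA, opB]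
  | mul s t ihs iht => simp [Tm.code, ihs, iht, mstep, okb, ar, newc, opA, opB]
  | neg s ihs => simp [Tm.code, ihs, mstep, okb, ar, newc, opB]

theorem run_fm (φ : Fm) (st : List Item) : φ.code.foldl mstep st = (true, φ.code) :: st := by
  induction φ generalizing st with
  | eq s t => simp [Fm.code, run_tm, mstep, okb, ar, newc, opA, opB]
  | lt s t => simp [Fm.code, run_tm, mstep, okb, ar, newc, opA, opB]
  | le s t => simp [Fm.code, run_tm, mstep, okb, ar, newc, opA, opB]
  | not s ihs => simp [Fm.code, ihs, mstep, okb, ar, newc, opB]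
  | and s t ihs iht => simp [Fm.code, ihs, iht, mstep, okb, ar, newc, opA, opB]
  | or s t ihs iht => simp [Fm.code, ihs, iht, mstep, okb, ar, newc, opA, opB]

/-- an entry of the stack is the word of a term or formula with value `v` -/
def IsItem (x : ℕ → ℝ) (it : Item) (v : ℝ) : Prop :=
  (it.1 = false ∧ ∃ t : Tm, it.2 = t.code ∧ v = t.eval x) ∨
    (it.1 = true ∧ ∃ φ : Fm, it.2 = φ.code ∧ v = ind (φ.Holds x))

theorem IsItem.tm {x : ℕ → ℝ} {c : List ℕ} {v : ℝ} (h : IsItem x (false, c) v) :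
    ∃ t : Tm, c = t.code ∧ v = t.eval x := by
  rcases h with h | h
  · exact h.2
  · simp at h

theorem IsItem.fm {x : ℕ → ℝ} {c : List ℕ} {v : ℝ} (h : IsItem x (true, c) v) :
    ∃ φ : Fm, c = φ.code ∧ v = ind (φ.Holds x) := by
  rcases h with h | h
  · simp at h
  · exact h.2

theorem ind_not (p : Prop) : 1 - ind p = ind (¬ p) := by
  unfold ind; by_cases h : p <;> simp [h]
theorem ind_and (p q : Prop) : ind p * ind q = ind (p ∧ q) := by
  unfold ind; by_cases h : p <;> by_cases h' : q <;> simp [h, h']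
theorem ind_or (p q : Prop) : ind p + ind q - ind p * ind q = ind (p ∨ q) := by
  unfold ind; by_cases h : p <;> by_cases h' : q <;> simp [h, h']

theorem ok_one {k : ℕ} {st : List Item} (h : okb k st = true) (ha : ar k = 1) :
    ∃ B r, st = (decide (8 ≤ k), B) :: r := by
  rcases st with _ | ⟨⟨b, B⟩, r⟩
  · simp [okb, ha] at h
  · simp [okb, ha] at h; exact ⟨B, r, by rw [h]⟩

theorem ok_two {k : ℕ} {st : List Item} (h : okb k st = true) (ha : ar k = 2) :
    ∃ A B r, st = (decide (8 ≤ k), B) :: (decide (8 ≤ k), A) :: r := by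
  rcases st with _ | ⟨⟨b, B⟩, _ | ⟨⟨a, A⟩, r⟩⟩
  · simp [okb, ha] at h
  · simp [okb, ha] at h
  · simp [okb, ha] at h; exact ⟨A, B, r, by rw [h.1, h.2]⟩

theorem item_new {x : ℕ → ℝ} {g : List ℕ → ℝ} {k : ℕ} {st : List Item} (h : okb k st = true)
    (hst : ∀ it ∈ st, IsItem x it (g it.2)) :
    IsItem x (decide (5 ≤ k ∧ k ≤ 10), newc k st) (aux x k (g (opA st)) (g (opB st)) 0) := by
  rcases le_or_gt k 10 with hk | hk
  swap
  · refine Or.inl ⟨by simp; omega, .var (k - 11), ?_, ?_⟩
    · simp [newc, ar, show 11 ≤ k from hk, Tm.code]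
    · unfold aux
      rw [if_neg (by omega), if_neg (by omega), if_neg (by omega), if_neg (by omega), if_neg (by omega),
        if_neg (by omega), if_neg (by omega), if_neg (by omega), if_neg (by omega), if_neg (by omega),
        if_neg (by omega)]
      rfl
  have two : ar k = 2 → ∃ A B, opA st = A ∧ opB st = B ∧ newc k st = A ++ B ++ [k] ∧
      IsItem x (decide (8 ≤ k), A) (g A) ∧ IsItem x (decide (8 ≤ k), B) (g B) := fun ha => by
    obtain ⟨A, B, r, rfl⟩ := ok_two h ha
    exact ⟨A, B, rfl, rfl, by simp [newc, ha, opA, opB], hst _ (by simp), hst _ (by simp)⟩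
  have one : ar k = 1 → ∃ B, opB st = B ∧ newc k st = B ++ [k] ∧
      IsItem x (decide (8 ≤ k), B) (g B) := fun ha => by
    obtain ⟨B, r, rfl⟩ := ok_one h ha
    exact ⟨B, rfl, by simp [newc, ha, opB], hst _ (by simp)⟩
  interval_cases k
  · exact Or.inl ⟨rfl, .zero, rfl, by simp [aux, Tm.eval]⟩
  · exact Or.inl ⟨rfl, .one, rfl, by simp [aux, Tm.eval]⟩
  · obtain ⟨A, B, e1, e2, e3, i1, i2⟩ := two rfl
    obtain ⟨s, rfl, v1⟩ := i1.tm
    obtain ⟨t, rfl, v2⟩ := i2.tm
    exact Or.inl ⟨rfl, .add s t, e3, by simp [aux, Tm.eval, e1, e2, v1, v2]⟩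
  · obtain ⟨A, B, e1, e2, e3, i1, i2⟩ := two rfl
    obtain ⟨s, rfl, v1⟩ := i1.tm
    obtain ⟨t, rfl, v2⟩ := i2.tm
    exact Or.inl ⟨rfl, .mul s t, e3, by simp [aux, Tm.eval, e1, e2, v1, v2]⟩
  · obtain ⟨B, e2, e3, i2⟩ := one rfl
    obtain ⟨t, rfl, v2⟩ := i2.tm
    exact Or.inl ⟨rfl, .neg t, e3, by simp [aux, Tm.eval, e2, v2]⟩
  · obtain ⟨A, B, e1, e2, e3, i1, i2⟩ := two rfl
    obtain ⟨s, rfl, v1⟩ := i1.tm
    obtain ⟨t, rfl, v2⟩ := i2.tm
    exact Or.inr ⟨rfl, .eq s t, e3, by simp [aux, Fm.Holds, e1, e2, v1, v2]⟩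
  · obtain ⟨A, B, e1, e2, e3, i1, i2⟩ := two rfl
    obtain ⟨s, rfl, v1⟩ := i1.tm
    obtain ⟨t, rfl, v2⟩ := i2.tm
    exact Or.inr ⟨rfl, .lt s t, e3, by simp [aux, ltv, Fm.Holds, e1, e2, v1, v2]⟩
  · obtain ⟨A, B, e1, e2, e3, i1, i2⟩ := two rfl
    obtain ⟨s, rfl, v1⟩ := i1.tm
    obtain ⟨t, rfl, v2⟩ := i2.tm
    exact Or.inr ⟨rfl, .le s t, e3, by simp [aux, Fm.Holds, e1, e2, v1, v2]⟩
  · obtain ⟨B, e2, e3, i2⟩ := one rfl
    obtain ⟨t, rfl, v2⟩ := i2.fm
    exact Or.inr ⟨rfl, .not t, e3, by simp [aux, Fm.Holds, e2, v2, ind_not]⟩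
  · obtain ⟨A, B, e1, e2, e3, i1, i2⟩ := two rfl
    obtain ⟨s, rfl, v1⟩ := i1.fm
    obtain ⟨t, rfl, v2⟩ := i2.fm
    exact Or.inr ⟨rfl, .and s t, e3, by simp [aux, Fm.Holds, e1, e2, v1, v2, ind_and]⟩
  · obtain ⟨A, B, e1, e2, e3, i1, i2⟩ := two rfl
    obtain ⟨s, rfl, v1⟩ := i1.fm
    obtain ⟨t, rfl, v2⟩ := i2.fm
    exact Or.inr ⟨rfl, .or s t, e3, by simp [aux, Fm.Holds, e1, e2, v1, v2, ind_or]⟩

/-- the assignment of the variables of the formula read off from a solution -/
def xOf (f : RV → ℝ) (i : ℕ) : ℝ := f ([i + 11], 0)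

theorem step_inv {f : RV → ℝ} (h0 : f vZ = 0) (h1 : f vO = 1) {k : ℕ} {st : List Item}
    (hst : ∀ it ∈ st, IsItem (xOf f) it (f (it.2, 0))) (h : RSat f (nodeCons k st)) :
    ∀ it ∈ mstep st k, IsItem (xOf f) it (f (it.2, 0)) := by
  unfold mstep
  split_ifs with hok
  swap
  · exact hst
  intro it hit
  rcases List.mem_cons.1 hit with rfl | hit
  swap
  · exact hst _ (List.mem_of_mem_drop hit)
  have := item_new (g := fun c => f (c, 0)) hok hst
  rw [nodeCons, if_pos hok] at h
  rcases le_or_gt k 10 with hk | hk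
  · rwa [← gen_sound h0 h1 _ hk h] at this
  · convert this using 1
    unfold aux
    rw [if_neg (by omega), if_neg (by omega), if_neg (by omega), if_neg (by omega), if_neg (by omega),
      if_neg (by omega), if_neg (by omega), if_neg (by omega), if_neg (by omega), if_neg (by omega),
      if_neg (by omega)]
    simp [xOf, newc, ar, show 11 ≤ k from hk]

theorem stk_succ (w : List ℕ) {i : ℕ} (hi : i < w.length) :
    stk (w.take (i + 1)) = mstep (stk (w.take i)) (w.getD i 0) := by
  rw [List.take_add_one, stk, List.foldl_append, List.getElem?_eq_getElem hi,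
    List.getD_eq_getElem _ _ hi]
  rfl

theorem tse_sound {f : RV → ℝ} (h0 : f vZ = 0) (h1 : f vO = 1) {w : List ℕ} (h : RSat f (tse w)) :
    ∃ φ : Fm, w = φ.code ∧ ∃ x, φ.Holds x := by
  unfold tse at h
  split_ifs at h with hw
  swap
  · have := h _ (List.mem_singleton_self _)
    simp [RHolds, h0, h1] at this
  have inv : ∀ i ≤ w.length, ∀ it ∈ stk (w.take i), IsItem (xOf f) it (f (it.2, 0)) := by
    intro i
    induction i with
    | zero => simp [stk]
    | succ i ih =>
      intro hi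
      rw [stk_succ w hi]
      refine step_inv h0 h1 (ih (by omega)) fun c hc => h c (List.mem_cons_of_mem _ ?_)
      exact List.mem_flatMap.2 ⟨i, List.mem_range.2 hi, hc⟩
  have := inv _ le_rfl (true, w) (by rw [List.take_length, hw]; simp)
  obtain ⟨φ, e, v⟩ := this.fm
  refine ⟨φ, e, xOf f, ?_⟩
  have h2 := h _ List.mem_cons_self
  simp only [RHolds, if_true, h0, h1, add_zero] at h2
  rw [h2, ind] at v
  by_contra hn
  simp [hn] at v

/-! The evaluation machine -/

noncomputable def estep (x : ℕ → ℝ) (st : List ℝ) (k : ℕ) : List ℝ :=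
  aux x k (st.getD 1 0) (st.getD 0 0) 0 :: st.drop (ar k)

theorem ev_tm (x : ℕ → ℝ) (t : Tm) (st : List ℝ) : t.code.foldl (estep x) st = t.eval x :: st := by
  induction t generalizing st with
  | var i => simp [Tm.code, estep, aux, ar, Tm.eval]
  | zero => simp [Tm.code, estep, aux, ar, Tm.eval]
  | one => simp [Tm.code, estep, aux, ar, Tm.eval]
  | add s t ihs iht => simp [Tm.code, estep, aux, ar, Tm.eval, ihs, iht]
  | mul s t ihs iht => simp [Tm.code, estep, aux, ar, Tm.eval, ihs, iht]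
  | neg s ihs => simp [Tm.code, estep, aux, ar, Tm.eval, ihs]

theorem ev_fm (x : ℕ → ℝ) (φ : Fm) (st : List ℝ) :
    φ.code.foldl (estep x) st = ind (φ.Holds x) :: st := by
  induction φ generalizing st with
  | eq s t => simp [Fm.code, estep, aux, ar, Fm.Holds, ev_tm]
  | lt s t => simp [Fm.code, estep, aux, ltv, ar, Fm.Holds, ev_tm]
  | le s t => simp [Fm.code, estep, aux, ar, Fm.Holds, ev_tm]
  | not s ihs => simp [Fm.code, estep, aux, ar, Fm.Holds, ihs, ind_not]
  | and s t ihs iht => simp [Fm.code, estep, aux, ar, Fm.Holds, ihs, iht, ind_and]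
  | or s t ihs iht => simp [Fm.code, estep, aux, ar, Fm.Holds, ihs, iht, ind_or]

theorem IsItem.ev {x : ℕ → ℝ} {it : Item} {v : ℝ} (h : IsItem x it v) (st : List ℝ) :
    it.2.foldl (estep x) st = v :: st := by
  rcases h with ⟨-, t, e, rfl⟩ | ⟨-, t, e, rfl⟩
  · rw [e, ev_tm]
  · rw [e, ev_fm]

/-- the canonical solution -/
noncomputable def gsol (x : ℕ → ℝ) (v : RV) : ℝ :=
  if v.1 = [] then v.2 else aux x (v.1.getLastD 0) ((v.1.dropLast.foldl (estep x) []).getD 1 0)
    ((v.1.dropLast.foldl (estep x) []).getD 0 0) v.2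

theorem gsol_snoc (x : ℕ → ℝ) (c : List ℕ) (k j : ℕ) : gsol x (c ++ [k], j) =
    aux x k ((c.foldl (estep x) []).getD 1 0) ((c.foldl (estep x) []).getD 0 0) j := by
  simp [gsol]

theorem xOf_gsol (x : ℕ → ℝ) : xOf (gsol x) = x := by
  funext i
  simp [xOf, gsol, aux]

theorem gsol_node (x : ℕ → ℝ) {k : ℕ} {st : List Item}
    (hst : ∀ it ∈ st, IsItem x it (gsol x (it.2, 0))) : RSat (gsol x) (nodeCons k st) := by
  unfold nodeCons
  split_ifs with hok
  swap
  · intro c hc; simp at hc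
  refine gen_complete (by simp [gsol, vZ]) (by simp [gsol, vO]) x (fun j => gsol_snoc x _ k j) ?_ ?_
  · intro h1 h2 h3 h4
    have ha : ar k = 2 := by unfold ar; rw [if_neg (by omega), if_neg (by omega)]
    obtain ⟨A, B, r, rfl⟩ := ok_two hok ha
    have a := (hst (decide (8 ≤ k), A) (by simp)).ev
    have b := (hst (decide (8 ≤ k), B) (by simp)).ev
    simp only at a b
    simp [ha, opA, opB, a, b]
  · intro h1 h4
    have ha : ar k = 1 ∨ ar k = 2 := by unfold ar; split_ifs <;> omega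
    rcases ha with ha | ha
    · obtain ⟨B, r, rfl⟩ := ok_one hok ha
      have b := (hst (decide (8 ≤ k), B) (by simp)).ev
      simp only at b
      simp [ha, opB, b]
    · obtain ⟨A, B, r, rfl⟩ := ok_two hok ha
      have a := (hst (decide (8 ≤ k), A) (by simp)).ev
      have b := (hst (decide (8 ≤ k), B) (by simp)).ev
      simp only at a b
      simp [ha, opA, opB, a, b]

theorem tse_complete (φ : Fm) (x : ℕ → ℝ) (hx : φ.Holds x) :
    ∃ f : RV → ℝ, f vZ = 0 ∧ f vO = 1 ∧ RSat f (tse φ.code) := by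
  have h0 : gsol x vZ = 0 := by simp [gsol, vZ]
  have h1 : gsol x vO = 1 := by simp [gsol, vO]
  refine ⟨gsol x, h0, h1, ?_⟩
  have hw : stk φ.code = [(true, φ.code)] := run_fm φ []
  have inv : ∀ i ≤ φ.code.length, ∀ it ∈ stk (φ.code.take i), IsItem x it (gsol x (it.2, 0)) := by
    intro i
    induction i with
    | zero => simp [stk]
    | succ i ih =>
      intro hi
      rw [stk_succ _ hi]
      have := step_inv h0 h1 (k := φ.code.getD i 0) (st := stk (φ.code.take i))
      rw [xOf_gsol] at this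
      exact this (ih (by omega)) (gsol_node x (ih (by omega)))
  rw [tse, if_pos hw]
  intro c hc
  rcases List.mem_cons.1 hc with rfl | hc
  · have := (inv _ le_rfl (true, φ.code) (by rw [List.take_length, hw]; simp)).ev []
    rw [ev_fm] at this
    simp only [List.cons.injEq, and_true] at this
    simp [RHolds, h0, h1, ← this, ind, hx]
  · obtain ⟨i, hi, hc⟩ := List.mem_flatMap.1 hc
    exact gsol_node x (inv i (List.mem_range.1 hi).le) c hc

end Pool.Agent.Lib.MP_a4368a_lc
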