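import Pool.Agent.Lib.MP_a4368a_lc.Defs

/-!
Polynomial descriptions of angles, of incidence with a segment, of disjoint segments, and of
the cosine and sine of `π / (2 k)`.
-/

namespace Pool.Agent.Lib.MP_a4368a_lc.Mem

open Complex Real

theorem angle_ge_iff {z w : ℂ} (hz : z ≠ 0) (hw : w ≠ 0) {θ : ℝ} (h1 : θ ≤ π / 2)
    (h2 : 0 < θ) :
    θ ≤ InnerProductGeometry.angle z w ↔
      (Real.sin θ * (z.re * w.re + z.im * w.im) ≤ Real.cos θ * (z.re * w.im - z.im * w.re) ∨
       Real.sin θ * (z.re * w.re + z.im * w.im) ≤ Real.cos θ * (z.im * w.re - z.re * w.im)) := by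
  set α := InnerProductGeometry.angle z w with hα
  have hn : 0 < ‖z‖ * ‖w‖ := mul_pos (norm_pos_iff.2 hz) (norm_pos_iff.2 hw)
  have hc : Real.cos α * (‖z‖ * ‖w‖) = z.re * w.re + z.im * w.im := by
    rw [hα, InnerProductGeometry.cos_angle_mul_norm_mul_norm, Complex.inner]
    simp; ring
  have hs : Real.sin α * (‖z‖ * ‖w‖) = |z.re * w.im - z.im * w.re| := by
    rw [hα, InnerProductGeometry.sin_angle_mul_norm_mul_norm, ← Real.sqrt_sq_eq_abs]
    congr 1
    simp only [Complex.inner]
    simp; ring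
  have hcos : 0 ≤ Real.cos θ := Real.cos_nonneg_of_mem_Icc ⟨by linarith [pi_pos], h1⟩
  have key : θ ≤ α ↔ 0 ≤ Real.sin (α - θ) := by
    have hα0 := InnerProductGeometry.angle_nonneg z w
    have hα1 := InnerProductGeometry.angle_le_pi z w
    constructor
    · intro h
      exact Real.sin_nonneg_of_nonneg_of_le_pi (by linarith) (by linarith)
    · intro h
      by_contra hlt
      push Not at hlt
      have := Real.sin_neg_of_neg_of_neg_pi_lt (x := α - θ) (by linarith) (by linarith [pi_pos])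
      linarith
  rw [key, Real.sin_sub, ← mul_nonneg_iff_of_pos_right hn, sub_mul, mul_right_comm, hs,
    mul_right_comm, hc, sub_nonneg]
  rcases abs_cases (z.re * w.im - z.im * w.re) with ⟨h, h'⟩ | ⟨h, h'⟩
  · rw [h]
    constructor
    · intro g; left; linarith
    · rintro (g | g)
      · linarith
      · nlinarith [mul_nonneg hcos h']
  · rw [h]
    constructor
    · intro g; right; linarith
    · rintro (g | g)
      · nlinarith [mul_nonneg hcos (neg_nonneg.2 h'.le)]
      · linarith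

theorem mem_segment_iff (p q w : ℂ) :
    w ∈ segment ℝ p q ↔ (q.re - p.re) * (w.im - p.im) = (q.im - p.im) * (w.re - p.re) ∧
      (w.re - p.re) * (w.re - q.re) + (w.im - p.im) * (w.im - q.im) ≤ 0 := by
  rw [segment_eq_image]
  constructor
  · rintro ⟨t, ⟨h0, h1⟩, rfl⟩
    simp only [add_re, add_im, smul_re, smul_im, smul_eq_mul]
    refine ⟨by ring, ?_⟩
    have := mul_nonneg h0 (sub_nonneg.2 h1)
    nlinarith [mul_nonneg this (add_nonneg (sq_nonneg (q.re - p.re)) (sq_nonneg (q.im - p.im)))]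
  · rintro ⟨h1, h2⟩
    set a := q.re - p.re with ha
    set b := q.im - p.im with hb
    set x := w.re - p.re with hx
    set y := w.im - p.im with hy
    have e1 : w.re - q.re = x - a := by rw [hx, ha]; ring
    have e2 : w.im - q.im = y - b := by rw [hy, hb]; ring
    rw [e1, e2] at h2
    by_cases hab : a ^ 2 + b ^ 2 = 0
    · have a0 : a = 0 := by nlinarith [sq_nonneg a, sq_nonneg b]
      have b0 : b = 0 := by nlinarith [sq_nonneg a, sq_nonneg b]
      rw [a0, b0] at h2
      have x0 : x = 0 := by nlinarith [sq_nonneg x, sq_nonneg y]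
      have y0 : y = 0 := by nlinarith [sq_nonneg x, sq_nonneg y]
      refine ⟨0, ⟨le_rfl, zero_le_one⟩, ?_⟩
      apply Complex.ext <;> simp <;> linarith
    · have hpos : 0 < a ^ 2 + b ^ 2 := lt_of_le_of_ne (by positivity) (Ne.symm hab)
      set t := (a * x + b * y) / (a ^ 2 + b ^ 2) with ht
      have hx' : x = t * a := by
        rw [ht]; field_simp; linear_combination (-b) * h1
      have hy' : y = t * b := by
        rw [ht]; field_simp; linear_combination a * h1
      have h3 : t * (t - 1) * (a ^ 2 + b ^ 2) ≤ 0 := by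
        rw [hx', hy'] at h2; nlinarith
      have h4 : t * (t - 1) ≤ 0 := by
        by_contra hc
        push Not at hc
        nlinarith [mul_pos hc hpos]
      refine ⟨t, ⟨by nlinarith, by nlinarith⟩, ?_⟩
      apply Complex.ext <;> simp <;> linarith

theorem disjoint_segment_iff (p q r s : ℂ) :
    Disjoint (segment ℝ p q) (segment ℝ r s) ↔ ∃ a b c : ℝ,
      a * p.re + b * p.im < c ∧ a * q.re + b * q.im < c ∧
      c < a * r.re + b * r.im ∧ c < a * s.re + b * s.im := by
  constructor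
  · intro h
    have hc : ∀ u v : ℂ, IsCompact (segment ℝ u v) := fun u v => by
      rw [segment_eq_image]
      exact isCompact_Icc.image (by fun_prop)
    obtain ⟨f, u, v, h1, h2, h3⟩ := geometric_hahn_banach_compact_closed (convex_segment p q)
      (hc p q) (convex_segment r s) (hc r s).isClosed h
    have hf : ∀ z : ℂ, f z = f 1 * z.re + f I * z.im := fun z => by
      conv_lhs => rw [show z = z.re • (1 : ℂ) + z.im • I by simp [re_add_im]]
      rw [map_add, map_smul, map_smul, smul_eq_mul, smul_eq_mul]; ring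
    refine ⟨f 1, f I, u, ?_, ?_, ?_, ?_⟩ <;> rw [← hf]
    · exact h1 _ (left_mem_segment _ _ _)
    · exact h1 _ (right_mem_segment _ _ _)
    · exact h2.trans (h3 _ (left_mem_segment _ _ _))
    · exact h2.trans (h3 _ (right_mem_segment _ _ _))
  · rintro ⟨a, b, c, h1, h2, h3, h4⟩
    rw [Set.disjoint_left]
    rintro z ⟨t, t', ht, ht', e, rfl⟩ ⟨u, u', hu, hu', e', hz⟩
    have k1 := congrArg Complex.re hz
    have k2 := congrArg Complex.im hz
    simp only [add_re, add_im, smul_re, smul_im, smul_eq_mul] at k1 k2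
    have m1 : a * (t * p.re + t' * q.re) + b * (t * p.im + t' * q.im) < c := by
      obtain rfl : t = 1 - t' := by linarith
      rcases ht'.lt_or_eq with g | g
      · nlinarith [mul_nonneg ht (sub_pos.2 h1).le, mul_pos g (sub_pos.2 h2)]
      · subst g; simpa using h1
    have m2 : c ≤ a * (u * r.re + u' * s.re) + b * (u * r.im + u' * s.im) := by
      obtain rfl : u = 1 - u' := by linarith
      nlinarith [mul_nonneg hu (sub_pos.2 h3).le, mul_nonneg hu' (sub_pos.2 h4).le]
    rw [k1, k2] at m2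
    linarith

/-- One step of binary powering on the unit circle. -/
def Step (c0 s0 : ℝ) (b : Bool) (c' s' c s : ℝ) : Prop :=
  if b then c = (c' * c' - s' * s') * c0 - (c' * s' + c' * s') * s0 ∧
      s = (c' * c' - s' * s') * s0 + (c' * s' + c' * s') * c0
    else c = c' * c' - s' * s' ∧ s = c' * s' + c' * s'

theorem div_pow_succ (k j : ℕ) :
    k / 2 ^ j = 2 * (k / 2 ^ (j + 1)) + if k.testBit j then 1 else 0 := by
  rw [pow_succ, ← Nat.div_div_eq_div_mul, Nat.testBit_eq_decide_div_mod_eq]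
  split_ifs with h <;> simp at h <;> omega

theorem step_trig (φ : ℝ) (k j : ℕ) :
    Step (Real.cos φ) (Real.sin φ) (k.testBit j) (Real.cos ((k / 2 ^ (j + 1) : ℕ) * φ))
      (Real.sin ((k / 2 ^ (j + 1) : ℕ) * φ)) (Real.cos ((k / 2 ^ j : ℕ) * φ))
      (Real.sin ((k / 2 ^ j : ℕ) * φ)) := by
  rw [div_pow_succ k j]
  generalize k / 2 ^ (j + 1) = m
  unfold Step
  split_ifs
  · have : ((2 * m + 1 : ℕ) : ℝ) * φ = (m * φ + m * φ) + φ := by push_cast; ring
    rw [this]
    simp only [Real.cos_add, Real.sin_add]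
    constructor <;> ring
  · have : ((2 * m + 0 : ℕ) : ℝ) * φ = m * φ + m * φ := by push_cast; ring
    rw [this, Real.cos_add, Real.sin_add]
    exact ⟨by ring, by ring⟩

theorem Step.unique {c0 s0 : ℝ} {b : Bool} {c' s' c s d t : ℝ} (h : Step c0 s0 b c' s' c s)
    (h' : Step c0 s0 b c' s' d t) : c = d ∧ s = t := by
  unfold Step at h h'
  split_ifs at h h'
  · exact ⟨h.1.trans h'.1.symm, h.2.trans h'.2.symm⟩
  · exact ⟨h.1.trans h'.1.symm, h.2.trans h'.2.symm⟩

/-- The constraints that pin down the cosine and sine of `π / (2 k)`. -/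
def Chain (k : ℕ) (c0 s0 : ℝ) (c s : ℕ → ℝ) : Prop :=
  c0 * c0 + s0 * s0 = 1 ∧ 0 < c0 ∧ 0 < s0 ∧ c k.size = 1 ∧ s k.size = 0 ∧ c 0 = 0 ∧
    ∀ j < k.size, 0 < c (j + 1) ∧ Step c0 s0 (k.testBit j) (c (j + 1)) (s (j + 1)) (c j) (s j)

theorem chain_complete {k : ℕ} (hk : 2 ≤ k) :
    Chain k (Real.cos (π / (2 * k))) (Real.sin (π / (2 * k)))
      (fun j => Real.cos ((k / 2 ^ j : ℕ) * (π / (2 * k))))
      (fun j => Real.sin ((k / 2 ^ j : ℕ) * (π / (2 * k)))) := by
  have hk' : (2 : ℝ) ≤ k := by exact_mod_cast hk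
  have hφ0 : 0 < π / (2 * k) := by positivity
  have hφ1 : π / (2 * k) < π / 2 := div_lt_div_of_pos_left pi_pos (by norm_num) (by linarith)
  have hz : k / 2 ^ k.size = 0 := Nat.div_eq_of_lt (Nat.lt_size_self k)
  refine ⟨by nlinarith [Real.cos_sq_add_sin_sq (π / (2 * k))],
    Real.cos_pos_of_mem_Ioo ⟨by linarith, hφ1⟩,
    Real.sin_pos_of_pos_of_lt_pi hφ0 (by linarith), by simp [hz], by simp [hz], ?_,
    fun j _ => ⟨?_, step_trig _ k j⟩⟩
  · have : ((k / 2 ^ 0 : ℕ) : ℝ) * (π / (2 * k)) = π / 2 := by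
      simp only [pow_zero, Nat.div_one]; field_simp
    simp only [this, Real.cos_pi_div_two]
  · have h1 : k / 2 ^ (j + 1) < k :=
      Nat.div_lt_self (by omega) (Nat.one_lt_two_pow (by omega))
    have h2 : ((k / 2 ^ (j + 1) : ℕ) : ℝ) < k := by exact_mod_cast h1
    have h3 : (k : ℝ) * (π / (2 * k)) = π / 2 := by field_simp
    refine Real.cos_pos_of_mem_Ioo ⟨?_, ?_⟩
    · have : 0 ≤ ((k / 2 ^ (j + 1) : ℕ) : ℝ) * (π / (2 * k)) := by positivity
      linarith
    · rw [← h3]; exact mul_lt_mul_of_pos_right h2 hφ0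

theorem chain_sound {k : ℕ} {c0 s0 : ℝ} {c s : ℕ → ℝ} (hk : 2 ≤ k) (h : Chain k c0 s0 c s) :
    c0 = Real.cos (π / (2 * k)) ∧ s0 = Real.sin (π / (2 * k)) := by
  obtain ⟨h1, h2, h3, h4, h5, h6, h7⟩ := h
  have hc1 : c0 ≤ 1 := by nlinarith
  set φ := Real.arccos c0 with hφ
  have hc : c0 = Real.cos φ := (Real.cos_arccos (by linarith) hc1).symm
  have hs : s0 = Real.sin φ := by
    rw [hφ, Real.sin_arccos, eq_comm, Real.sqrt_eq_iff_mul_self_eq (by nlinarith) h3.le]
    nlinarith
  have hφ0 : 0 ≤ φ := Real.arccos_nonneg _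
  have hφ1 : φ < π / 2 := Real.arccos_lt_pi_div_two.2 h2
  have hz : k / 2 ^ k.size = 0 := Nat.div_eq_of_lt (Nat.lt_size_self k)
  have key : ∀ d j, j + d = k.size → c j = Real.cos ((k / 2 ^ j : ℕ) * φ) ∧
      s j = Real.sin ((k / 2 ^ j : ℕ) * φ) ∧ ((k / 2 ^ j : ℕ) : ℝ) * φ < 3 * π / 2 := by
    intro d
    induction d with
    | zero =>
      intro j hj
      obtain rfl : j = k.size := by omega
      simp only [hz, h4, h5]
      simp [pi_pos]
    | succ d ih =>
      intro j hj
      obtain ⟨e1, e2, e3⟩ := ih (j + 1) (by omega)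
      obtain ⟨g1, g2⟩ := h7 j (by omega)
      rw [e1, e2, hc, hs] at g2
      obtain ⟨g3, g4⟩ := g2.unique (step_trig φ k j)
      refine ⟨g3, g4, ?_⟩
      have e4 : ((k / 2 ^ (j + 1) : ℕ) : ℝ) * φ < π / 2 := by
        by_contra hc
        push Not at hc
        have := Real.cos_nonpos_of_pi_div_two_le_of_le hc (by linarith)
        linarith
      rw [div_pow_succ k j]
      split_ifs <;> push_cast <;> nlinarith [pi_pos]
  obtain ⟨e1, -, e3⟩ := key k.size 0 (by omega)
  simp only [pow_zero, Nat.div_one] at e1 e3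
  have hk' : (2 : ℝ) ≤ k := by exact_mod_cast hk
  have e5 : (k : ℝ) * φ = π / 2 := by
    rcases lt_trichotomy ((k : ℝ) * φ) (π / 2) with g | g | g
    · have := Real.cos_pos_of_mem_Ioo (x := k * φ) ⟨by nlinarith [pi_pos], g⟩
      linarith
    · exact g
    · have := Real.cos_neg_of_pi_div_two_lt_of_lt g (by linarith)
      linarith
  have e6 : φ = π / (2 * k) := by
    field_simp; linarith
  rw [← e6]
  exact ⟨hc, hs⟩

end Pool.Agent.Lib.MP_a4368a_lc.Mem
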