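import Pool.Agent.Lib.MP_a4368a_lc.MemGeom
import Pool.Agent.Shared.PolyTime.Extra

/-!
The angular resolution problem, with or without the planarity requirement, reduces in
polynomial time to the existential theory of the reals.
-/

namespace Pool.Agent.Lib.MP_a4368a_lc.Mem

open N68a2faeb N793a5b8e N487b59b3 Pool.Agent.Shared.PolyTime Real

/-- The true formula. -/
def tru : Fm := .eq .zero .zero

/-- The false formula. -/
def fls : Fm := .eq .zero .one

/-- Conjunction of a list of formulas. -/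
def conj (l : List Fm) : Fm := l.foldr Fm.and tru

theorem holds_tru (x : ℕ → ℝ) : tru.Holds x := rfl

theorem not_holds_fls (x : ℕ → ℝ) : ¬ fls.Holds x := by simp [fls, Fm.Holds, Tm.eval]

theorem holds_conj (x : ℕ → ℝ) (l : List Fm) : (conj l).Holds x ↔ ∀ φ ∈ l, φ.Holds x := by
  induction l with
  | nil => simp [conj, holds_tru]
  | cons a l ih =>
    rw [List.forall_mem_cons, ← ih]
    rfl

theorem holds_conj_map {β : Type} (x : ℕ → ℝ) (l : List β) (f : β → Fm) :
    (conj (l.map f)).Holds x ↔ ∀ b ∈ l, (f b).Holds x := by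
  rw [holds_conj, List.forall_mem_map]

theorem holds_ite (x : ℕ → ℝ) (p : Prop) [Decidable p] (φ : Fm) :
    (if p then φ else tru).Holds x ↔ (p → φ.Holds x) := by
  split_ifs with h <;> simp [h, holds_tru]

theorem code_conj (l : List Fm) :
    (conj l).code = l.flatMap Fm.code ++ [0, 0, 5] ++ List.replicate l.length 9 := by
  induction l with
  | nil => rfl
  | cons a l ih =>
    change a.code ++ (conj l).code ++ [9] = _
    rw [ih, List.length_cons, List.replicate_succ']
    simp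

section
variable {α β : Type} [N487b59b3 α] [N487b59b3 β]

/-- The code of the formula is computable in polynomial time. -/
def PF (f : α → Fm) : Prop := IsPolyTime (fun x => (f x).code)

theorem PF.conjMap {l : α → List β} {f : α → β → Fm} (hl : IsPolyTime l)
    (hf : PF (fun z : α × β => f z.1 z.2)) : PF (fun x => conj ((l x).map (f x))) := by
  unfold PF at hf ⊢
  simp only [code_conj, List.flatMap_map, List.length_map]
  have h1 : IsPolyTime (fun x => (l x).flatMap (fun b => (f x b).code)) :=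
    IsPolyTime.flatMap hf hl
  fun_prop

theorem PF.and {f g : α → Fm} (hf : PF f) (hg : PF g) : PF (fun x => (f x).and (g x)) := by
  unfold PF at hf hg ⊢
  simp only [Fm.code]
  fun_prop

theorem PF.ite {p : α → Prop} {inst : ∀ x, Decidable (p x)} {f g : α → Fm}
    (hp : IsPolyTime (fun x => @decide (p x) (inst x))) (hf : PF f) (hg : PF g) :
    PF (fun x => @ite _ (p x) (inst x) (f x) (g x)) := by
  unfold PF at hf hg ⊢
  simp only [apply_ite Fm.code]
  exact IsPolyTime.ite hp hf hg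

theorem PF.const (φ : Fm) : PF (fun _ : α => φ) := by
  change IsPolyTime (fun _ : α => φ.code)
  generalize φ.code = c
  fun_prop

end

/-- The variable with residue `r` and index `i`. -/
def V (r i : ℕ) : Tm := .var (9 * i + r)

/-- Difference of terms. -/
def sub (s t : Tm) : Tm := .add s (.neg t)

/-- Distinct points. -/
def neF (r u v : ℕ) : Fm := .not (.and (.eq (V r u) (V r v)) (.eq (V (r + 1) u) (V (r + 1) v)))

/-- The point `w` is off the segment from `p` to `q`. -/
def offF (r p q w : ℕ) : Fm := .not (.and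
  (.eq (.mul (sub (V r q) (V r p)) (sub (V (r + 1) w) (V (r + 1) p)))
    (.mul (sub (V (r + 1) q) (V (r + 1) p)) (sub (V r w) (V r p))))
  (.le (.add (.mul (sub (V r w) (V r p)) (sub (V r w) (V r q)))
    (.mul (sub (V (r + 1) w) (V (r + 1) p)) (sub (V (r + 1) w) (V (r + 1) q)))) .zero))

/-- The variables with residues `r` and `r + 1` describe a drawing. -/
def drawF (r : ℕ) (W : List ℕ) (E : List (ℕ × ℕ)) : Fm :=
  .and (conj (W.map fun u => conj (W.map fun v => if u ≠ v then neF r u v else tru)))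
    (conj (E.map fun e => conj (W.map fun v =>
      if v ≠ e.1 ∧ v ≠ e.2 then offF r e.1 e.2 v else tru)))

/-- The linear form attached to the pair with number `i`, at the point `v`. -/
def linT (i v : ℕ) : Tm := .add (.mul (V 6 i) (V 2 v)) (.mul (V 7 i) (V 3 v))

/-- A line separates two segments. -/
def sepF (i p q r s : ℕ) : Fm :=
  .and (.lt (linT i p) (V 8 i)) (.and (.lt (linT i q) (V 8 i))
    (.and (.lt (V 8 i) (linT i r)) (.lt (V 8 i) (linT i s))))

/-- Edges without a common end are disjoint. -/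
def planF (E : List (ℕ × ℕ)) : Fm :=
  conj (E.map fun e => conj (E.map fun f =>
    if e.1 ≠ f.1 ∧ e.1 ≠ f.2 ∧ e.2 ≠ f.1 ∧ e.2 ≠ f.2 then
      sepF (Nat.pair (Nat.pair e.1 e.2) (Nat.pair f.1 f.2)) e.1 e.2 f.1 f.2 else tru))

/-- Real part of the square. -/
def sqR (j : ℕ) : Tm := sub (.mul (V 4 j) (V 4 j)) (.mul (V 5 j) (V 5 j))

/-- Imaginary part of the square. -/
def sqI (j : ℕ) : Tm := .add (.mul (V 4 j) (V 5 j)) (.mul (V 4 j) (V 5 j))

/-- One step of binary powering. -/
def stepF (b : Bool) (j : ℕ) : Fm :=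
  if b = true then
    .and (.eq (V 4 (j + 1)) (sub (.mul (sqR (j + 2)) (V 4 0)) (.mul (sqI (j + 2)) (V 5 0))))
      (.eq (V 5 (j + 1)) (.add (.mul (sqR (j + 2)) (V 5 0)) (.mul (sqI (j + 2)) (V 4 0))))
  else .and (.eq (V 4 (j + 1)) (sqR (j + 2))) (.eq (V 5 (j + 1)) (sqI (j + 2)))

/-- The start of the chain. -/
def baseF (k : ℕ) : Fm :=
  .and (.eq (.add (.mul (V 4 0) (V 4 0)) (.mul (V 5 0) (V 5 0))) .one)
    (.and (.lt .zero (V 4 0)) (.and (.lt .zero (V 5 0))
      (.and (.eq (V 4 (k.size + 1)) .one) (.and (.eq (V 5 (k.size + 1)) .zero)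
        (.eq (V 4 1) .zero)))))

/-- The chain that defines the cosine and the sine of `π / (2 k)`. -/
def chainF (k : ℕ) : Fm :=
  .and (baseF k) (conj ((List.range k.size).map fun j =>
    .and (.lt .zero (V 4 (j + 2))) (stepF (k.testBit j) j)))

/-- Scalar product term. -/
def dotT (v a b : ℕ) : Tm :=
  .add (.mul (sub (V 0 a) (V 0 v)) (sub (V 0 b) (V 0 v)))
    (.mul (sub (V 1 a) (V 1 v)) (sub (V 1 b) (V 1 v)))

/-- The angle at `v` between `a` and `b` is large. -/
def angF (v a b : ℕ) : Fm :=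
  .or (.le (.mul (V 5 0) (dotT v a b)) (.mul (V 4 0)
      (sub (.mul (sub (V 0 a) (V 0 v)) (sub (V 1 b) (V 1 v)))
        (.mul (sub (V 1 a) (V 1 v)) (sub (V 0 b) (V 0 v))))))
    (.le (.mul (V 5 0) (dotT v a b)) (.mul (V 4 0)
      (sub (.mul (sub (V 1 a) (V 1 v)) (sub (V 0 b) (V 0 v)))
        (.mul (sub (V 0 a) (V 0 v)) (sub (V 1 b) (V 1 v))))))

/-- All angles between edges at a common vertex are large. -/
def resF (E : List (ℕ × ℕ)) : Fm :=
  conj ((E ++ E.map fun e => (e.2, e.1)).map fun d =>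
    conj ((E ++ E.map fun e => (e.2, e.1)).map fun d' =>
      if d.1 = d'.1 ∧ d.2 ≠ d'.2 then angF d.1 d.2 d'.2 else tru))

/-- The formula for an input; the flag says whether planarity is required. -/
def form (pl : Bool) (z : List ℕ × List (ℕ × ℕ) × ℕ) : Fm :=
  if (∀ e ∈ z.2.1, e.1 ∈ z.1 ∧ e.2 ∈ z.1 ∧ e.1 ≠ e.2) ∧ 2 ≤ z.2.2 then
    .and (if pl = true then .and (drawF 2 z.1 z.2.1) (planF z.2.1) else tru)
      (.and (drawF 0 z.1 z.2.1) (.and (chainF z.2.2) (resF z.2.1)))
  else fls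

theorem pf_drawF (r : ℕ) : PF (fun z : List ℕ × List (ℕ × ℕ) × ℕ => drawF r z.1 z.2.1) := by
  unfold drawF
  refine PF.and (PF.conjMap (by fun_prop) (PF.conjMap (by fun_prop) (PF.ite (by fun_prop) ?_
    (PF.const _)))) (PF.conjMap (by fun_prop) (PF.conjMap (by fun_prop) (PF.ite (by fun_prop) ?_
    (PF.const _))))
  · simp only [PF, neF, V, Fm.code, Tm.code]
    fun_prop
  · simp only [PF, offF, V, sub, Fm.code, Tm.code]
    fun_prop

theorem pf_planF : PF (fun z : List ℕ × List (ℕ × ℕ) × ℕ => planF z.2.1) := by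
  unfold planF
  refine PF.conjMap (by fun_prop) (PF.conjMap (by fun_prop) (PF.ite (by fun_prop) ?_
    (PF.const _)))
  simp only [PF, sepF, linT, V, Fm.code, Tm.code]
  fun_prop

theorem pf_chainF : PF (fun z : List ℕ × List (ℕ × ℕ) × ℕ => chainF z.2.2) := by
  unfold chainF stepF
  refine PF.and ?_ (PF.conjMap (by fun_prop) (PF.and ?_ (PF.ite (by fun_prop) ?_ ?_)))
  all_goals
    simp only [PF, baseF, sqR, sqI, V, sub, Fm.code, Tm.code]
    fun_prop

theorem pf_resF : PF (fun z : List ℕ × List (ℕ × ℕ) × ℕ => resF z.2.1) := by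
  unfold resF
  refine PF.conjMap (by fun_prop) (PF.conjMap (by fun_prop) (PF.ite (by fun_prop) ?_
    (PF.const _)))
  simp only [PF, angF, dotT, V, sub, Fm.code, Tm.code]
  fun_prop

theorem pf_form (pl : Bool) : IsPolyTime (fun z => (form pl z).code) := by
  change PF (form pl)
  unfold form
  exact PF.ite (by fun_prop) (PF.and (PF.ite (by fun_prop) ((pf_drawF 2).and pf_planF)
    (PF.const _)) ((pf_drawF 0).and (pf_chainF.and pf_resF))) (PF.const _)

/-- The points read off from a valuation. -/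
def pt (x : ℕ → ℝ) (r v : ℕ) : ℂ := ⟨x (9 * v + r), x (9 * v + (r + 1))⟩

theorem holds_drawF (x : ℕ → ℝ) (r : ℕ) (W : List ℕ) (E : List (ℕ × ℕ)) :
    (drawF r W E).Holds x ↔ IsDrawing W E (pt x r) := by
  unfold drawF IsDrawing
  simp only [Fm.Holds, holds_conj_map, holds_ite]
  refine and_congr (forall₂_congr fun u _ => forall₂_congr fun v _ => ?_)
    (forall₂_congr fun e _ => forall₂_congr fun v _ => ?_)
  · rw [Complex.ext_iff]
    simp only [neF, V, Fm.Holds, Tm.eval, pt]
    tauto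
  · rw [mem_segment_iff]
    simp only [offF, V, sub, Fm.Holds, Tm.eval, pt, ← sub_eq_add_neg]
    tauto

theorem holds_sepF (x : ℕ → ℝ) (i p q r s : ℕ) :
    (sepF i p q r s).Holds x ↔
      x (9 * i + 6) * (pt x 2 p).re + x (9 * i + 7) * (pt x 2 p).im < x (9 * i + 8) ∧
      x (9 * i + 6) * (pt x 2 q).re + x (9 * i + 7) * (pt x 2 q).im < x (9 * i + 8) ∧
      x (9 * i + 8) < x (9 * i + 6) * (pt x 2 r).re + x (9 * i + 7) * (pt x 2 r).im ∧
      x (9 * i + 8) < x (9 * i + 6) * (pt x 2 s).re + x (9 * i + 7) * (pt x 2 s).im := Iff.rfl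

theorem holds_chainF (x : ℕ → ℝ) (k : ℕ) :
    (chainF k).Holds x ↔ Chain k (x 4) (x 5) (fun j => x (9 * (j + 1) + 4))
      (fun j => x (9 * (j + 1) + 5)) := by
  unfold chainF Chain
  simp only [Fm.Holds, holds_conj_map, baseF, V, Tm.eval, List.mem_range, and_assoc]
  refine and_congr Iff.rfl (and_congr Iff.rfl (and_congr Iff.rfl (and_congr Iff.rfl
    (and_congr Iff.rfl (and_congr Iff.rfl (forall₂_congr fun j _ => and_congr Iff.rfl ?_))))))
  unfold stepF Step
  split_ifs <;> simp only [Fm.Holds, sqR, sqI, V, sub, Tm.eval, ← sub_eq_add_neg]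

theorem mem_darts (E : List (ℕ × ℕ)) (v a : ℕ) :
    (v, a) ∈ E ++ E.map (fun e => (e.2, e.1)) ↔ Adj E v a := by
  simp only [List.mem_append, List.mem_map, Adj, Prod.mk.injEq]
  refine or_congr Iff.rfl ⟨?_, fun h => ⟨_, h, rfl, rfl⟩⟩
  rintro ⟨⟨c, d⟩, h, rfl, rfl⟩
  exact h

theorem holds_resF (x : ℕ → ℝ) {W : List ℕ} {E : List (ℕ × ℕ)} (hG : IsGraph W E)
    (hD : IsDrawing W E (pt x 0)) {θ : ℝ} (h1 : θ ≤ π / 2) (h2 : 0 < θ)
    (hc : x 4 = Real.cos θ) (hs : x 5 = Real.sin θ) :
    (resF E).Holds x ↔ ∀ v a b, Adj E v a → Adj E v b → a ≠ b →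
      θ ≤ EuclideanGeometry.angle (pt x 0 a) (pt x 0 v) (pt x 0 b) := by
  have hne : ∀ v a, Adj E v a → pt x 0 a -ᵥ pt x 0 v ≠ 0 := by
    intro v a h
    rw [vsub_ne_zero]
    rcases h with h | h
    · obtain ⟨k1, k2, k3⟩ := hG _ h
      exact fun e => k3 (hD.1 _ k1 _ k2 e.symm)
    · obtain ⟨k1, k2, k3⟩ := hG _ h
      exact fun e => k3 (hD.1 _ k1 _ k2 e)
  have key : ∀ v a b, Adj E v a → Adj E v b → ((angF v a b).Holds x ↔
      θ ≤ EuclideanGeometry.angle (pt x 0 a) (pt x 0 v) (pt x 0 b)) := by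
    intro v a b ha hb
    rw [EuclideanGeometry.angle, angle_ge_iff (hne v a ha) (hne v b hb) h1 h2, ← hc, ← hs]
    simp only [angF, dotT, V, sub, Fm.Holds, Tm.eval, pt, ← sub_eq_add_neg, vsub_eq_sub,
      Complex.sub_re, Complex.sub_im]
  unfold resF
  simp only [holds_conj_map, holds_ite]
  constructor
  · intro h v a b ha hb hab
    exact (key v a b ha hb).1 (h (v, a) ((mem_darts E v a).2 ha) (v, b) ((mem_darts E v b).2 hb)
      ⟨rfl, hab⟩)
  · rintro h ⟨v, a⟩ ha ⟨v', b⟩ hb ⟨rfl, hab⟩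
    rw [mem_darts] at ha hb
    exact (key _ a b ha hb).2 (h _ a b ha hb hab)

theorem form_iff (pl : Bool) (W : List ℕ) (E : List (ℕ × ℕ)) (k : ℕ) :
    (∃ x, (form pl (W, E, k)).Holds x) ↔
      IsGraph W E ∧ 2 ≤ k ∧ (pl = true → Planar W E) ∧ HasRes W E (π / (2 * k)) := by
  unfold form
  split_ifs with h hpl
  on_goal 3 =>
    simp only [not_holds_fls, exists_false, false_iff]
    exact fun g => h ⟨g.1, g.2.1⟩
  all_goals
    obtain ⟨hG, hk⟩ := h
    change IsGraph W E at hG
    change 2 ≤ k at hk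
    have hk' : (2 : ℝ) ≤ k := by exact_mod_cast hk
    have hφ0 : 0 < π / (2 * k) := by positivity
    have hφ1 : π / (2 * k) ≤ π / 2 :=
      div_le_div_of_nonneg_left pi_pos.le (by norm_num) (by linarith)
    simp only [Fm.Holds, holds_drawF, holds_chainF, holds_tru, true_and]
  · constructor
    · rintro ⟨x, ⟨d2, hp⟩, d0, hc, hr⟩
      obtain ⟨c1, c2⟩ := chain_sound hk hc
      refine ⟨hG, hk, fun _ => ⟨_, d2, fun e he f hf n1 n2 n3 n4 => ?_⟩, _, d0,
        (holds_resF x hG d0 hφ1 hφ0 c1 c2).1 hr⟩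
      unfold planF at hp
      simp only [holds_conj_map, holds_ite, holds_sepF] at hp
      exact (disjoint_segment_iff _ _ _ _).2 ⟨_, _, _, hp e he f hf ⟨n1, n2, n3, n4⟩⟩
    · rintro ⟨-, -, hP, p, d0, hr⟩
      obtain ⟨q, d2, hq⟩ := hP hpl
      have hsep : ∀ i : ℕ, ∃ a b c : ℝ,
          Disjoint (segment ℝ (q i.unpair.1.unpair.1) (q i.unpair.1.unpair.2))
            (segment ℝ (q i.unpair.2.unpair.1) (q i.unpair.2.unpair.2)) →
          a * (q i.unpair.1.unpair.1).re + b * (q i.unpair.1.unpair.1).im < c ∧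
          a * (q i.unpair.1.unpair.2).re + b * (q i.unpair.1.unpair.2).im < c ∧
          c < a * (q i.unpair.2.unpair.1).re + b * (q i.unpair.2.unpair.1).im ∧
          c < a * (q i.unpair.2.unpair.2).re + b * (q i.unpair.2.unpair.2).im := by
        intro i
        by_cases hd : Disjoint (segment ℝ (q i.unpair.1.unpair.1) (q i.unpair.1.unpair.2))
            (segment ℝ (q i.unpair.2.unpair.1) (q i.unpair.2.unpair.2))
        · obtain ⟨a, b, c, g⟩ := (disjoint_segment_iff _ _ _ _).1 hd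
          exact ⟨a, b, c, fun _ => g⟩
        · exact ⟨0, 0, 0, fun g => absurd g hd⟩
      choose A B C hABC using hsep
      let m : ℕ → ℝ := fun i => (if i = 0 then 1 else ((k / 2 ^ (i - 1) : ℕ) : ℝ)) * (π / (2 * k))
      let y : ℕ → ℕ → ℝ := fun r i => [(p i).re, (p i).im, (q i).re, (q i).im, Real.cos (m i),
        Real.sin (m i), A i, B i, C i].getD r 0
      let x : ℕ → ℝ := fun n => y (n % 9) (n / 9)
      have hx : ∀ i r, r < 9 → x (9 * i + r) = y r i := by
        intro i r hr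
        have e1 : (9 * i + r) % 9 = r := by omega
        have e2 : (9 * i + r) / 9 = i := by omega
        simp only [x, e1, e2]
      have hp0 : pt x 0 = p := by
        funext v; simp only [pt, hx v 0 (by omega), hx v (0 + 1) (by omega)]; rfl
      have hp2 : pt x 2 = q := by
        funext v; simp only [pt, hx v 2 (by omega), hx v (2 + 1) (by omega)]; rfl
      have h4 : x 4 = Real.cos (π / (2 * k)) := by
        rw [show (4 : ℕ) = 9 * 0 + 4 from rfl, hx 0 4 (by omega)]; simp [y, m]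
      have h5 : x 5 = Real.sin (π / (2 * k)) := by
        rw [show (5 : ℕ) = 9 * 0 + 5 from rfl, hx 0 5 (by omega)]; simp [y, m]
      refine ⟨x, ⟨hp2 ▸ d2, ?_⟩, hp0 ▸ d0, ?_, ?_⟩
      · unfold planF
        simp only [holds_conj_map, holds_ite, holds_sepF, hp2]
        rintro e he f hf ⟨n1, n2, n3, n4⟩
        rw [hx _ 6 (by omega), hx _ 7 (by omega), hx _ 8 (by omega)]
        have := hABC (Nat.pair (Nat.pair e.1 e.2) (Nat.pair f.1 f.2))
        simp only [Nat.unpair_pair] at this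
        exact this (hq e he f hf n1 n2 n3 n4)
      · rw [h4, h5]
        convert chain_complete hk using 2 with j j
        · rw [hx _ 4 (by omega)]; simp [y, m]
        · rw [hx _ 5 (by omega)]; simp [y, m]
      · rw [holds_resF x hG (hp0 ▸ d0) hφ1 hφ0 h4 h5, hp0]
        exact hr
  · constructor
    · rintro ⟨x, d0, hc, hr⟩
      obtain ⟨c1, c2⟩ := chain_sound hk hc
      exact ⟨hG, hk, fun g => absurd g hpl, _, d0, (holds_resF x hG d0 hφ1 hφ0 c1 c2).1 hr⟩
    · rintro ⟨-, -, -, p, d0, hr⟩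
      let m : ℕ → ℝ := fun i => (if i = 0 then 1 else ((k / 2 ^ (i - 1) : ℕ) : ℝ)) * (π / (2 * k))
      let y : ℕ → ℕ → ℝ := fun r i => [(p i).re, (p i).im, 0, 0, Real.cos (m i),
        Real.sin (m i)].getD r 0
      let x : ℕ → ℝ := fun n => y (n % 9) (n / 9)
      have hx : ∀ i r, r < 9 → x (9 * i + r) = y r i := by
        intro i r hr
        have e1 : (9 * i + r) % 9 = r := by omega
        have e2 : (9 * i + r) / 9 = i := by omega
        simp only [x, e1, e2]
      have hp0 : pt x 0 = p := by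
        funext v; simp only [pt, hx v 0 (by omega), hx v (0 + 1) (by omega)]; rfl
      have h4 : x 4 = Real.cos (π / (2 * k)) := by
        rw [show (4 : ℕ) = 9 * 0 + 4 from rfl, hx 0 4 (by omega)]; simp [y, m]
      have h5 : x 5 = Real.sin (π / (2 * k)) := by
        rw [show (5 : ℕ) = 9 * 0 + 5 from rfl, hx 0 5 (by omega)]; simp [y, m]
      refine ⟨x, hp0 ▸ d0, ?_, ?_⟩
      · rw [h4, h5]
        convert chain_complete hk using 2 with j j
        · rw [hx _ 4 (by omega)]; simp [y, m]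
        · rw [hx _ 5 (by omega)]; simp [y, m]
      · rw [holds_resF x hG (hp0 ▸ d0) hφ1 hφ0 h4 h5, hp0]
        exact hr

theorem snoc_inj {l l' : List ℕ} {a b : ℕ} (h : l ++ [a] = l' ++ [b]) : l = l' ∧ a = b := by
  obtain ⟨h1, h2⟩ := List.append_inj' h rfl
  exact ⟨h1, by simpa using h2⟩

theorem tm_code_inj (s t : Tm) (l l' : List ℕ) (h : l ++ s.code = l' ++ t.code) :
    l = l' ∧ s = t := by
  induction s generalizing t l l' with
  | var i =>
    cases t <;> simp only [Tm.code, ← List.append_assoc] at h <;> obtain ⟨h1, h2⟩ := snoc_inj h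
    · exact ⟨h1, by congr 1; omega⟩
    all_goals omega
  | zero =>
    cases t <;> simp only [Tm.code, ← List.append_assoc] at h <;> obtain ⟨h1, h2⟩ := snoc_inj h
    on_goal 2 => exact ⟨h1, rfl⟩
    all_goals omega
  | one =>
    cases t <;> simp only [Tm.code, ← List.append_assoc] at h <;> obtain ⟨h1, h2⟩ := snoc_inj h
    on_goal 3 => exact ⟨h1, rfl⟩
    all_goals omega
  | add a b iha ihb =>
    cases t <;> simp only [Tm.code, ← List.append_assoc] at h <;> obtain ⟨h1, h2⟩ := snoc_inj h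
    on_goal 4 =>
      obtain ⟨h3, rfl⟩ := ihb _ _ _ h1
      obtain ⟨h4, rfl⟩ := iha _ _ _ h3
      exact ⟨h4, rfl⟩
    all_goals omega
  | mul a b iha ihb =>
    cases t <;> simp only [Tm.code, ← List.append_assoc] at h <;> obtain ⟨h1, h2⟩ := snoc_inj h
    on_goal 5 =>
      obtain ⟨h3, rfl⟩ := ihb _ _ _ h1
      obtain ⟨h4, rfl⟩ := iha _ _ _ h3
      exact ⟨h4, rfl⟩
    all_goals omega
  | neg a iha =>
    cases t <;> simp only [Tm.code, ← List.append_assoc] at h <;> obtain ⟨h1, h2⟩ := snoc_inj h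
    on_goal 6 =>
      obtain ⟨h3, rfl⟩ := iha _ _ _ h1
      exact ⟨h3, rfl⟩
    all_goals omega

theorem fm_code_inj (φ ψ : Fm) (l l' : List ℕ) (h : l ++ φ.code = l' ++ ψ.code) :
    l = l' ∧ φ = ψ := by
  induction φ generalizing ψ l l' with
  | eq a b =>
    cases ψ <;> simp only [Fm.code, ← List.append_assoc] at h <;> obtain ⟨h1, h2⟩ := snoc_inj h
    on_goal 1 =>
      obtain ⟨h3, rfl⟩ := tm_code_inj _ _ _ _ h1
      obtain ⟨h4, rfl⟩ := tm_code_inj _ _ _ _ h3
      exact ⟨h4, rfl⟩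
    all_goals omega
  | lt a b =>
    cases ψ <;> simp only [Fm.code, ← List.append_assoc] at h <;> obtain ⟨h1, h2⟩ := snoc_inj h
    on_goal 2 =>
      obtain ⟨h3, rfl⟩ := tm_code_inj _ _ _ _ h1
      obtain ⟨h4, rfl⟩ := tm_code_inj _ _ _ _ h3
      exact ⟨h4, rfl⟩
    all_goals omega
  | le a b =>
    cases ψ <;> simp only [Fm.code, ← List.append_assoc] at h <;> obtain ⟨h1, h2⟩ := snoc_inj h
    on_goal 3 =>
      obtain ⟨h3, rfl⟩ := tm_code_inj _ _ _ _ h1
      obtain ⟨h4, rfl⟩ := tm_code_inj _ _ _ _ h3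
      exact ⟨h4, rfl⟩
    all_goals omega
  | not a iha =>
    cases ψ <;> simp only [Fm.code, ← List.append_assoc] at h <;> obtain ⟨h1, h2⟩ := snoc_inj h
    on_goal 4 =>
      obtain ⟨h3, rfl⟩ := iha _ _ _ h1
      exact ⟨h3, rfl⟩
    all_goals omega
  | and a b iha ihb =>
    cases ψ <;> simp only [Fm.code, ← List.append_assoc] at h <;> obtain ⟨h1, h2⟩ := snoc_inj h
    on_goal 5 =>
      obtain ⟨h3, rfl⟩ := ihb _ _ _ h1
      obtain ⟨h4, rfl⟩ := iha _ _ _ h3
      exact ⟨h4, rfl⟩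
    all_goals omega
  | or a b iha ihb =>
    cases ψ <;> simp only [Fm.code, ← List.append_assoc] at h <;> obtain ⟨h1, h2⟩ := snoc_inj h
    on_goal 6 =>
      obtain ⟨h3, rfl⟩ := ihb _ _ _ h1
      obtain ⟨h4, rfl⟩ := iha _ _ _ h3
      exact ⟨h4, rfl⟩
    all_goals omega

theorem code_injective {φ ψ : Fm} (h : φ.code = ψ.code) : φ = ψ :=
  (fm_code_inj φ ψ [] [] (by simpa using h)).2

theorem ETR_code (φ : Fm) : ETR (bitEncode φ.code) = true ↔ ∃ x, φ.Holds x := by
  simp only [ETR, decide_eq_true_eq]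
  constructor
  · rintro ⟨ψ, h1, h2⟩
    rwa [code_injective (bitEncode_injective h1)]
  · exact fun g => ⟨φ, rfl, g⟩

/-- A language of codes of typed inputs lies in the class as soon as it is described through a
polynomial-time map to triples (vertex list, edge list, `k`). -/
theorem mem_ExistsR_of {α : Type} [N487b59b3 α] [PolyDecode α] (pl : Bool)
    (g : α → List ℕ × List (ℕ × ℕ) × ℕ) (hg : IsPolyTime g) (L : DecisionProblem)
    (hL : ∀ w, L w = true ↔ ∃ a : α, w = bitEncode a ∧ IsGraph (g a).1 (g a).2.1 ∧ 2 ≤ (g a).2.2 ∧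
      (pl = true → Planar (g a).1 (g a).2.1) ∧
        HasRes (g a).1 (g a).2.1 (π / (2 * ((g a).2.2 : ℕ)))) : L ∈ ExistsR := by
  classical
  refine ⟨fun w => (bitDecode w : Option α).elim (bitEncode fls.code) (fun a =>
    if bitEncode a = w then bitEncode (form pl (g a)).code else bitEncode fls.code), ?_, ?_⟩
  · have h1 := (pf_form pl).comp hg
    have h2 : IsPolyTime (fun z : List Bool × α => (form pl (g z.2)).code) :=
      h1.comp (g := fun z : List Bool × α => z.2) (by fun_prop)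
    generalize fls.code = c
    fun_prop
  · intro w
    rw [Bool.eq_iff_iff, hL]
    have hf : ¬ ETR (bitEncode fls.code) = true := by
      rw [ETR_code]; simp [not_holds_fls]
    constructor
    · rintro ⟨a, rfl, ha⟩
      simp only [bitDecode_bitEncode, Option.elim, if_true]
      rw [ETR_code]
      exact (form_iff pl _ _ _).2 ha
    · intro h
      dsimp only at h
      cases hd : (bitDecode w : Option α) with
      | none => rw [hd] at h; exact absurd h hf
      | some a =>
        rw [hd] at h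
        simp only [Option.elim] at h
        split_ifs at h with e
        · rw [ETR_code] at h
          exact ⟨a, e.symm, (form_iff pl _ _ _).1 h⟩
        · exact absurd h hf

/-- The angular resolution problem restricted to planar graphs, as a language. -/
theorem planar_mem_ExistsR (L : DecisionProblem)
    (hL : ∀ w, L w = true ↔ ∃ (W : List ℕ) (E : List (ℕ × ℕ)) (k : ℕ), w = bitEncode (W, E, k) ∧
      IsGraph W E ∧ 2 ≤ k ∧ Planar W E ∧ HasRes W E (π / (2 * k))) : L ∈ ExistsR := by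
  refine mem_ExistsR_of true id (by fun_prop) L fun w => ?_
  rw [hL]
  constructor
  · rintro ⟨W, E, k, h1, h2, h3, h4, h5⟩
    exact ⟨(W, E, k), h1, h2, h3, fun _ => h4, h5⟩
  · rintro ⟨⟨W, E, k⟩, h1, h2, h3, h4, h5⟩
    exact ⟨W, E, k, h1, h2, h3, h4 rfl, h5⟩

/-- The unrestricted angular resolution problem. -/
theorem general_mem_ExistsR (L : DecisionProblem)
    (hL : ∀ w, L w = true ↔ ∃ (W : List ℕ) (E : List (ℕ × ℕ)) (k : ℕ), w = bitEncode (W, E, k) ∧
      IsGraph W E ∧ 2 ≤ k ∧ HasRes W E (π / (2 * k))) : L ∈ ExistsR := by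
  refine mem_ExistsR_of false id (by fun_prop) L fun w => ?_
  rw [hL]
  constructor
  · rintro ⟨W, E, k, h1, h2, h3, h5⟩
    exact ⟨(W, E, k), h1, h2, h3, fun h => absurd h (by simp), h5⟩
  · rintro ⟨⟨W, E, k⟩, h1, h2, h3, -, h5⟩
    exact ⟨W, E, k, h1, h2, h3, h5⟩

end Pool.Agent.Lib.MP_a4368a_lc.Mem
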