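import Pool.Agent.Lib.MP_a4368a_lc.Poly

/-! The angular resolution problem on planar graphs reduces to the existential theory of the reals. -/

namespace Pool.Agent.Lib.MP_a4368a_lc

open N68a2faeb N793a5b8e Pool.Agent.Shared.PolyTime N487b59b3

theorem angle_ge_iff {z w : ℂ} (hz : z ≠ 0) (hw : w ≠ 0) {θ : ℝ} (h0 : 0 ≤ θ) (h1 : θ ≤ Real.pi) :
    θ ≤ InnerProductGeometry.angle z w ↔ dot z w ≤ Real.cos θ * (‖z‖ * ‖w‖) := by
  have hin : inner ℝ z w = dot z w := by
    rw [Complex.inner]; simp [dot]; ring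
  have hpos : 0 < ‖z‖ * ‖w‖ := mul_pos (norm_pos_iff.2 hz) (norm_pos_iff.2 hw)
  rw [← (Real.strictAntiOn_cos.le_iff_ge ⟨InnerProductGeometry.angle_nonneg z w,
    InnerProductGeometry.angle_le_pi z w⟩ ⟨h0, h1⟩), InnerProductGeometry.cos_angle, hin,
    div_le_iff₀ hpos]

theorem dot_self (z : ℂ) : dot z z = ‖z‖ * ‖z‖ := by
  rw [← sq, ← Complex.normSq_eq_norm_sq, Complex.normSq_apply, dot]

theorem root_re {Z : ℂ} {n : ℕ} (hn : 1 ≤ n) (h : Z ^ n = -1) : Z.re ≤ Real.cos (Real.pi / n) := by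
  have hn' : (1 : ℝ) ≤ n := by exact_mod_cast hn
  have h1 : ‖Z‖ = 1 := by
    have := congrArg norm h
    rw [norm_pow, norm_neg, norm_one] at this
    exact (pow_eq_one_iff_of_nonneg (norm_nonneg _) (by omega)).1 this
  have hZ : Z = Complex.exp (Z.arg * Complex.I) := by
    have := Complex.norm_mul_exp_arg_mul_I Z
    rw [h1] at this
    simpa using this.symm
  have hre : Z.re = Real.cos |Z.arg| := by
    rw [Real.cos_abs]
    conv_lhs => rw [hZ]
    exact Complex.exp_ofReal_mul_I_re _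
  have hc : Real.cos |n * Z.arg| = Real.cos Real.pi := by
    rw [Real.cos_abs, Real.cos_pi, ← Complex.exp_ofReal_mul_I_re]
    push_cast
    rw [mul_assoc, Complex.exp_nat_mul, ← hZ, h]
    simp
  have hp := Real.pi_pos
  have hle : Real.pi / n ≤ |Z.arg| := by
    by_contra hc'
    push Not at hc'
    have : |n * Z.arg| < Real.pi := by
      rw [abs_mul, abs_of_pos (by linarith : (0 : ℝ) < n), mul_comm]
      exact (lt_div_iff₀ (by linarith)).1 hc'
    exact (Real.strictAntiOn_cos ⟨abs_nonneg _, this.le⟩ ⟨hp.le, le_rfl⟩ this).ne hc.symm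
  rw [hre]
  exact Real.cos_le_cos_of_nonneg_of_le_pi (by positivity) (Complex.abs_arg_le_pi Z) hle

theorem div_step (k i : ℕ) : k / 2 ^ i = k / 2 ^ (i + 1) * 2 + if k.testBit i = true then 1 else 0 := by
  rw [Nat.testBit_eq_decide_div_mod_eq, pow_succ, ← Nat.div_div_eq_div_mul]
  simp only [decide_eq_true_eq]
  split_ifs <;> omega

theorem pow_chain {Z : ℂ} {z : ℕ → ℂ} {k : ℕ} (h1 : z k.size = 1)
    (h2 : ∀ i < k.size, z i = z (i + 1) * z (i + 1) * if k.testBit i = true then Z else 1) :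
    z 0 = Z ^ k := by
  have : ∀ j i, i + j = k.size → z i = Z ^ (k / 2 ^ i) := by
    intro j
    induction j with
    | zero =>
      intro i hi
      rw [add_zero] at hi
      rw [hi, h1, Nat.div_eq_of_lt (Nat.lt_size_self k), pow_zero]
    | succ j ih =>
      intro i hi
      rw [h2 i (by omega), ih (i + 1) (by omega), div_step k i, pow_add Z, pow_mul Z, sq]
      split_ifs <;> simp
  simpa using this k.size 0 (by simp)

theorem sep_iff {a b c d : ℂ} : Disjoint (segment ℝ a b) (segment ℝ c d) ↔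
    ∃ (L : ℂ) (γ : ℝ), (dot L a < γ ∧ dot L b < γ) ∧ γ < dot L c ∧ γ < dot L d := by
  constructor
  · intro h
    have cp : ∀ a b : ℂ, IsCompact (segment ℝ a b) := fun a b => by
      rw [segment_eq_image]
      exact isCompact_Icc.image (by fun_prop)
    obtain ⟨f, u, v, h1, h2, h3⟩ := geometric_hahn_banach_compact_closed (convex_segment a b) (cp a b)
      (convex_segment c d) (cp c d).isClosed h
    have e : ∀ z : ℂ, dot ⟨f 1, f Complex.I⟩ z = f z := fun z => by
      conv_rhs => rw [← Complex.re_add_im z]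
      rw [map_add, show (z.re : ℂ) = z.re • (1 : ℂ) by simp,
        show (z.im : ℂ) * Complex.I = z.im • Complex.I by simp, map_smul, map_smul]
      simp [dot]; ring
    refine ⟨⟨f 1, f Complex.I⟩, u, ⟨?_, ?_⟩, ?_, ?_⟩ <;> rw [e]
    · exact h1 _ (left_mem_segment _ _ _)
    · exact h1 _ (right_mem_segment _ _ _)
    · exact h2.trans (h3 _ (left_mem_segment _ _ _))
    · exact h2.trans (h3 _ (right_mem_segment _ _ _))
  · rintro ⟨L, γ, ⟨h1, h2⟩, h3, h4⟩
    rw [Set.disjoint_left]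
    rintro z ⟨s, t, hs, ht, hst, rfl⟩ ⟨s', t', hs', ht', hst', e⟩
    have e' := congrArg (dot L) e
    have l : ∀ (s t : ℝ) (a b : ℂ), dot L (s • a + t • b) = s * dot L a + t * dot L b := by
      intro s t a b; simp [dot]; ring
    rw [l, l] at e'
    have q1 : s * dot L a + t * dot L b < γ := by
      rcases hs.eq_or_lt with h | h
      · rw [← h] at hst ⊢; rw [zero_add] at hst; rw [hst]; linarith
      · have := mul_pos h (sub_pos.2 h1)
        have := mul_nonneg ht (sub_pos.2 h2).le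
        have : γ = s * γ + t * γ := by rw [← add_mul, hst, one_mul]
        linarith
    have q2 : γ ≤ s' * dot L c + t' * dot L d := by
      have := mul_nonneg hs' (sub_pos.2 h3).le
      have := mul_nonneg ht' (sub_pos.2 h4).le
      have : γ = s' * γ + t' * γ := by rw [← add_mul, hst', one_mul]
      linarith
    linarith

abbrev MV : Type := ℕ × ℕ × ℕ × ℕ × ℕ
abbrev TP : Type := Tm × Tm

def pev (x : ℕ → ℝ) (P : TP) : ℂ := ⟨P.1.eval x, P.2.eval x⟩
def cv (m : MV) : TP := (.var (2 * numberOf m), .var (2 * numberOf m + 1))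
def subP (P Q : TP) : TP := (.add P.1 (.neg Q.1), .add P.2 (.neg Q.2))
def mulP (P Q : TP) : TP := (.add (.mul P.1 Q.1) (.neg (.mul P.2 Q.2)), .add (.mul P.1 Q.2) (.mul P.2 Q.1))
def dotT (P Q : TP) : Tm := .add (.mul P.1 Q.1) (.mul P.2 Q.2)
def crsT (P Q : TP) : Tm := .add (.mul P.1 Q.2) (.neg (.mul P.2 Q.1))
def eqP (P Q : TP) : Fm := .and (.eq P.1 Q.1) (.eq P.2 Q.2)
def bigAnd (l : List Fm) : Fm := l.foldl .and (.eq .zero .zero)

variable {x : ℕ → ℝ}

theorem pev_sub (P Q : TP) : pev x (subP P Q) = pev x P - pev x Q := by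
  apply Complex.ext <;> simp [pev, subP, Tm.eval, sub_eq_add_neg]
theorem pev_mul (P Q : TP) : pev x (mulP P Q) = pev x P * pev x Q := by
  apply Complex.ext <;> simp [pev, mulP, Tm.eval, sub_eq_add_neg]
theorem ev_dot (P Q : TP) : (dotT P Q).eval x = dot (pev x P) (pev x Q) := by
  simp [pev, dotT, Tm.eval, dot]
theorem ev_crs (P Q : TP) : (crsT P Q).eval x = crs (pev x P) (pev x Q) := by
  simp [pev, crsT, Tm.eval, crs, sub_eq_add_neg]
theorem ev_fst (P : TP) : P.1.eval x = (pev x P).re := rfl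
theorem holds_eqP (P Q : TP) : (eqP P Q).Holds x ↔ pev x P = pev x Q := by
  simp [eqP, Fm.Holds, pev]
theorem pev_one : pev x (.one, .zero) = 1 := rfl
theorem pev_neg : pev x (.neg .one, .zero) = -1 := by
  apply Complex.ext <;> simp [pev, Tm.eval]

theorem holds_bigAnd (l : List Fm) : (bigAnd l).Holds x ↔ ∀ φ ∈ l, φ.Holds x := by
  have : ∀ ψ : Fm, (l.foldl .and ψ).Holds x ↔ ψ.Holds x ∧ ∀ φ ∈ l, φ.Holds x := by
    induction l with
    | nil => simp
    | cons a l ih => intro ψ; simp [ih, Fm.Holds, and_assoc]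
  simp [bigAnd, this, Fm.Holds]

theorem code_bigAnd (l : List Fm) :
    (bigAnd l).code = [0, 0, 5] ++ (l.map Fm.code).flatMap (fun c => c ++ [9]) := by
  have : ∀ ψ : Fm, (l.foldl .and ψ).code = ψ.code ++ (l.map Fm.code).flatMap (fun c => c ++ [9]) := by
    induction l with
    | nil => simp
    | cons a l ih => intro ψ; simp [ih, Fm.code]
  simp [bigAnd, this, Fm.code, Tm.code]

def pt (j v : ℕ) : TP := cv (j, v, 0, 0, 0)
def neF (j u v : ℕ) : Fm := .not (eqP (pt j u) (pt j v))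
def offF (j v : ℕ) (e : ℕ × ℕ) : Fm :=
  .or (.not (.eq (crsT (subP (pt j e.2) (pt j e.1)) (subP (pt j v) (pt j e.1))) .zero))
    (.lt .zero (dotT (subP (pt j v) (pt j e.1)) (subP (pt j v) (pt j e.2))))
def sepF (e f : ℕ × ℕ) : Fm :=
  .and (.and (.lt (dotT (cv (2, e.1, e.2, f)) (pt 1 e.1)) (cv (3, e.1, e.2, f)).1)
      (.lt (dotT (cv (2, e.1, e.2, f)) (pt 1 e.2)) (cv (3, e.1, e.2, f)).1))
    (.and (.lt (cv (3, e.1, e.2, f)).1 (dotT (cv (2, e.1, e.2, f)) (pt 1 f.1)))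
      (.lt (cv (3, e.1, e.2, f)).1 (dotT (cv (2, e.1, e.2, f)) (pt 1 f.2))))
def angF (v a b : ℕ) : Fm :=
  .and (.and (.le .zero (cv (4, v, a, b, 0)).1)
    (.eq (.mul (cv (4, v, a, b, 0)).1 (cv (4, v, a, b, 0)).1)
      (.mul (dotT (subP (pt 0 a) (pt 0 v)) (subP (pt 0 a) (pt 0 v)))
        (dotT (subP (pt 0 b) (pt 0 v)) (subP (pt 0 b) (pt 0 v))))))
    (.le (dotT (subP (pt 0 a) (pt 0 v)) (subP (pt 0 b) (pt 0 v))) (.mul (pt 5 0).1 (cv (4, v, a, b, 0)).1))
def powF (k i : ℕ) : Fm :=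
  if k.testBit i = true then eqP (pt 6 i) (mulP (mulP (pt 6 (i + 1)) (pt 6 (i + 1))) (pt 5 0))
  else eqP (pt 6 i) (mulP (pt 6 (i + 1)) (pt 6 (i + 1)))

def drawL (j : ℕ) (V : List ℕ) (E : List (ℕ × ℕ)) : List Fm :=
  (V.flatMap fun u => (V.filter fun v => decide (u ≠ v)).map fun v => neF j u v) ++
    E.flatMap fun e => (V.filter fun v => decide (v ≠ e.1 ∧ v ≠ e.2)).map fun v => offF j v e
def sepL (E : List (ℕ × ℕ)) : List Fm :=
  E.flatMap fun e => (E.filter fun f => decide (e.1 ≠ f.1 ∧ e.1 ≠ f.2 ∧ e.2 ≠ f.1 ∧ e.2 ≠ f.2)).map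
    fun f => sepF e f
def darts (E : List (ℕ × ℕ)) : List (ℕ × ℕ) := E ++ E.map fun e => (e.2, e.1)
def angL (E : List (ℕ × ℕ)) : List Fm :=
  (darts E).flatMap fun e => ((darts E).filter fun f => decide (e.1 = f.1 ∧ e.2 ≠ f.2)).map
    fun f => angF e.1 e.2 f.2
def powL (k : ℕ) : List Fm :=
  eqP (pt 6 k.size) (.one, .zero) :: eqP (mulP (pt 6 0) (pt 6 0)) (.neg .one, .zero) ::
    (List.range k.size).map (powF k)
def allL (I : List ℕ × List (ℕ × ℕ) × ℕ) : List Fm :=
  drawL 0 I.1 I.2.1 ++ drawL 1 I.1 I.2.1 ++ sepL I.2.1 ++ angL I.2.1 ++ powL I.2.2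

theorem mem_darts {E : List (ℕ × ℕ)} {e : ℕ × ℕ} : e ∈ darts E ↔ Adj E e.1 e.2 := by
  simp only [darts, List.mem_append, List.mem_map, Adj]
  refine or_congr Iff.rfl ⟨?_, fun h => ⟨_, h, rfl⟩⟩
  rintro ⟨f, hf, rfl⟩
  exact hf

theorem holds_drawL (j : ℕ) (V : List ℕ) (E : List (ℕ × ℕ)) :
    (∀ φ ∈ drawL j V E, φ.Holds x) ↔ IsDrawing V E fun v => pev x (pt j v) := by
  simp only [drawL, List.forall_mem_append, List.forall_mem_flatMap, List.forall_mem_map,
    List.forall_mem_filter, decide_eq_true_eq, IsDrawing, neF, offF, Fm.Holds, holds_eqP, ev_dot,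
    ev_crs, pev_sub, Tm.eval]
  refine and_congr (forall₂_congr fun u _ => forall₂_congr fun v _ => not_imp_not)
    (forall₂_congr fun e _ => forall₂_congr fun v _ => ?_)
  rw [← ne_eq, ← not_mem_segment_iff, ← not_or]
  exact not_imp_not

theorem holds_angF (v a b : ℕ) : (angF v a b).Holds x ↔
    (pev x (cv (4, v, a, b, 0))).re =
      ‖pev x (pt 0 a) - pev x (pt 0 v)‖ * ‖pev x (pt 0 b) - pev x (pt 0 v)‖ ∧
    dot (pev x (pt 0 a) - pev x (pt 0 v)) (pev x (pt 0 b) - pev x (pt 0 v)) ≤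
      (pev x (pt 5 0)).re * (pev x (cv (4, v, a, b, 0))).re := by
  simp only [angF, Fm.Holds, Tm.eval, ev_dot, pev_sub, ev_fst, dot_self]
  refine and_congr ⟨fun h => ?_, fun h => ?_⟩ Iff.rfl
  · exact (mul_self_inj h.1 (by positivity)).1 (by rw [h.2]; ring)
  · rw [h]; exact ⟨by positivity, by ring⟩

theorem holds_powF (k i : ℕ) : (powF k i).Holds x ↔ pev x (pt 6 i) =
    pev x (pt 6 (i + 1)) * pev x (pt 6 (i + 1)) * if k.testBit i = true then pev x (pt 5 0) else 1 := by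
  unfold powF
  split_ifs <;> simp [holds_eqP, pev_mul]

theorem all_iff {V : List ℕ} {E : List (ℕ × ℕ)} {k : ℕ} (hG : IsGraph V E) (hk : 2 ≤ k) :
    (∃ x, (bigAnd (allL (V, E, k))).Holds x) ↔ Planar V E ∧ HasRes V E (Real.pi / (2 * (k : ℝ))) := by
  have hk' : (2 : ℝ) ≤ k := by exact_mod_cast hk
  have hp := Real.pi_pos
  have t0 : 0 ≤ Real.pi / (2 * (k : ℝ)) := by positivity
  have t1 : Real.pi / (2 * (k : ℝ)) ≤ Real.pi := div_le_self hp.le (by linarith)
  have ne : ∀ {p : ℕ → ℂ}, IsDrawing V E p → ∀ u v, Adj E u v → p v - p u ≠ 0 := by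
    rintro p ⟨h1, -⟩ u v (h | h) e
    · exact (hG _ h).2.2 (h1 _ (hG _ h).1 _ (hG _ h).2.1 (sub_eq_zero.1 e).symm)
    · exact (hG _ h).2.2 (h1 _ (hG _ h).1 _ (hG _ h).2.1 (sub_eq_zero.1 e))
  simp only [holds_bigAnd, allL, List.forall_mem_append, holds_drawL, sepL, angL, powL,
    List.forall_mem_flatMap, List.forall_mem_map, List.forall_mem_filter, List.forall_mem_cons,
    decide_eq_true_eq, holds_eqP, holds_angF, holds_powF, pev_mul, pev_one, pev_neg, List.mem_range,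
    mem_darts, sepF, Fm.Holds, ev_dot, ev_fst]
  constructor
  · rintro ⟨x, ⟨⟨⟨h1, h2⟩, h3⟩, h4⟩, h5, h6, h7⟩
    refine ⟨⟨_, h2, fun e he f hf a b c d => sep_iff.2 ⟨_, _, h3 e he f hf ⟨a, b, c, d⟩⟩⟩,
      _, h1, fun v a b ha hb hab => ?_⟩
    have e := pow_chain (z := fun i => pev x (pt 6 i)) h5 h7
    rw [e, ← pow_add] at h6
    have r := root_re (by omega) h6
    rw [← two_mul] at r
    push_cast at r
    obtain ⟨q1, q2⟩ := h4 (v, a) ha (v, b) hb ⟨rfl, hab⟩
    refine (angle_ge_iff (ne h1 _ _ ha) (ne h1 _ _ hb) t0 t1).2 (q2.trans ?_)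
    rw [q1]
    exact mul_le_mul_of_nonneg_right r (by positivity)
  · rintro ⟨⟨q, h1, h2⟩, p, h3, h4⟩
    have : ∀ e f : ℕ × ℕ, ∃ (L : ℂ) (γ : ℝ), Disjoint (segment ℝ (q e.1) (q e.2))
        (segment ℝ (q f.1) (q f.2)) →
        (dot L (q e.1) < γ ∧ dot L (q e.2) < γ) ∧ γ < dot L (q f.1) ∧ γ < dot L (q f.2) := by
      intro e f
      by_cases h : Disjoint (segment ℝ (q e.1) (q e.2)) (segment ℝ (q f.1) (q f.2))
      · obtain ⟨L, γ, h⟩ := sep_iff.1 h
        exact ⟨L, γ, fun _ => h⟩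
      · exact ⟨0, 0, fun h' => absurd h' h⟩
    choose L γ hL using this
    set Z : ℂ := Complex.exp ((Real.pi / (2 * (k : ℝ)) : ℝ) * Complex.I) with hZ
    let g : MV → ℂ := fun m => if m.1 = 0 then p m.2.1 else if m.1 = 1 then q m.2.1
      else if m.1 = 2 then L (m.2.1, m.2.2.1) m.2.2.2 else if m.1 = 3 then γ (m.2.1, m.2.2.1) m.2.2.2
      else if m.1 = 4 then (‖p m.2.2.1 - p m.2.1‖ * ‖p m.2.2.2.1 - p m.2.1‖ : ℝ)
      else if m.1 = 5 then Z else Z ^ (k / 2 ^ m.2.1)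
    let y : ℕ → ℝ := fun i => if i % 2 = 0 then (Function.extend numberOf g 0 (i / 2)).re
      else (Function.extend numberOf g 0 (i / 2)).im
    have e : ∀ m, pev y (cv m) = g m := by
      intro m
      have a1 : 2 * numberOf m / 2 = numberOf m := by omega
      have a2 : (2 * numberOf m + 1) / 2 = numberOf m := by omega
      apply Complex.ext
      · simp [pev, cv, Tm.eval, y, numberOf_injective.extend_apply]
      · simp [pev, cv, Tm.eval, y, a2, numberOf_injective.extend_apply]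
    refine ⟨y, ?_⟩
    simp only [pt, e, g, if_true, OfNat.ofNat_ne_zero, one_ne_zero, OfNat.ofNat_ne_one,
      Nat.reduceEqDiff, if_false, Complex.ofReal_re, Prod.mk.eta, true_and]
    refine ⟨⟨⟨⟨h3, h1⟩, fun e he f hf ⟨a, b, c, d⟩ => hL e f (h2 e he f hf a b c d)⟩, ?_⟩, ?_, ?_, ?_⟩
    · rintro ⟨v, a⟩ ha ⟨v', b⟩ hb ⟨rfl, hab⟩
      rw [hZ, Complex.exp_ofReal_mul_I_re]
      exact (angle_ge_iff (ne h3 _ _ ha) (ne h3 _ _ hb) t0 t1).1 (h4 _ _ _ ha hb hab)
    · rw [Nat.div_eq_of_lt (Nat.lt_size_self k), pow_zero]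
    · rw [pow_zero, Nat.div_one, ← pow_add, hZ, ← Complex.exp_nat_mul, ← Complex.exp_pi_mul_I]
      congr 1
      have : (k : ℂ) ≠ 0 := by exact_mod_cast (by omega : k ≠ 0)
      push_cast
      field_simp
      ring
    · intro i _
      rw [div_step k i, pow_add Z, pow_mul Z, sq]
      split_ifs <;> simp

section
variable {α : Type} [N487b59b3 α]

theorem pt_num {f : α → MV} (hf : IsPolyTime f) : IsPolyTime fun a => numberOf (f a) :=
  isPolyTime_numberOf.comp hf

attribute [local fun_prop] pt_num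

theorem pt_neF (j : ℕ) : IsPolyTime fun a : ℕ × ℕ => (neF j a.1 a.2).code := by
  simp only [neF, eqP, pt, cv, Fm.code, Tm.code]; fun_prop

theorem pt_offF (j : ℕ) : IsPolyTime fun a : ℕ × ℕ × ℕ => (offF j a.1 a.2).code := by
  simp only [offF, crsT, dotT, subP, pt, cv, Fm.code, Tm.code]; fun_prop

theorem pt_sepF : IsPolyTime fun a : (ℕ × ℕ) × ℕ × ℕ => (sepF a.1 a.2).code := by
  simp only [sepF, dotT, pt, cv, Fm.code, Tm.code]; fun_prop

theorem pt_angF : IsPolyTime fun a : ℕ × ℕ × ℕ => (angF a.1 a.2.1 a.2.2).code := by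
  simp only [angF, dotT, subP, pt, cv, Fm.code, Tm.code]; fun_prop

theorem pt_powF : IsPolyTime fun a : ℕ × ℕ => (powF a.1 a.2).code := by
  simp only [powF, apply_ite Fm.code, eqP, mulP, pt, cv, Fm.code, Tm.code]; fun_prop

theorem pt_drawL (j : ℕ) :
    IsPolyTime fun a : List ℕ × List (ℕ × ℕ) × ℕ => (drawL j a.1 a.2.1).map Fm.code := by
  simp only [drawL, List.map_append, List.map_flatMap, List.map_map, Function.comp_def]
  refine IsPolyTime.append (IsPolyTime.flatMap (IsPolyTime.map ?_ (by fun_prop)) (by fun_prop))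
    (IsPolyTime.flatMap (IsPolyTime.map ?_ (by fun_prop)) (by fun_prop))
  · exact IsPolyTime.comp₂ (f := fun u v => (neF j u v).code) (pt_neF j) (by fun_prop) (by fun_prop)
  · exact IsPolyTime.comp₂ (f := fun u v => (offF j u v).code) (pt_offF j) (by fun_prop) (by fun_prop)

theorem pt_sepL : IsPolyTime fun a : List ℕ × List (ℕ × ℕ) × ℕ => (sepL a.2.1).map Fm.code := by
  simp only [sepL, List.map_flatMap, List.map_map, Function.comp_def]
  refine IsPolyTime.flatMap (IsPolyTime.map ?_ (by fun_prop)) (by fun_prop)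
  exact IsPolyTime.comp₂ (f := fun u v => (sepF u v).code) pt_sepF (by fun_prop) (by fun_prop)

theorem pt_angL : IsPolyTime fun a : List ℕ × List (ℕ × ℕ) × ℕ => (angL a.2.1).map Fm.code := by
  simp only [angL, darts, List.map_flatMap, List.map_map, Function.comp_def]
  refine IsPolyTime.flatMap (IsPolyTime.map ?_ (by fun_prop)) (by fun_prop)
  exact IsPolyTime.comp₂ (f := fun u (v : ℕ × ℕ) => (angF u v.1 v.2).code)
    (h := fun a : ((List ℕ × List (ℕ × ℕ) × ℕ) × ℕ × ℕ) × ℕ × ℕ => (a.1.2.2, a.2.2)) pt_angF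
    (by fun_prop) (by fun_prop)

theorem pt_powL : IsPolyTime fun a : List ℕ × List (ℕ × ℕ) × ℕ => (powL a.2.2).map Fm.code := by
  simp only [powL, List.map_cons, List.map_map, Function.comp_def]
  refine IsPolyTime.cons ?_ (IsPolyTime.cons (by fun_prop) (IsPolyTime.map ?_ (by fun_prop)))
  · simp only [eqP, pt, cv, Fm.code, Tm.code]; fun_prop
  · exact IsPolyTime.comp₂ (f := fun u v => (powF u v).code) pt_powF (by fun_prop) (by fun_prop)

theorem pt_all : IsPolyTime fun I => (bigAnd (allL I)).code := by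
  have h0 := pt_drawL 0
  have h1 := pt_drawL 1
  have h2 := pt_sepL
  have h3 := pt_angL
  have h4 := pt_powL
  simp only [code_bigAnd, allL, List.map_append]
  exact IsPolyTime.append (by fun_prop) (IsPolyTime.flatMap (by fun_prop)
    ((((h0.append h1).append h2).append h3).append h4))

end

theorem etr_code (φ : Fm) : ETR (bitEncode φ.code) = true ↔ ∃ x, φ.Holds x := by
  simp only [ETR, decide_eq_true_eq]
  refine ⟨?_, fun h => ⟨φ, rfl, h⟩⟩
  rintro ⟨ψ, e, x, hx⟩
  have h := ev_fm x φ []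
  rw [bitEncode_injective e, ev_fm] at h
  refine ⟨x, ?_⟩
  by_contra hn
  simp [ind, hx, hn] at h

theorem etr_nil : ETR [] = false := by
  simp only [ETR, decide_eq_false_iff_not]
  rintro ⟨φ, e, -⟩
  exact code_ne_nil φ (bitEncode_injective (a₂ := ([] : List ℕ)) e.symm)

theorem member : ∃ f : List Bool → List Bool, IsPolyTime f ∧ ∀ w, ETR (f w) = true ↔
    ∃ (V : List ℕ) (E : List (ℕ × ℕ)) (k : ℕ), w = bitEncode (V, E, k) ∧ IsGraph V E ∧ Planar V E ∧
      2 ≤ k ∧ HasRes V E (Real.pi / (2 * (k : ℝ))) := by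
  classical
  let d : List Bool → List ℕ × List (ℕ × ℕ) × ℕ := fun w => (bitDecode w).getD ([], [], 0)
  have hd : IsPolyTime d := by fun_prop
  have ha := pt_all.comp hd
  refine ⟨fun w => if bitEncode (d w) = w ∧ IsGraph (d w).1 (d w).2.1 ∧ 2 ≤ (d w).2.2 then
    bitEncode (bigAnd (allL (d w))).code else [], ?_, fun w => ?_⟩
  · unfold IsGraph
    refine IsPolyTime.ite (by fun_prop) (IsPolyTime.bitEncode ha) (by fun_prop)
  · beta_reduce
    split_ifs with h
    · rw [etr_code, all_iff (V := (d w).1) (E := (d w).2.1) (k := (d w).2.2) h.2.1 h.2.2]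
      constructor
      · exact fun h' => ⟨_, _, _, h.1.symm, h.2.1, h'.1, h.2.2, h'.2⟩
      · rintro ⟨V, E, k, e, -, h1, -, h2⟩
        have : d w = (V, E, k) := bitEncode_injective (h.1.trans e)
        rw [this]
        exact ⟨h1, h2⟩
    · rw [etr_nil]
      refine iff_of_false (by simp) ?_
      rintro ⟨V, E, k, rfl, h1, -, h2, -⟩
      have : d (bitEncode (V, E, k)) = (V, E, k) := by simp [d]
      rw [this] at h
      exact h ⟨rfl, h1, h2⟩

end Pool.Agent.Lib.MP_a4368a_lc
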