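import Pool.Agent.Lib.MP_a4368a_lc.Tab0
import Pool.Agent.Lib.MP_a4368a_lc.Tab1
import Pool.Agent.Lib.MP_a4368a_lc.Tab2
import Pool.Agent.Lib.MP_a4368a_lc.Tab3
import Pool.Agent.Lib.MP_a4368a_lc.Tab4
import Pool.Agent.Lib.MP_a4368a_lc.Defs

/-! The graph is planar. -/

namespace Pool.Agent.Lib.MP_a4368a_lc

theorem chkP_all : ∀ τ ≤ 4, chkP (vtab pz τ) (ptab pz τ) = true := by
  intro τ h
  interval_cases τ
  exacts [chkP0, chkP1, chkP2, chkP3, chkP4]

theorem chkQ_all : ∀ τ ≤ 4, chkQ τ (vtab qz τ) (ptab qz τ) = true := by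
  intro τ h
  interval_cases τ
  exacts [chkQ0, chkQ1, chkQ2, chkQ3, chkQ4]

variable {z : ℕ → ℕ → ℤ × ℤ} {cs : List Con}

theorem OnPiece.pc (h : Lay z) {e : GV × GV} {x : ℂ} {c : ℕ × ℕ} (o : OnPiece cs z e x c) :
    ∃ π ∈ ptab z (ty cs c), x - toC (org c) ∈ π.seg ∧ ((c, π.a) = e.1 ∨ (c, π.a) = e.2) ∧ π.a < 1024 ∧
      ((π.b < 1024 ∧ e = ((c, π.a), (c, π.b)) ∧ (π.a, π.b) ∈ tileEdges (ty cs c)) ∨
        π.b = 2000 + π.a) := by
  have wf := tile_wf _ (ty_le cs c)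
  rcases o with ⟨f, hf, rfl, hx⟩ | ⟨s, hs, he, -, hx⟩
  · obtain ⟨π, h1, h2, h3, h4⟩ := ptab_edge h (ty_le cs c) hf
    refine ⟨π, h1, h4 ▸ hx, Or.inl (by rw [h2]), ?_, Or.inl ⟨?_, by rw [h2, h3], by rwa [h2, h3]⟩⟩
    · rw [h2]; exact wf.2.1 _ (wf.1 f hf).1
    · rw [h3]; exact wf.2.1 _ (wf.1 f hf).2.1
  · obtain ⟨π, h1, h2, h3, h4⟩ := ptab_stub h (ty_le cs c) hs
    refine ⟨π, h1, h4 ▸ hx, by rwa [h2], ?_, Or.inr (by rw [h2, h3])⟩
    rw [h2]; exact wf.2.1 _ (wf.2.2.1 s hs).1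

theorem Z_sub (h : Lay z) {v : GV} (hv : v ∈ verts cs) : Z cs z v - toC (org v.1) =
    cN (z (ty cs v.1) v.2).1.toNat (z (ty cs v.1) v.2).2.toNat := by
  rw [h.cN (ty_le cs _) (mem_verts.1 hv).2]; simp [Z]

theorem planar (cs : List Con) : Planar (verts cs) (edges cs) := by
  have h := lay_pz
  have ck : ∀ τ ≤ 4, (∀ v ∈ vtab pz τ, ∀ w ∈ vtab pz τ, v = w ∨ v.2 ≠ w.2) ∧
      (∀ v ∈ vtab pz τ, ∀ π ∈ ptab pz τ, v.1 = π.a ∨ v.1 = π.b ∨ cN v.2.1 v.2.2 ∉ π.seg) ∧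
      ∀ π ∈ ptab pz τ, ∀ σ ∈ ptab pz τ, π.Sep σ := by
    intro τ hτ
    have := chkP_all τ hτ
    simp only [chkP, Bool.and_eq_true, List.all_eq_true, Bool.or_eq_true, Nat.beq_eq] at this
    obtain ⟨⟨h1, h2⟩, h3⟩ := this
    refine ⟨allPairs_sound (R := fun v w => v = w ∨ v.2 ≠ w.2) (fun x y h => h.imp Eq.symm Ne.symm)
      (fun x => Or.inl rfl) (fun x y h => Or.inr fun he => ?_) _ h1, fun v hv π hπ => ?_,
      allPairs_sound (R := Pc.Sep) ?_ (fun x => Or.inl rfl) disj_sound _ h3⟩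
    · simp [he] at h
    · rcases h2 v hv π hπ with (q | q) | q
      · exact Or.inl q
      · exact Or.inr (Or.inl q)
      · exact Or.inr (Or.inr (notOn_sound q))
    · intro x y h
      unfold Pc.Sep at *
      rcases h with h | h | h | h | h
      · exact Or.inl h.symm
      · exact Or.inr (Or.inr (Or.inl h.symm))
      · exact Or.inr (Or.inl h.symm)
      · exact Or.inr (Or.inr (Or.inr (Or.inl h.symm)))
      · exact Or.inr (Or.inr (Or.inr (Or.inr h.symm)))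
  refine ⟨Z cs pz, ⟨fun u hu v hv he => ?_, fun e he v hv hx => ?_⟩, fun e he f hf n1 n2 n3 n4 => ?_⟩
  · obtain ⟨h1, h2⟩ := Z_eq h hu hv he
    have m2 := (mem_verts.1 hv).2
    rw [← h1] at m2
    rcases (ck _ (ty_le cs u.1)).1 _ (mem_vtab (mem_verts.1 hu).2) _ (mem_vtab m2) with q | q
    · exact Prod.ext h1 (congrArg Prod.fst q)
    · exact absurd (by rw [h2]) q
  · obtain ⟨π, hπ, h1, h2, h3, h4⟩ := (cover_vertex h he hv hx).pc h
    rw [Z_sub h hv] at h1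
    have hl := (tile_wf _ (ty_le cs v.1)).2.1 _ (mem_verts.1 hv).2
    rcases (ck _ (ty_le cs v.1)).2.1 _ (mem_vtab (mem_verts.1 hv).2) π hπ with q | q | q
    · simp only at q
      rwa [← q] at h2
    · simp only at q
      rcases h4 with h4 | h4
      · right; rw [h4.2.1, ← q]
      · omega
    · exact absurd h1 q
  · rw [Set.disjoint_left]
    intro x hx hy
    rcases cover_two h he hf hx hy with rfl | ⟨c, o1, o2⟩
    · exact n1 rfl
    · obtain ⟨π, hπ, a1, a2, a3, a4⟩ := o1.pc h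
      obtain ⟨σ, hσ, b1, b2, b3, b4⟩ := o2.pc h
      have ends : ∀ l, ((c, l) = e.1 ∨ (c, l) = e.2) → ((c, l) = f.1 ∨ (c, l) = f.2) → False := by
        rintro l (p | p) (q | q)
        exacts [n1 (p.symm.trans q), n2 (p.symm.trans q), n3 (p.symm.trans q), n4 (p.symm.trans q)]
      rcases (ck _ (ty_le cs c)).2.2 π hπ σ hσ with q | q | q | q | q
      · exact ends _ a2 (q ▸ b2)
      · rcases b4 with b4 | b4
        · exact ends _ a2 (Or.inr (by rw [b4.2.1, q]))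
        · omega
      · rcases a4 with a4 | a4
        · exact ends _ (Or.inr (by rw [a4.2.1, q])) b2
        · omega
      · rcases a4 with a4 | a4 <;> rcases b4 with b4 | b4
        · exact ends π.b (Or.inr (by rw [a4.2.1])) (Or.inr (by rw [b4.2.1, q]))
        · omega
        · omega
        · exact ends _ a2 ((show π.a = σ.a by omega) ▸ b2)
      · exact Set.disjoint_left.1 q a1 b1

end Pool.Agent.Lib.MP_a4368a_lc
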