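import Pool.Agent.Lib.MP_a4368a_lc.Alg
import Pool.Agent.Lib.MP_a4368a_lc.Planar
import Pool.Agent.Shared.PolyTime.Extra
import Pool.Agent.Shared.PolyTime.BaseProblems

/-! The reduction runs in polynomial time; renaming of the vertices. -/

namespace Pool.Agent.Lib.MP_a4368a_lc

open N68a2faeb Pool.Agent.Shared.PolyTime N487b59b3

set_option synthInstance.maxSize 2000

section
variable {α : Type} [N487b59b3 α]

theorem pt_five {β : Type} [N487b59b3 β] (g : ℕ → β) (h : ∀ τ, 4 ≤ τ → g τ = g 4) : IsPolyTime g := by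
  refine IsPolyTime.of_eq (f := fun τ : ℕ => if τ = 0 then g 0 else if τ = 1 then g 1
    else if τ = 2 then g 2 else if τ = 3 then g 3 else g 4) (by fun_prop) fun τ => ?_
  split_ifs with h0 h1 h2 h3
  · rw [h0]
  · rw [h1]
  · rw [h2]
  · rw [h3]
  · exact (h τ (by omega)).symm

theorem shape_ge {τ : ℕ} (h : 4 ≤ τ) : shape τ = shape 4 := by
  unfold shape
  rw [if_neg (by omega), if_neg (by omega), if_neg (by omega), if_neg (by omega)]; rfl

theorem links_ge {τ : ℕ} (h : 4 ≤ τ) : links τ = links 4 := by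
  unfold links
  rw [if_neg (by omega), if_neg (by omega), if_neg (by omega), if_neg (by omega)]; rfl

@[fun_prop] theorem pt_tileEdges {f : α → ℕ} (hf : IsPolyTime f) :
    IsPolyTime fun x => tileEdges (f x) :=
  (pt_five tileEdges fun τ h => by rw [tileEdges, shape_ge h, links_ge h, tileEdges]).comp hf

@[fun_prop] theorem pt_tileVerts {f : α → ℕ} (hf : IsPolyTime f) :
    IsPolyTime fun x => tileVerts (f x) :=
  (pt_five tileVerts fun τ h => by rw [tileVerts, shape_ge h, tileVerts]).comp hf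

@[fun_prop] theorem pt_pN {f g : α → ℕ} (hf : IsPolyTime f) (hg : IsPolyTime g) :
    IsPolyTime fun x => pN (f x) (g x) := by
  unfold pN portN; fun_prop

@[fun_prop] theorem pt_ty {f : α → List Con} {g : α → ℕ × ℕ} (hf : IsPolyTime f) (hg : IsPolyTime g) :
    IsPolyTime fun x => ty (f x) (g x) := by
  unfold ty gty occ; fun_prop

@[fun_prop] theorem pt_below {f g : α → ℕ} (hf : IsPolyTime f) (hg : IsPolyTime g) :
    IsPolyTime fun x => below (f x) (g x) := by
  unfold below; fun_prop

theorem pt_cells : IsPolyTime cells := by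
  unfold cells; fun_prop

theorem pt_verts : IsPolyTime verts := by
  have := pt_cells
  unfold verts; fun_prop

theorem pt_edges : IsPolyTime edges := by
  have := pt_cells
  unfold edges vlink hlink sub pS pE pW; fun_prop

theorem pt_prims : IsPolyTime prims := by
  unfold prims prim; fun_prop

theorem pt_numb : IsPolyTime numb := by
  have : IsPolyTime occs := by unfold occs; fun_prop
  have h : IsPolyTime fun p : List PV × PV => idx p.1 p.2 :=
    @IsPolyTime.idxOf _ _ _ _ beqPV lawfulPV _ _ (by fun_prop) (by fun_prop)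
  have h' : ∀ {γ : Type} [N487b59b3 γ] {f : γ → List PV} {g : γ → PV}, IsPolyTime f → IsPolyTime g →
      IsPolyTime fun x => idx (f x) (g x) := fun hf hg => IsPolyTime.comp₂ h hf hg
  unfold numb
  refine IsPolyTime.map ?_ (by fun_prop)
  refine IsPolyTime.pair (by fun_prop) (IsPolyTime.pair (h' ?_ ?_) (IsPolyTime.pair (h' ?_ ?_) (h' ?_ ?_)))
  all_goals fun_prop

@[fun_prop] theorem pt_ar {f : α → ℕ} (hf : IsPolyTime f) : IsPolyTime fun x => ar (f x) := by
  unfold ar; fun_prop

@[fun_prop] theorem pt_okb {f : α → ℕ} {g : α → List Item} (hf : IsPolyTime f) (hg : IsPolyTime g) :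
    IsPolyTime fun x => okb (f x) (g x) := by
  unfold okb; fun_prop

@[fun_prop] theorem pt_newc {f : α → ℕ} {g : α → List Item} (hf : IsPolyTime f) (hg : IsPolyTime g) :
    IsPolyTime fun x => newc (f x) (g x) := by
  unfold newc opA opB; fun_prop

theorem bsize_mstep (st : List Item) (k : ℕ) : bsize (mstep st k) ≤ bsize st + (4 * bsize k + 9) := by
  unfold mstep
  split_ifs with hok
  swap
  · omega
  have ha : ar k = 0 ∨ ar k = 1 ∨ ar k = 2 := by unfold ar; split_ifs <;> omega
  rcases ha with ha | ha | ha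
  · simp [newc, ha]; omega
  · obtain ⟨B, r, rfl⟩ := ok_one hok ha
    simp [newc, ha, opB]; omega
  · obtain ⟨A, B, r, rfl⟩ := ok_two hok ha
    simp [newc, ha, opA, opB]; omega

theorem pt_stk : IsPolyTime stk := by
  unfold stk
  refine IsPolyTime.foldl_grow (f := fun _ s b => mstep s b) (by unfold mstep; fun_prop) (by fun_prop)
    (by fun_prop) (fun w => 4 * bsize w + 9) (by fun_prop) fun w s b hb => ?_
  have := bsize_le_of_mem hb
  have := bsize_mstep s b
  omega

@[fun_prop] theorem pt_gen {k : α → ℕ} {f g h : α → List ℕ} (hk : IsPolyTime k) (hf : IsPolyTime f)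
    (hg : IsPolyTime g) (hh : IsPolyTime h) : IsPolyTime fun x => gen (k x) (f x) (g x) (h x) := by
  unfold gen ltg; fun_prop

theorem pt_tse : IsPolyTime tse := by
  have := pt_stk
  unfold tse nodeCons opA opB; fun_prop

end

/-- the word coded by a bit string (the empty word if there is none) -/
def wordOf (s : List Bool) : List ℕ :=
  if bitEncode ((bitDecode s : Option (List ℕ)).getD []) = s then (bitDecode s).getD [] else []

theorem pt_wordOf : IsPolyTime wordOf := by
  unfold wordOf; fun_prop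

theorem code_ne_nil (φ : Fm) : φ.code ≠ [] := by
  cases φ <;> simp [Fm.code]

theorem etr_iff (s : List Bool) : ETR s = true ↔
    ∃ f : RV → ℝ, f vZ = 0 ∧ f vO = 1 ∧ RSat f (tse (wordOf s)) := by
  simp only [ETR, decide_eq_true_eq]
  constructor
  · rintro ⟨φ, rfl, x, hx⟩
    have : wordOf (bitEncode φ.code) = φ.code := by simp [wordOf]
    rw [this]
    exact tse_complete φ x hx
  · rintro ⟨f, h0, h1, h⟩
    obtain ⟨φ, e, x, hx⟩ := tse_sound h0 h1 h
    refine ⟨φ, ?_, x, hx⟩
    unfold wordOf at e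
    split_ifs at e with hs
    · rw [← e, hs]
    · exact absurd e.symm (code_ne_nil φ)

section rename
variable {α β : Type} {r : α → β} {V : List α} {E : List (α × α)}

theorem isGraph_map (hr : Function.Injective r) (h : IsGraph V E) :
    IsGraph (V.map r) (E.map fun e => (r e.1, r e.2)) := by
  intro e he
  obtain ⟨e, hf, rfl⟩ := List.mem_map.1 he
  exact ⟨List.mem_map_of_mem (h e hf).1, List.mem_map_of_mem (h e hf).2.1, hr.ne (h e hf).2.2⟩

theorem isDrawing_map (hr : Function.Injective r) {p : β → ℂ} :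
    IsDrawing (V.map r) (E.map fun e => (r e.1, r e.2)) p ↔ IsDrawing V E (fun v => p (r v)) := by
  simp only [IsDrawing, List.forall_mem_map, hr.eq_iff]

theorem adj_map {u v : β} : Adj (E.map fun e => (r e.1, r e.2)) u v ↔
    ∃ a b, Adj E a b ∧ u = r a ∧ v = r b := by
  simp only [Adj, List.mem_map, Prod.mk.injEq]
  constructor
  · rintro (⟨e, he, rfl, rfl⟩ | ⟨e, he, rfl, rfl⟩)
    · exact ⟨e.1, e.2, Or.inl he, rfl, rfl⟩
    · exact ⟨e.2, e.1, Or.inr he, rfl, rfl⟩
  · rintro ⟨a, b, h | h, rfl, rfl⟩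
    · exact Or.inl ⟨_, h, rfl, rfl⟩
    · exact Or.inr ⟨_, h, rfl, rfl⟩

theorem planar_map (hr : Function.Injective r) (h : Planar V E) :
    Planar (V.map r) (E.map fun e => (r e.1, r e.2)) := by
  obtain ⟨p, h1, h2⟩ := h
  have e : ∀ v, Function.extend r p 0 (r v) = p v := hr.extend_apply p 0
  refine ⟨Function.extend r p 0, (isDrawing_map hr).2 (by simpa only [e] using h1), ?_⟩
  simpa only [List.forall_mem_map, e, ne_eq, hr.eq_iff] using h2

theorem hasRes_map (hr : Function.Injective r) {θ : ℝ} :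
    HasRes (V.map r) (E.map fun e => (r e.1, r e.2)) θ ↔ HasRes V E θ := by
  constructor
  · rintro ⟨p, h1, h2⟩
    exact ⟨fun v => p (r v), (isDrawing_map hr).1 h1, fun v a b ha hb hab =>
      h2 _ _ _ (adj_map.2 ⟨_, _, ha, rfl, rfl⟩) (adj_map.2 ⟨_, _, hb, rfl, rfl⟩) (hr.ne hab)⟩
  · rintro ⟨p, h1, h2⟩
    have e : ∀ v, Function.extend r p 0 (r v) = p v := hr.extend_apply p 0
    refine ⟨Function.extend r p 0, (isDrawing_map hr).2 (by simpa only [e] using h1), ?_⟩
    intro v a b ha hb hab
    obtain ⟨v1, a1, ha', rfl, rfl⟩ := adj_map.1 ha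
    obtain ⟨v2, b1, hb', hv, rfl⟩ := adj_map.1 hb
    obtain rfl := hr hv
    rw [e, e, e]
    exact h2 _ _ _ ha' hb' fun h => hab (by rw [h])

end rename

/-- the numbered graph of a list of constraints -/
def inst (cs : List Con) : List ℕ × List (ℕ × ℕ) × ℕ :=
  ((verts cs).map numberOf, (edges cs).map (fun e => (numberOf e.1, numberOf e.2)), 2)

theorem pt_inst : IsPolyTime inst := by
  have h1 := pt_verts
  have h2 := pt_edges
  have := isPolyTime_numberOf (V := GV)
  unfold inst
  fun_prop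

theorem inst_spec (cs : List Con) : IsGraph (inst cs).1 (inst cs).2.1 ∧ Planar (inst cs).1 (inst cs).2.1 ∧
    (inst cs).2.2 = 2 ∧ ∀ θ, HasRes (inst cs).1 (inst cs).2.1 θ ↔ HasRes (verts cs) (edges cs) θ :=
  ⟨isGraph_map numberOf_injective (edges_wf _), planar_map numberOf_injective (planar _), rfl,
    fun _ => hasRes_map numberOf_injective⟩

theorem etr_hard : ∃ f : List Bool → List ℕ × List (ℕ × ℕ) × ℕ, IsPolyTime f ∧ ∀ s,
    IsGraph (f s).1 (f s).2.1 ∧ Planar (f s).1 (f s).2.1 ∧ (f s).2.2 = 2 ∧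
      (ETR s = true ↔ HasRes (f s).1 (f s).2.1 (Real.pi / 4)) := by
  refine ⟨fun s => inst (numb (prims (tse (wordOf s)))),
    pt_inst.comp (pt_numb.comp (pt_prims.comp (pt_tse.comp pt_wordOf))), fun s => ?_⟩
  obtain ⟨h1, h2, h3, h4⟩ := inst_spec (numb (prims (tse (wordOf s))))
  refine ⟨h1, h2, h3, ?_⟩
  rw [h4, res_iff, etr_iff]

end Pool.Agent.Lib.MP_a4368a_lc
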