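import Pool.Agent.Lib.MP_a4368a_lc.Geom

/-! Rigid strips of squares (rulers) and their exact ports. -/

namespace Pool.Agent.Lib.MP_a4368a_lc

open Complex

/-- edges of a ruler of length `n`, with or without the two end flaps -/
def rEdges (n : ℕ) (fl : Bool) : List (ℕ × ℕ) :=
  (List.range n).map (fun j => (j, j + 1)) ++
    (List.range (n - 1)).flatMap (fun j => [(j, j + 2), (j, 33 + j), (j + 1, 33 + j), (j + 2, 33 + j)]) ++
    (if fl then [(1, 64), (1, 65), (34, 64), (34, 65), (64, 65), (n - 1, 66), (n - 1, 67),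
      (30 + n, 66), (30 + n, 67), (66, 67)] else [])

/-- vertices of a ruler -/
def rVerts (n : ℕ) (fl : Bool) : List ℕ :=
  List.range (n + 1) ++ (List.range (n - 1)).map (fun j => 33 + j) ++
    (if fl then [64, 65, 66, 67] else [])

def sg (j : ℕ) : ℂ := if j % 2 = 0 then 1 else -1

theorem sg_sg (j : ℕ) : Sg (sg j) := by
  unfold sg; split_ifs
  · exact Or.inl rfl
  · exact Or.inr rfl

theorem sg_succ (j : ℕ) : sg (j + 1) = -sg j := by
  unfold sg
  rcases Nat.mod_two_eq_zero_or_one j with h | h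
  · have : (j + 1) % 2 ≠ 0 := by omega
    simp [h, this]
  · have : (j + 1) % 2 = 0 := by omega
    simp [h, this]

theorem sg_cast (j : ℕ) : ((j % 2 : ℕ) : ℂ) = (1 - sg j) / 2 := by
  unfold sg
  rcases Nat.mod_two_eq_zero_or_one j with h | h <;> simp [h]

variable {α : Type} {adj : α → α → Prop} {p : α → ℂ}

/-- the shape of a drawn ruler -/
structure Frame (adj : α → α → Prop) (p : α → ℂ) (φ : ℕ → α) (n : ℕ) (fl : Bool) (o e nn : ℂ) :
    Prop where
  ne : e ≠ 0
  perp : nn = I * e ∨ nn = -(I * e)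
  v : ∀ j : ℕ, 1 ≤ j → j + 1 ≤ n → p (φ j) = o + j * e + (j % 2 : ℕ) * nn
  h : ∀ j : ℕ, 2 ≤ j → j + 2 ≤ n → p (φ (32 + j)) = o + j * e + (2 - 3 * (j % 2 : ℕ)) * nn
  side : ∀ w, (∀ i < 128, w ≠ φ i) → ∀ j : ℕ, 2 ≤ j → j + 2 ≤ n → adj (φ j) w →
    Ray (p w - p (φ j)) (-(sg j * nn))
  left : fl = true → ∀ w, (∀ i < 128, w ≠ φ i) → adj (φ 1) w → Ray (p w - p (φ 1)) (-e)
  right : fl = true → ∀ w, (∀ i < 128, w ≠ φ i) → adj (φ (n - 1)) w → Ray (p w - p (φ (n - 1))) e

theorem normSq_perp {e nn : ℂ} (h : nn = I * e ∨ nn = -(I * e)) : normSq nn = normSq e := by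
  rcases h with rfl | rfl <;> simp

theorem normSq_diag {e nn σ : ℂ} (h : nn = I * e ∨ nn = -(I * e)) (hσ : Sg σ) :
    normSq (e + σ * nn) = 2 * normSq e := by
  rcases h with rfl | rfl <;> rcases hσ with rfl | rfl <;> simp [normSq_apply] <;> ring

theorem endPort (h : Good adj p) {u a b t x y f1 f2 w : α} {e nn : ℂ} (he : e ≠ 0)
    (hn : nn = I * e ∨ nn = -(I * e)) (k : K4 adj u t a b) (k' : K4 adj u t f1 f2)
    (h1 : a ≠ f1) (h2 : a ≠ f2) (h3 : b ≠ f1) (h4 : b ≠ f2)
    (pa : p a = p u + e - nn) (pb : p b = p u + 2 * e) (pt : p t = p u + e + nn)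
    (ux : adj u x) (uy : adj u y) (hxy : Two p x y (p u - e - nn) (p u - 2 * nn))
    (uw : adj u w) (wa : w ≠ a) (wb : w ≠ b) (wt : w ≠ t) (wx : w ≠ x) (wy : w ≠ y)
    (w1 : w ≠ f1) (w2 : w ≠ f2) : Ray (p w - p u) (-e) := by
  obtain ⟨δ, hδ, t1, t2⟩ := k4_two h k k' h1 h2 h3 h4
  have hN := normSq_pos.2 he
  have hδ' : δ = e - nn := by
    rcases t1 with t1 | t1
    · linear_combination pa - t1.1
    · exfalso
      have e1 : δ = 2 * e := by linear_combination pb - t1.2
      have e2 : normSq δ = normSq (p t - p u) := normSq_perp hδ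
      have e3 : p t - p u = e + 1 * nn := by rw [pt]; ring
      rw [e3, normSq_diag hn (Or.inl rfl), e1, map_mul] at e2
      have : normSq (2 : ℂ) = 4 := by simp; norm_num
      rw [this] at e2
      linarith
  have ang : ∀ c, adj u c → w ≠ c → ∀ z, p c - p u = z → A (p w - p u) z := by
    intro c hc hw z hz; rw [← hz]; exact h.ang u w c uw hc hw
  obtain ⟨c1, hc1, q1⟩ := t2.exists_left
  obtain ⟨c2, hc2, q2⟩ := t2.exists_right
  obtain ⟨c3, hc3, q3⟩ := hxy.exists_left
  obtain ⟨c4, hc4, q4⟩ := hxy.exists_right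
  have af : ∀ c, (c = f1 ∨ c = f2) → adj u c ∧ w ≠ c := by
    rintro c (rfl | rfl); exacts [⟨k'.ac, w1⟩, ⟨k'.ad, w2⟩]
  have ax : ∀ c, (c = x ∨ c = y) → adj u c ∧ w ≠ c := by
    rintro c (rfl | rfl); exacts [⟨ux, wx⟩, ⟨uy, wy⟩]
  refine port (f := nn) (sub_ne_zero.2 (h.ne _ _ uw).symm) (neg_ne_zero.2 he) ?_
    (ang c1 (af c1 hc1).1 (af c1 hc1).2 _ (by rw [q1, hδ']; ring))
    (ang c3 (ax c3 hc3).1 (ax c3 hc3).2 _ (by rw [q3]; ring))
    (ang t k.ab wt _ (by rw [pt]; ring)) (ang a k.ac wa _ (by rw [pa]; ring))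
    (ang c2 (af c2 hc2).1 (af c2 hc2).2 _ (by rw [q2, hδ', pt]; ring))
    (ang c4 (ax c4 hc4).1 (ax c4 hc4).2 _ (by rw [q4]; ring))
    (ang b k.ad wb _ (by rw [pb]; ring))
  rcases hn with rfl | rfl
  · right; ring
  · left; ring

theorem ruler (h : Good adj p) (φ : ℕ → α) (hφ : ∀ i < 128, ∀ j < 128, φ i = φ j → i = j) (n : ℕ)
    (fl : Bool) (hn : 4 ≤ n) (hn' : n ≤ 30) (hE : ∀ e ∈ rEdges n fl, adj (φ e.1) (φ e.2)) :
    ∃ o e nn, Frame adj p φ n fl o e nn := by
  have ne : ∀ i j, i < 128 → j < 128 → i ≠ j → φ i ≠ φ j := fun i j hi hj hij he => hij (hφ i hi j hj he)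
  have E1 : ∀ j, j + 1 ≤ n → adj (φ j) (φ (j + 1)) := by
    intro j hj
    apply hE (j, j + 1)
    simp only [rEdges, List.mem_append, List.mem_map, List.mem_range]
    exact Or.inl (Or.inl ⟨j, hj, rfl⟩)
  have E2 : ∀ j, j + 2 ≤ n → ∀ e ∈ [(j, j + 2), (j, 33 + j), (j + 1, 33 + j), (j + 2, 33 + j)],
      adj (φ e.1) (φ e.2) := by
    intro j hj e he
    apply hE e
    simp only [rEdges, List.mem_append, List.mem_flatMap, List.mem_range]
    exact Or.inl (Or.inr ⟨j, by omega, he⟩)
  have K : ∀ j, j + 2 ≤ n → K4 adj (φ j) (φ (j + 1)) (φ (j + 2)) (φ (33 + j)) := fun j hj =>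
    ⟨E1 j (by omega), E2 j hj (j, j + 2) (by simp), E2 j hj (j, 33 + j) (by simp), E1 (j + 1) hj,
      E2 j hj (j + 1, 33 + j) (by simp), E2 j hj (j + 2, 33 + j) (by simp)⟩
  have S : ∀ j, j + 3 ≤ n → ∃ δ, (δ = I * (p (φ (j + 2)) - p (φ (j + 1))) ∨
      δ = -(I * (p (φ (j + 2)) - p (φ (j + 1))))) ∧
      Two p (φ j) (φ (33 + j)) (p (φ (j + 1)) + δ) (p (φ (j + 2)) + δ) ∧
      Two p (φ (j + 3)) (φ (34 + j)) (p (φ (j + 1)) - δ) (p (φ (j + 2)) - δ) := by
    intro j hj
    have k2 := K (j + 1) (by omega)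
    rw [show 33 + (j + 1) = 34 + j by ring] at k2
    exact k4_two h (((K j (by omega)).swap12 h).swap23 h) k2
      (ne _ _ (by omega) (by omega) (by omega)) (ne _ _ (by omega) (by omega) (by omega))
      (ne _ _ (by omega) (by omega) (by omega)) (ne _ _ (by omega) (by omega) (by omega))
  obtain ⟨δ0, hδ0, t0, t0'⟩ := S 0 (by omega)
  simp only [zero_add, add_zero] at hδ0 t0 t0'
  set s := p (φ 2) - p (φ 1) with hs
  have hs0 : s ≠ 0 := sub_ne_zero.2 (h.ne _ _ (E1 1 (by omega))).symm
  set e := (s - δ0) / 2 with he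
  set nn := -(s + δ0) / 2 with hnn
  have hI : I * I = -1 := I_mul_I
  have perp : nn = I * e ∨ nn = -(I * e) := by
    rcases hδ0 with h0 | h0
    · right; rw [hnn, he, h0]; linear_combination (-s / 2) * hI
    · left; rw [hnn, he, h0]; linear_combination (-s / 2) * hI
  have he0 : e ≠ 0 := by
    intro h0
    have : nn = 0 := by rcases perp with q | q <;> rw [q, h0] <;> simp
    apply hs0
    linear_combination h0 - this - he + hnn
  have hN := normSq_pos.2 he0
  have n2 : normSq (2 : ℂ) = 4 := by simp; norm_num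
  have C : ∀ j, j + 3 ≤ n → p (φ (j + 2)) = p (φ (j + 1)) + e - sg j * nn ∧
      Two p (φ j) (φ (33 + j)) (p (φ (j + 1)) - e - sg j * nn) (p (φ (j + 1)) - 2 * (sg j * nn)) ∧
      Two p (φ (j + 3)) (φ (34 + j)) (p (φ (j + 1)) + e + sg j * nn) (p (φ (j + 1)) + 2 * e) := by
    intro j
    induction j with
    | zero =>
      intro _
      have s0 : sg 0 = 1 := by simp [sg]
      simp only [zero_add, add_zero, s0]
      refine ⟨by rw [he, hnn, hs]; ring, ?_, ?_⟩
      · convert t0 using 1
        · rw [he, hnn]; ring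
        · rw [hnn, hs]; ring
      · convert t0' using 1
        · rw [he, hnn]; ring
        · rw [he, hs]; ring
    | succ j ih =>
      intro hj
      obtain ⟨c1, -, c3⟩ := ih (by omega)
      obtain ⟨δ, hδ, t, t'⟩ := S (j + 1) hj
      have hσ := sg_sg j
      rw [sg_succ]
      set σ := sg j
      rw [show j + 1 + 1 = j + 2 by ring, show j + 1 + 2 = j + 3 by ring] at *
      have N := normSq_perp hδ
      have N1 := normSq_diag perp hσ
      have N2 := normSq_diag perp hσ.neg
      have N3 : normSq (2 * (σ * nn)) = 4 * normSq e := by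
        rw [map_mul, map_mul, n2, normSq_perp perp]
        rcases hσ with q | q <;> simp [q]
      rcases c3 with c3 | c3
      · exfalso
        have b1 : p (φ (j + 3)) - p (φ (j + 2)) = 2 * (σ * nn) := by linear_combination c3.1 - c1
        rw [b1, N3] at N
        rcases t with t | t
        · have : δ = -(e + -σ * nn) := by linear_combination -t.1 - c1
          rw [this, normSq_neg, N2] at N; linarith
        · have : δ = -(e + σ * nn) := by linear_combination -t.1 - c3.1
          rw [this, normSq_neg, N1] at N; linarith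
      · have b1 : p (φ (j + 3)) - p (φ (j + 2)) = e + σ * nn := by linear_combination c3.1 - c1
        have hd : δ = -e + σ * nn := by
          rcases t with t | t
          · linear_combination -t.1 - c1
          · exfalso
            have : δ = -(2 * e) := by linear_combination -t.1 - c3.1
            rw [this, normSq_neg, map_mul, n2, b1, N1] at N; linarith
        refine ⟨by linear_combination b1, ?_, ?_⟩
        · convert t using 1
          · rw [hd]; ring
          · rw [hd]; linear_combination -b1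
        · convert t' using 1
          · rw [hd]; ring
          · rw [hd]; linear_combination -b1
  set o := p (φ 1) - e - nn with ho
  have V : ∀ j : ℕ, j + 2 ≤ n → p (φ (j + 1)) = o + (j + 1) * e + (1 + sg j) / 2 * nn := by
    intro j
    induction j with
    | zero => intro _; simp [sg, ho]; ring
    | succ j ih =>
      intro hj
      rw [(C j (by omega)).1, ih (by omega), sg_succ]; push_cast; ring
  have Hh : ∀ j : ℕ, j + 4 ≤ n → p (φ (34 + j)) = p (φ (j + 1)) + e + sg j * nn := by
    intro j hj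
    rcases (C j (by omega)).2.2 with c | c
    · exfalso
      have c1 := (C (j + 1) (by omega)).1
      have c2 := (C j (by omega)).1
      rw [sg_succ] at c1
      have : e + -sg j * nn = 0 := by linear_combination c.1 - c1 - c2
      have N2 := normSq_diag perp (sg_sg j).neg
      rw [this, map_zero] at N2; linarith
    · exact c.2
  have two_adj : ∀ {u x y w : α} {z z' : ℂ}, Two p x y z z' → adj u x → adj u y → adj u w → w ≠ x →
      w ≠ y → A (p w - p u) (z - p u) ∧ A (p w - p u) (z' - p u) := by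
    intro u x y w z z' t hx hy hw h1 h2
    rcases t with t | t
    · exact ⟨t.1 ▸ h.ang u w x hw hx h1, t.2 ▸ h.ang u w y hw hy h2⟩
    · exact ⟨t.2 ▸ h.ang u w y hw hy h2, t.1 ▸ h.ang u w x hw hx h1⟩
  have F : fl = true → ∀ e ∈ [(1, 64), (1, 65), (34, 64), (34, 65), (64, 65), (n - 1, 66), (n - 1, 67),
      (30 + n, 66), (30 + n, 67), (66, 67)], adj (φ e.1) (φ e.2) := by
    intro hf e he
    apply hE e
    simp only [rEdges, List.mem_append, hf, if_true]
    exact Or.inr he
  refine ⟨o, e, nn, he0, perp, ?_, ?_, ?_, ?_, ?_⟩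
  · intro j h1 h2
    obtain ⟨j, rfl⟩ : ∃ i, j = i + 1 := ⟨j - 1, by omega⟩
    rw [V j h2, sg_cast, sg_succ]; push_cast; ring
  · intro j h1 h2
    obtain ⟨j, rfl⟩ : ∃ i, j = i + 2 := ⟨j - 2, by omega⟩
    rw [show 32 + (j + 2) = 34 + j by ring, Hh j (by omega), V j (by omega), sg_cast, sg_succ, sg_succ]
    push_cast; ring
  · intro w hw j h1 h2 hadj
    obtain ⟨j, rfl⟩ : ∃ i, j = i + 2 := ⟨j - 2, by omega⟩
    obtain ⟨c1, c2, -⟩ := C j (by omega)
    obtain ⟨d1, -, d3⟩ := C (j + 1) (by omega)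
    have c4 := Hh j (by omega)
    rw [sg_succ] at d1 d3
    rw [sg_succ, sg_succ, neg_neg]
    have hσ := sg_sg j
    set σ := sg j
    rw [show j + 1 + 1 = j + 2 by ring, show j + 1 + 2 = j + 3 by ring,
      show j + 1 + 3 = j + 4 by ring, show 34 + (j + 1) = 35 + j by ring] at *
    have k0 := K j (by omega)
    have k1 := K (j + 1) (by omega)
    have k2 := K (j + 2) (by omega)
    rw [show 33 + (j + 1) = 34 + j by ring] at k1
    rw [show 33 + (j + 2) = 35 + j by ring] at k2
    have a1 := two_adj c2 (h.symm _ _ k0.ac) k0.cd hadj (hw _ (by omega)) (hw _ (by omega))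
    have a2 := two_adj d3 k2.ac k2.ad hadj (hw _ (by omega)) (hw _ (by omega))
    have a3 := h.ang _ _ _ hadj (h.symm _ _ k0.bc) (hw _ (by omega))
    have a4 := h.ang _ _ _ hadj k2.ab (hw _ (by omega))
    have a5 := h.ang _ _ _ hadj k1.bd (hw _ (by omega))
    have hd : σ * nn ≠ 0 := by
      intro h0
      have : normSq nn = 0 := by
        rcases hσ with q | q <;> simpa [q] using h0
      rw [normSq_perp perp] at this; linarith
    refine port (f := e) (sub_ne_zero.2 (h.ne _ _ hadj).symm) (neg_ne_zero.2 hd) ?_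
      (by convert a2.1 using 1; ring) (by convert a1.2 using 1; rw [c1]; ring)
      (by convert a4 using 1; rw [d1]; ring) (by convert a3 using 1; rw [c1]; ring)
      (by convert a2.2 using 1; ring) (by convert a1.1 using 1; rw [c1]; ring)
      (by convert a5 using 1; rw [c4, c1]; ring)
    rcases perp with q | q <;> rcases hσ with r | r <;> rw [r, q]
    · left; linear_combination e * hI
    · right; linear_combination e * hI
    · right; linear_combination e * hI
    · left; linear_combination e * hI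
  · intro hf w hw hadj
    have F := F hf
    obtain ⟨c1, c2, -⟩ := C 0 (by omega)
    have d1 := (C 1 (by omega)).1
    have c4 := Hh 0 (by omega)
    have s0 : sg 0 = 1 := by simp [sg]
    have s1 : sg 1 = -1 := by simp [sg]
    have k0 := K 0 (by omega)
    have k1 := K 1 (by omega)
    simp only [s0, s1, zero_add, add_zero, one_mul, Nat.reduceAdd] at c1 c2 d1 c4 k0 k1
    exact endPort h he0 perp (k1.swap34 h |>.swap23 h)
      ⟨k1.ad, F (1, 64) (by simp), F (1, 65) (by simp), F (34, 64) (by simp), F (34, 65) (by simp),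
        F (64, 65) (by simp)⟩
      (ne _ _ (by omega) (by omega) (by omega)) (ne _ _ (by omega) (by omega) (by omega))
      (ne _ _ (by omega) (by omega) (by omega)) (ne _ _ (by omega) (by omega) (by omega))
      c1 (by rw [d1, c1]; ring) c4 (h.symm _ _ k0.ab) k0.bd c2 hadj
      (hw _ (by omega)) (hw _ (by omega)) (hw _ (by omega)) (hw _ (by omega)) (hw _ (by omega))
      (hw _ (by omega)) (hw _ (by omega))
  · intro hf w hw hadj
    have F := F hf
    obtain ⟨j, rfl⟩ : ∃ i, n = i + 4 := ⟨n - 4, by omega⟩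
    obtain ⟨c1, -, -⟩ := C j (by omega)
    obtain ⟨d1, -, d3⟩ := C (j + 1) (by omega)
    have c4 := Hh j (by omega)
    rw [sg_succ] at d1 d3
    have hσ := sg_sg j
    set σ := sg j
    have k1 := K (j + 1) (by omega)
    have k2 := K (j + 2) (by omega)
    rw [show j + 1 + 1 = j + 2 by ring, show j + 1 + 2 = j + 3 by ring,
      show j + 1 + 3 = j + 4 by ring, show 34 + (j + 1) = 35 + j by ring,
      show 33 + (j + 1) = 34 + j by ring, show 33 + (j + 2) = 35 + j by ring,
      show j + 4 - 1 = j + 3 by omega, show 30 + (j + 4) = 34 + j by ring,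
      show j + 2 + 1 = j + 3 by ring, show j + 2 + 2 = j + 4 by ring] at *
    have := endPort (e := -e) (nn := σ * nn) (u := φ (j + 3)) (a := φ (j + 2)) (b := φ (j + 1))
      (t := φ (34 + j)) (x := φ (j + 4)) (y := φ (35 + j)) (f1 := φ 66) (f2 := φ 67) (w := w)
      h (neg_ne_zero.2 he0) ?_
      ⟨k1.cd, h.symm _ _ k1.bc, h.symm _ _ k1.ac, h.symm _ _ k1.bd, h.symm _ _ k1.ad, h.symm _ _ k1.ab⟩
      ⟨k1.cd, F (j + 3, 66) (by simp), F (j + 3, 67) (by simp), F (34 + j, 66) (by simp),
        F (34 + j, 67) (by simp), F (66, 67) (by simp)⟩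
      (ne _ _ (by omega) (by omega) (by omega)) (ne _ _ (by omega) (by omega) (by omega))
      (ne _ _ (by omega) (by omega) (by omega)) (ne _ _ (by omega) (by omega) (by omega))
      (by rw [d1]; ring) (by rw [d1, c1]; ring) (by rw [c4, d1, c1]; ring) k2.bc k2.bd
      (by
        refine Two.swap ?_
        convert d3 using 1 <;> rw [d1] <;> ring) hadj
      (hw _ (by omega)) (hw _ (by omega)) (hw _ (by omega)) (hw _ (by omega)) (hw _ (by omega))
      (hw _ (by omega)) (hw _ (by omega))
    · simpa using this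
    · rcases perp with q | q <;> rcases hσ with r | r <;> rw [r, q]
      · right; ring
      · left; ring
      · left; ring
      · right; ring

end Pool.Agent.Lib.MP_a4368a_lc
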