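import Pool.Agent.Lib.MP_a4368a_lc.Graph

/-! Links, wires and normalisation. -/

namespace Pool.Agent.Lib.MP_a4368a_lc

open Complex

def Lnk (P d Q d' : ℂ) : Prop := Ray (Q - P) d ∧ Ray (P - Q) d'

def Wire (P1 P2 d : ℂ) (ρ : ℝ) : Prop := d ≠ 0 ∧ |crs d (P2 - P1)| = ρ * ‖d‖

theorem Lnk.dir {P d Q d' : ℂ} (h : Lnk P d Q d') : ∃ κ : ℝ, 0 < κ ∧ d' = -(κ * d) := by
  obtain ⟨⟨r, hr, h1⟩, ⟨s, hs, h2⟩⟩ := h
  refine ⟨r / s, div_pos hr hs, ?_⟩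
  have : (s : ℂ) ≠ 0 := by exact_mod_cast hs.ne'
  push_cast
  field_simp
  linear_combination -h1 - h2

theorem wire_link {P1 P2 d Q1 Q2 d' : ℂ} {ρ ρ' : ℝ} (h : Wire P1 P2 d ρ) (h' : Wire Q1 Q2 d' ρ')
    (l1 : Lnk P1 d Q1 d') (l2 : Lnk P2 d Q2 d') : ρ = ρ' := by
  obtain ⟨κ, hκ, hd⟩ := l1.dir
  obtain ⟨⟨r, -, h1⟩, -⟩ := l1
  obtain ⟨⟨s, -, h2⟩, -⟩ := l2
  have e1 : Q2 - Q1 = P2 - P1 + (s - r : ℝ) * d := by push_cast; linear_combination h2 - h1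
  have e2 : crs d' (Q2 - Q1) = -(κ * crs d (P2 - P1)) := by
    rw [e1, hd]; simp [crs]; ring
  have e3 : ‖d'‖ = κ * ‖d‖ := by rw [hd]; simp [abs_of_pos hκ]
  have h3 := h'.2
  rw [e2, e3, abs_neg, abs_mul, abs_of_pos hκ, h.2] at h3
  have := mul_pos hκ (norm_pos_iff.2 h.1)
  have h4 : (κ * ‖d‖) * ρ = (κ * ‖d‖) * ρ' := by linarith
  exact mul_left_cancel₀ this.ne' h4

theorem wire_vert {P1 P2 d : ℂ} {ρ : ℝ} (h0 : d.re = 0) (hd : d ≠ 0) (h : |P2.re - P1.re| = ρ) :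
    Wire P1 P2 d ρ := by
  refine ⟨hd, ?_⟩
  have : ‖d‖ = |d.im| := (Complex.abs_im_eq_norm.2 h0).symm
  rw [this, ← h]; simp [crs, h0, abs_mul, mul_comm]

theorem wire_hor {P1 P2 d : ℂ} {ρ : ℝ} (h0 : d.im = 0) (hd : d ≠ 0) (h : |P2.im - P1.im| = ρ) :
    Wire P1 P2 d ρ := by
  refine ⟨hd, ?_⟩
  have : ‖d‖ = |d.re| := (Complex.abs_re_eq_norm.2 h0).symm
  rw [this, ← h]; simp [crs, h0, abs_mul, mul_comm]

theorem Ray.vert {z d : ℂ} (h : Ray z d) (hd : d.re = 0) : z.re = 0 := by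
  obtain ⟨r, -, rfl⟩ := h; simp [hd]

theorem Ray.hor {z d : ℂ} (h : Ray z d) (hd : d.im = 0) : z.im = 0 := by
  obtain ⟨r, -, rfl⟩ := h; simp [hd]

theorem Lnk.vert {P d Q d' : ℂ} (h : Lnk P d Q d') (h0 : d.re = 0) (hd : d ≠ 0) :
    d'.re = 0 ∧ Q.re = P.re ∧ d.im * d'.im < 0 := by
  obtain ⟨κ, hκ, hd'⟩ := h.dir
  have h1 := h.1.vert h0
  have h2 : d.im ≠ 0 := fun h => hd (Complex.ext h0 h)
  refine ⟨by simp [hd', h0], by simpa [sub_eq_zero] using h1, ?_⟩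
  have : d'.im = -(κ * d.im) := by simp [hd']
  rw [this]
  have := mul_pos hκ (mul_self_pos.2 h2)
  linarith

theorem Lnk.hor {P d Q d' : ℂ} (h : Lnk P d Q d') (h0 : d.im = 0) (hd : d ≠ 0) :
    d'.im = 0 ∧ Q.im = P.im ∧ d.re * d'.re < 0 ∧ 0 < (Q.re - P.re) * d.re := by
  obtain ⟨κ, hκ, hd'⟩ := h.dir
  have h1 := h.1.hor h0
  have h2 : d.re ≠ 0 := fun h => hd (Complex.ext h h0)
  refine ⟨by simp [hd', h0], by simpa [sub_eq_zero] using h1, ?_, ?_⟩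
  · have : d'.re = -(κ * d.re) := by simp [hd']
    rw [this]
    have := mul_pos hκ (mul_self_pos.2 h2)
    linarith
  · obtain ⟨r, hr, h3⟩ := h.1
    have : Q.re - P.re = r * d.re := by simpa using congrArg Complex.re h3
    rw [this]
    have := mul_pos hr (mul_self_pos.2 h2)
    linarith

theorem Lnk.symm {P d Q d' : ℂ} (h : Lnk P d Q d') : Lnk Q d' P d := ⟨h.2, h.1⟩

variable {α : Type} {adj : α → α → Prop} {p : α → ℂ}

theorem Good.map (h : Good adj p) {c : ℂ} (hc : c ≠ 0) : Good adj (fun v => c * p v) :=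
  ⟨h.symm, fun u v huv he => h.ne u v huv (mul_left_cancel₀ hc he), fun v a b h1 h2 h3 => by
    have := (A_mul hc _ _).2 (h.ang v a b h1 h2 h3)
    simpa [mul_sub] using this⟩

theorem Ray.map {z d : ℂ} (h : Ray z d) (c : ℂ) : Ray (c * z) (c * d) := by
  obtain ⟨r, hr, rfl⟩ := h; exact ⟨r, hr, by ring⟩

theorem Ray.unmap {z d c : ℂ} (hc : c ≠ 0) (h : Ray (c * z) d) : Ray z (c⁻¹ * d) := by
  have := h.map c⁻¹
  rwa [inv_mul_cancel_left₀ hc] at this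

theorem Frame.map {φ : ℕ → α} {n : ℕ} {fl : Bool} {o e nn c : ℂ} (F : Frame adj p φ n fl o e nn)
    (hc : c ≠ 0) : Frame adj (fun v => c * p v) φ n fl (c * o) (c * e) (c * nn) := by
  refine ⟨mul_ne_zero hc F.ne, ?_, ?_, ?_, ?_, ?_, ?_⟩
  · rcases F.perp with q | q <;> rw [q]
    · left; ring
    · right; ring
  · intro j h1 h2; simp only [F.v j h1 h2]; ring
  · intro j h1 h2; simp only [F.h j h1 h2]; ring
  · intro w hw j h1 h2 ha
    convert (F.side w hw j h1 h2 ha).map c using 1 <;> ring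
  · intro hf w hw ha
    convert (F.left hf w hw ha).map c using 1 <;> ring
  · intro hf w hw ha
    convert (F.right hf w hw ha).map c using 1; ring

theorem wlog_frame {φ : ℕ → α} {n : ℕ} {fl : Bool} (G : (α → ℂ) → Prop)
    (hG : ∀ p c, ‖c‖ = 1 → G (fun v => c * p v) → G p)
    (H : ∀ p, Good adj p → ∀ o e nn, Frame adj p φ n fl o e nn → e.im = 0 → G p)
    (h : Good adj p) (ex : ∃ o e nn, Frame adj p φ n fl o e nn) : G p := by
  obtain ⟨o, e, nn, F⟩ := ex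
  have he : (‖e‖ : ℂ) ≠ 0 := by exact_mod_cast (norm_pos_iff.2 F.ne).ne'
  have hc : ‖(‖e‖ : ℂ) / e‖ = 1 := by
    rw [norm_div]; simp [F.ne]
  have hc0 : (‖e‖ : ℂ) / e ≠ 0 := div_ne_zero he F.ne
  refine hG p _ hc (H _ (h.map hc0) _ _ _ (F.map hc0) ?_)
  rw [div_mul_cancel₀ _ F.ne]; simp

def Out (ψ : ℕ → α) (w : α) : Prop := ∀ i < 1024, w ≠ ψ i

/-- a pair of exact ports with parallel rays at distance `ρ` -/
def Pt (adj : α → α → Prop) (p : α → ℂ) (ψ : ℕ → α) (a b : ℕ) (ρ : ℝ) : Prop :=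
  ∃ d, Wire (p (ψ a)) (p (ψ b)) d ρ ∧ ∀ w, Out ψ w →
    (adj (ψ a) w → Ray (p w - p (ψ a)) d) ∧ (adj (ψ b) w → Ray (p w - p (ψ b)) d)

theorem Pt.unmap {ψ : ℕ → α} {a b : ℕ} {ρ : ℝ} {c : ℂ} (hc : ‖c‖ = 1)
    (h : Pt adj (fun v => c * p v) ψ a b ρ) : Pt adj p ψ a b ρ := by
  have hc0 : c ≠ 0 := by rintro rfl; simp at hc
  obtain ⟨d, ⟨hd, hw⟩, h2⟩ := h
  refine ⟨c⁻¹ * d, ⟨mul_ne_zero (inv_ne_zero hc0) hd, ?_⟩, fun w hw => ⟨fun ha => ?_, fun ha => ?_⟩⟩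
  · have e1 : crs d (c * p (ψ b) - c * p (ψ a)) = crs (c⁻¹ * d) (p (ψ b) - p (ψ a)) := by
      have := crs_mul c (c⁻¹ * d) (p (ψ b) - p (ψ a))
      rw [mul_inv_cancel_left₀ hc0, Complex.normSq_eq_norm_sq, hc, mul_sub] at this
      rw [this]; ring
    rw [← e1, hw]; simp [hc]
  · apply Ray.unmap hc0; rw [mul_sub]; exact (h2 w hw).1 ha
  · apply Ray.unmap hc0; rw [mul_sub]; exact (h2 w hw).2 ha

/-- a tile is present in the graph -/
structure Emb (adj : α → α → Prop) (ψ : ℕ → α) (τ : ℕ) : Prop where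
  inj : ∀ i < 1024, ∀ j < 1024, ψ i = ψ j → i = j
  edge : ∀ e ∈ tileEdges τ, adj (ψ e.1) (ψ e.2)

theorem Emb.frame {ψ : ℕ → α} {τ : ℕ} (E : Emb adj ψ τ) (h : Good adj p) (r n : ℕ) (fl : Bool)
    (hs : ((n, fl), r) ∈ (shape τ).zipIdx) (hr : r < 8) (h4 : 4 ≤ n) (h30 : n ≤ 30) :
    ∃ o e nn, Frame adj p (fun i => ψ (128 * r + i)) n fl o e nn := by
  refine ruler h _ (fun i hi j hj he => ?_) n fl h4 h30 (fun e he => ?_)
  · have := E.inj _ (by omega) _ (by omega) he; omega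
  · apply E.edge (128 * r + e.1, 128 * r + e.2)
    simp only [tileEdges, List.mem_append, List.mem_flatMap, List.mem_map]
    exact Or.inl ⟨_, hs, e, he, rfl⟩

theorem Emb.link {ψ : ℕ → α} {τ : ℕ} (E : Emb adj ψ τ) (a b : ℕ) (h : (a, b) ∈ links τ) :
    adj (ψ a) (ψ b) := E.edge (a, b) (List.mem_append_right _ h)

section
variable {ψ : ℕ → α} {τ r n : ℕ} {fl : Bool} {o e nn : ℂ}

theorem Emb.other (E : Emb adj ψ τ) (r m : ℕ) (hr : r < 8) (hm : m < 1024) (hmr : m / 128 ≠ r) :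
    ∀ i < 128, ψ m ≠ ψ (128 * r + i) := by
  intro i hi he
  have := E.inj _ hm _ (by omega) he; omega

theorem Out.other {w : α} (h : Out ψ w) (r : ℕ) (hr : r < 8) : ∀ i < 128, w ≠ ψ (128 * r + i) :=
  fun i hi => h _ (by omega)

theorem Frame.pv (F : Frame adj p (fun i => ψ (128 * r + i)) n fl o e nn) (a j : ℕ)
    (h : a = 128 * r + j ∧ 1 ≤ j ∧ j + 1 ≤ n) : p (ψ a) = o + j * e + (j % 2 : ℕ) * nn := by
  rw [h.1]; exact F.v j h.2.1 h.2.2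

theorem Frame.ph (F : Frame adj p (fun i => ψ (128 * r + i)) n fl o e nn) (a j : ℕ)
    (h : a = 128 * r + (32 + j) ∧ 2 ≤ j ∧ j + 2 ≤ n) :
    p (ψ a) = o + j * e + (2 - 3 * (j % 2 : ℕ)) * nn := by
  rw [h.1]; exact F.h j h.2.1 h.2.2

theorem Frame.ev (F : Frame adj p (fun i => ψ (128 * r + i)) n fl o e nn) (a j : ℕ)
    (h : a = 128 * r + j ∧ 2 ≤ j ∧ j + 2 ≤ n ∧ j % 2 = 0) {w : α}
    (hw : ∀ i < 128, w ≠ ψ (128 * r + i)) (ha : adj (ψ a) w) : Ray (p w - p (ψ a)) (-nn) := by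
  obtain ⟨rfl, h1, h2, h3⟩ := h
  simpa [sg, h3] using F.side w hw j h1 h2 ha

theorem Frame.od (F : Frame adj p (fun i => ψ (128 * r + i)) n fl o e nn) (a j : ℕ)
    (h : a = 128 * r + j ∧ 2 ≤ j ∧ j + 2 ≤ n ∧ j % 2 = 1) {w : α}
    (hw : ∀ i < 128, w ≠ ψ (128 * r + i)) (ha : adj (ψ a) w) : Ray (p w - p (ψ a)) nn := by
  obtain ⟨rfl, h1, h2, h3⟩ := h
  simpa [sg, h3] using F.side w hw j h1 h2 ha

theorem Frame.le (F : Frame adj p (fun i => ψ (128 * r + i)) n true o e nn) (a : ℕ)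
    (h : a = 128 * r + 1) {w : α}
    (hw : ∀ i < 128, w ≠ ψ (128 * r + i)) (ha : adj (ψ a) w) : Ray (p w - p (ψ a)) (-e) := by
  subst h; exact F.left rfl w hw ha

theorem Frame.ri (F : Frame adj p (fun i => ψ (128 * r + i)) n true o e nn) (a : ℕ)
    (h : a = 128 * r + (n - 1)) {w : α}
    (hw : ∀ i < 128, w ≠ ψ (128 * r + i)) (ha : adj (ψ a) w) : Ray (p w - p (ψ a)) e := by
  subst h; exact F.right rfl w hw ha

end

section
variable {φ : ℕ → α} {n : ℕ} {fl : Bool} {o e nn : ℂ}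

theorem Frame.nne (F : Frame adj p φ n fl o e nn) : nn ≠ 0 := by
  have := F.ne
  rcases F.perp with q | q <;> rw [q] <;> simp [this]

theorem Frame.co (F : Frame adj p φ n fl o e nn) :
    (nn.re = -e.im ∧ nn.im = e.re) ∨ (nn.re = e.im ∧ nn.im = -e.re) := by
  rcases F.perp with q | q <;> rw [q] <;> simp

/-- horizontal ruler -/
theorem Frame.hor (F : Frame adj p φ n fl o e nn) (h : e.im = 0 ∨ nn.re = 0) :
    e.im = 0 ∧ nn.re = 0 ∧ e.re ≠ 0 ∧ (nn.im = e.re ∨ nn.im = -e.re) := by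
  have h0 : e.im = 0 := by rcases F.co with q | q <;> rcases h with h | h <;> linarith [q.1]
  refine ⟨h0, by rcases F.co with q | q <;> linarith [q.1], fun h => F.ne (Complex.ext h h0), ?_⟩
  rcases F.co with q | q
  · exact Or.inl q.2
  · exact Or.inr q.2

/-- vertical ruler -/
theorem Frame.ver (F : Frame adj p φ n fl o e nn) (h : e.re = 0 ∨ nn.im = 0) :
    e.re = 0 ∧ nn.im = 0 ∧ e.im ≠ 0 ∧ (nn.re = e.im ∨ nn.re = -e.im) := by
  have h0 : e.re = 0 := by rcases F.co with q | q <;> rcases h with h | h <;> linarith [q.2]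
  refine ⟨h0, by rcases F.co with q | q <;> linarith [q.2], fun h => F.ne (Complex.ext h0 h), ?_⟩
  rcases F.co with q | q
  · exact Or.inr q.1
  · exact Or.inl q.1

end

end Pool.Agent.Lib.MP_a4368a_lc
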