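import Pool.Agent.Lib.MP_a4368a_lc.SoundBase

/-! What each tile forces. -/

namespace Pool.Agent.Lib.MP_a4368a_lc

open Complex

variable {α : Type} {adj : α → α → Prop} {p : α → ℂ} {ψ : ℕ → α}

theorem Emb.oth {τ : ℕ} (E : Emb adj ψ τ) (r m : ℕ) (h : r < 8 ∧ m < 1024 ∧ m / 128 ≠ r) :
    ∀ i < 128, ψ m ≠ ψ (128 * r + i) := E.other r m h.1 h.2.1 h.2.2

theorem Emb.fr {τ : ℕ} (E : Emb adj ψ τ) (h : Good adj p) (r n : ℕ) (fl : Bool)
    (hs : ((n, fl), r) ∈ (shape τ).zipIdx ∧ r < 8 ∧ 4 ≤ n ∧ n ≤ 30) :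
    ∃ o e nn, Frame adj p (fun i => ψ (128 * r + i)) n fl o e nn :=
  E.frame h r n fl hs.1 hs.2.1 hs.2.2.1 hs.2.2.2

theorem abs_eq_of {x y : ℝ} (h : x = y ∨ x = -y) : |x| = |y| := by
  rcases h with h | h <;> simp [h]

theorem sound_cross (h : Good adj p) (E : Emb adj ψ 0) :
    ∃ ρ ρ', Pt adj p ψ 130 134 ρ ∧ Pt adj p ψ 2 6 ρ ∧ Pt adj p ψ 1 129 ρ' ∧ Pt adj p ψ 7 135 ρ' := by
  refine wlog_frame (fun p => ∃ ρ ρ', Pt adj p ψ 130 134 ρ ∧ Pt adj p ψ 2 6 ρ ∧ Pt adj p ψ 1 129 ρ' ∧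
    Pt adj p ψ 7 135 ρ') ?_ ?_ h (E.fr h 0 8 true (by decide))
  · rintro p c hc ⟨ρ, ρ', a, b, c, d⟩
    exact ⟨ρ, ρ', a.unmap hc, b.unmap hc, c.unmap hc, d.unmap hc⟩
  intro p h o0 e0 n0 F0 h0
  obtain ⟨o1, e1, n1, F1⟩ := E.fr h 1 8 true (by decide)
  have l1 := E.link 3 131 (by decide)
  have l2 := E.link 5 133 (by decide)
  have L1 : Lnk (p (ψ 3)) n0 (p (ψ 131)) n1 := ⟨F0.od 3 3 (by omega) (E.oth 0 131 (by omega)) l1,
    F1.od 131 3 (by omega) (E.oth 1 3 (by omega)) (h.symm _ _ l1)⟩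
  have L2 : Lnk (p (ψ 5)) n0 (p (ψ 133)) n1 := ⟨F0.od 5 5 (by omega) (E.oth 0 133 (by omega)) l2,
    F1.od 133 5 (by omega) (E.oth 1 5 (by omega)) (h.symm _ _ l2)⟩
  obtain ⟨-, a1, a2, a3⟩ := F0.hor (Or.inl h0)
  obtain ⟨b1, b2, b3⟩ := L1.vert a1 F0.nne
  obtain ⟨-, c2, -⟩ := L2.vert a1 F0.nne
  obtain ⟨d0, -, d2, d3⟩ := F1.hor (Or.inr b1)
  rw [F0.pv 3 3 (by omega), F1.pv 131 3 (by omega)] at b2
  rw [F0.pv 5 5 (by omega), F1.pv 133 5 (by omega)] at c2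
  simp [a1, b1] at b2 c2
  have ee : e1 = e0 := Complex.ext (by linarith) (by rw [d0, h0])
  subst ee
  refine ⟨4 * |e1.re|, |(p (ψ 129)).im - (p (ψ 1)).im|,
    ⟨-n1, wire_vert (by simp [b1]) (by simp [F1.nne]) ?_, fun w hw =>
      ⟨F1.ev 130 2 (by omega) (hw.other 1 (by omega)), F1.ev 134 6 (by omega) (hw.other 1 (by omega))⟩⟩,
    ⟨-n0, wire_vert (by simp [a1]) (by simp [F0.nne]) ?_, fun w hw =>
      ⟨F0.ev 2 2 (by omega) (hw.other 0 (by omega)), F0.ev 6 6 (by omega) (hw.other 0 (by omega))⟩⟩,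
    ⟨-e1, wire_hor (by simp [h0]) (by simp [F0.ne]) rfl, fun w hw =>
      ⟨F0.le 1 (by omega) (hw.other 0 (by omega)), F1.le 129 (by omega) (hw.other 1 (by omega))⟩⟩,
    ⟨e1, wire_hor h0 F0.ne ?_, fun w hw =>
      ⟨F0.ri 7 (by omega) (hw.other 0 (by omega)), F1.ri 135 (by omega) (hw.other 1 (by omega))⟩⟩⟩
  · rw [F1.pv 130 2 (by omega), F1.pv 134 6 (by omega)]
    simp; rw [← abs_of_pos (four_pos : (0 : ℝ) < 4), ← abs_mul]; congr 1; ring
  · rw [F0.pv 2 2 (by omega), F0.pv 6 6 (by omega)]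
    simp; rw [← abs_of_pos (four_pos : (0 : ℝ) < 4), ← abs_mul]; congr 1; ring
  · rw [F0.pv 1 1 (by omega), F0.pv 7 7 (by omega), F1.pv 129 1 (by omega), F1.pv 135 7 (by omega)]
    simp [h0]

theorem abs_mul_of {x y k : ℝ} (hk : 0 ≤ k) (h : x = k * y) : |x| = k * |y| := by
  rw [h, abs_mul, abs_of_nonneg hk]

theorem sound_join (h : Good adj p) (E : Emb adj ψ 1) :
    ∃ r, Pt adj p ψ 2 6 (8 * r) ∧ Pt adj p ψ 131 141 (10 * r) ∧ Pt adj p ψ 261 271 (10 * r) := by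
  refine wlog_frame (fun p => ∃ r, Pt adj p ψ 2 6 (8 * r) ∧ Pt adj p ψ 131 141 (10 * r) ∧
    Pt adj p ψ 261 271 (10 * r)) ?_ ?_ h (E.fr h 0 9 true (by decide))
  · rintro p c hc ⟨r, a, b, c⟩
    exact ⟨r, a.unmap hc, b.unmap hc, c.unmap hc⟩
  intro p h o0 e0 n0 F0 h0
  obtain ⟨o1, e1, n1, F1⟩ := E.fr h 1 15 false (by decide)
  obtain ⟨o2, e2, n2, F2⟩ := E.fr h 2 17 false (by decide)
  have l1 := E.link 130 1 (by decide)
  have l2 := E.link 8 258 (by decide)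
  have l3 := E.link 136 266 (by decide)
  have l4 := E.link 138 268 (by decide)
  have L1 : Lnk (p (ψ 1)) (-e0) (p (ψ 130)) (-n1) :=
    ⟨F0.le 1 (by omega) (E.oth 0 130 (by omega)) (h.symm _ _ l1),
      F1.ev 130 2 (by omega) (E.oth 1 1 (by omega)) l1⟩
  have L2 : Lnk (p (ψ 8)) e0 (p (ψ 258)) (-n2) :=
    ⟨F0.ri 8 (by omega) (E.oth 0 258 (by omega)) l2,
      F2.ev 258 2 (by omega) (E.oth 2 8 (by omega)) (h.symm _ _ l2)⟩
  have L3 : Lnk (p (ψ 136)) (-n1) (p (ψ 266)) (-n2) :=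
    ⟨F1.ev 136 8 (by omega) (E.oth 1 266 (by omega)) l3,
      F2.ev 266 10 (by omega) (E.oth 2 136 (by omega)) (h.symm _ _ l3)⟩
  have L4 : Lnk (p (ψ 138)) (-n1) (p (ψ 268)) (-n2) :=
    ⟨F1.ev 138 10 (by omega) (E.oth 1 268 (by omega)) l4,
      F2.ev 268 12 (by omega) (E.oth 2 138 (by omega)) (h.symm _ _ l4)⟩
  obtain ⟨-, a1, a2, a3⟩ := F0.hor (Or.inl h0)
  obtain ⟨b1, b2, -⟩ := L1.hor (by simp [h0]) (by simp [F0.ne])
  obtain ⟨c1, c2, -⟩ := L2.hor h0 F0.ne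
  obtain ⟨d0, d1, d2, d3⟩ := F1.ver (Or.inr (by simpa using b1))
  obtain ⟨f0, f1, f2, f3⟩ := F2.ver (Or.inr (by simpa using c1))
  obtain ⟨-, g2, -⟩ := L3.hor (by simp [d1]) (by simp [F1.nne])
  obtain ⟨-, i2, -⟩ := L4.hor (by simp [d1]) (by simp [F1.nne])
  rw [F0.pv 1 1 (by omega), F1.pv 130 2 (by omega)] at b2
  rw [F0.pv 8 8 (by omega), F2.pv 258 2 (by omega)] at c2
  rw [F1.pv 136 8 (by omega), F2.pv 266 10 (by omega)] at g2
  rw [F1.pv 138 10 (by omega), F2.pv 268 12 (by omega)] at i2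
  simp [h0, d1, f1] at b2 c2 g2 i2
  have k1 : e2.im = e1.im := by linarith
  have k2 : |e0.re| = 2 * |e1.im| := by
    rw [← abs_eq_of a3]; exact abs_mul_of (by norm_num) (by linarith)
  refine ⟨|e1.im|,
    ⟨-n0, wire_vert (by simp [a1]) (by simp [F0.nne]) ?_, fun w hw =>
      ⟨F0.ev 2 2 (by omega) (hw.other 0 (by omega)), F0.ev 6 6 (by omega) (hw.other 0 (by omega))⟩⟩,
    ⟨n1, wire_hor d1 F1.nne ?_, fun w hw =>
      ⟨F1.od 131 3 (by omega) (hw.other 1 (by omega)), F1.od 141 13 (by omega) (hw.other 1 (by omega))⟩⟩,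
    ⟨n2, wire_hor f1 F2.nne ?_, fun w hw =>
      ⟨F2.od 261 5 (by omega) (hw.other 2 (by omega)), F2.od 271 15 (by omega) (hw.other 2 (by omega))⟩⟩⟩
  · rw [F0.pv 2 2 (by omega), F0.pv 6 6 (by omega)]
    rw [abs_mul_of (k := 4) (y := e0.re) (by norm_num) (by simp; ring), k2]; ring
  · rw [F1.pv 131 3 (by omega), F1.pv 141 13 (by omega)]
    exact abs_mul_of (by norm_num) (by simp; ring)
  · rw [F2.pv 261 5 (by omega), F2.pv 271 15 (by omega), ← k1]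
    exact abs_mul_of (by norm_num) (by simp; ring)

/-- what a gadget forces -/
def GOut (adj : α → α → Prop) (ψ : ℕ → α) (k τ : ℕ) (p : α → ℂ) : Prop :=
  ∃ a b c : ℝ, 0 < a ∧ 0 < b ∧ 0 < c ∧ Rel k a b c ∧ Pt adj p ψ (pN τ 0) (pN τ 1) (8 * a) ∧
    Pt adj p ψ (pN τ 2) (pN τ 3) (8 * b) ∧ Pt adj p ψ (pN τ 4) (pN τ 5) (8 * c)

theorem GOut.unmap {k τ : ℕ} (p : α → ℂ) (c : ℂ) (hc : ‖c‖ = 1)
    (h : GOut adj ψ k τ (fun v => c * p v)) : GOut adj ψ k τ p := by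
  obtain ⟨a, b, c, h1, h2, h3, h4, h5, h6, h7⟩ := h
  exact ⟨a, b, c, h1, h2, h3, h4, h5.unmap hc, h6.unmap hc, h7.unmap hc⟩

theorem sound_mid (h : Good adj p) (E : Emb adj ψ 2) : GOut adj ψ 0 2 p := by
  refine wlog_frame (GOut adj ψ 0 2) GOut.unmap ?_ h (E.fr h 0 8 true (by decide))
  intro p h o0 e0 n0 F0 h0
  obtain ⟨o1, e1, n1, F1⟩ := E.fr h 1 20 false (by decide)
  obtain ⟨o2, e2, n2, F2⟩ := E.fr h 2 15 false (by decide)
  obtain ⟨o3, e3, n3, F3⟩ := E.fr h 3 6 true (by decide)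
  have l1 := E.link 3 130 (by decide)
  have l2 := E.link 6 258 (by decide)
  have l3 := E.link 7 387 (by decide)
  have l4 := E.link 136 385 (by decide)
  have l5 := E.link 389 264 (by decide)
  have L1 : Lnk (p (ψ 3)) n0 (p (ψ 130)) (-n1) :=
    ⟨F0.od 3 3 (by omega) (E.oth 0 130 (by omega)) l1,
      F1.ev 130 2 (by omega) (E.oth 1 3 (by omega)) (h.symm _ _ l1)⟩
  have L2 : Lnk (p (ψ 6)) (-n0) (p (ψ 258)) (-n2) :=
    ⟨F0.ev 6 6 (by omega) (E.oth 0 258 (by omega)) l2,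
      F2.ev 258 2 (by omega) (E.oth 2 6 (by omega)) (h.symm _ _ l2)⟩
  have L3 : Lnk (p (ψ 7)) e0 (p (ψ 387)) n3 :=
    ⟨F0.ri 7 (by omega) (E.oth 0 387 (by omega)) l3,
      F3.od 387 3 (by omega) (E.oth 3 7 (by omega)) (h.symm _ _ l3)⟩
  have L4 : Lnk (p (ψ 136)) (-n1) (p (ψ 385)) (-e3) :=
    ⟨F1.ev 136 8 (by omega) (E.oth 1 385 (by omega)) l4,
      F3.le 385 (by omega) (E.oth 3 136 (by omega)) (h.symm _ _ l4)⟩
  have L5 : Lnk (p (ψ 264)) (-n2) (p (ψ 389)) e3 :=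
    ⟨F2.ev 264 8 (by omega) (E.oth 2 389 (by omega)) (h.symm _ _ l5),
      F3.ri 389 (by omega) (E.oth 3 264 (by omega)) l5⟩
  obtain ⟨-, a1, a2, a3⟩ := F0.hor (Or.inl h0)
  obtain ⟨b1, b2, -⟩ := L1.vert a1 F0.nne
  obtain ⟨c1, c2, -⟩ := L2.vert (by simp [a1]) (by simp [F0.nne])
  obtain ⟨d1, -, -, d2⟩ := L3.hor h0 F0.ne
  obtain ⟨f0, f1, f2, -⟩ := F1.hor (Or.inr (by simpa using b1))
  obtain ⟨g0, g1, g2, -⟩ := F2.hor (Or.inr (by simpa using c1))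
  obtain ⟨i0, -, -, -⟩ := F3.ver (Or.inr d1)
  obtain ⟨-, j2, -⟩ := L4.vert (by simp [f1]) (by simp [F1.nne])
  obtain ⟨-, k2, -⟩ := L5.vert (by simp [g1]) (by simp [F2.nne])
  rw [F0.pv 3 3 (by omega), F1.pv 130 2 (by omega)] at b2
  rw [F0.pv 6 6 (by omega), F2.pv 258 2 (by omega)] at c2
  rw [F0.pv 7 7 (by omega), F3.pv 387 3 (by omega)] at d2
  rw [F1.pv 136 8 (by omega), F3.pv 385 1 (by omega)] at j2
  rw [F2.pv 264 8 (by omega), F3.pv 389 5 (by omega)] at k2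
  simp [a1, f1, g1, i0] at b2 c2 d2 j2 k2
  have q1 : 6 * e1.re = 3 * e0.re + 6 * e2.re := by linarith
  have q2 : 0 < (6 * e1.re - 4 * e0.re) * e0.re := by
    have : o3.re + n3.re - (o0.re + 7 * e0.re) = 6 * e1.re - 4 * e0.re := by linarith
    rwa [this] at d2
  have q3 : |e0.re| / 4 + |e2.re| / 2 = 2 * (|e1.re| / 4) := by
    rcases lt_or_gt_of_ne a2 with s | s
    · have : 6 * e1.re - 4 * e0.re < 0 := by by_contra hc; nlinarith
      rw [abs_of_neg s, abs_of_neg (by linarith), abs_of_neg (by linarith)]; linarith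
    · have : 0 < 6 * e1.re - 4 * e0.re := by by_contra hc; nlinarith
      rw [abs_of_pos s, abs_of_pos (by linarith), abs_of_pos (by linarith)]; linarith
  refine ⟨|e0.re| / 4, |e2.re| / 2, |e1.re| / 4, by positivity, by positivity, by positivity,
    by simpa [Rel] using q3,
    ⟨-n0, wire_vert (by simp [a1]) (by simp [F0.nne]) ?_, fun w hw =>
      ⟨F0.ev 2 2 (by omega) (hw.other 0 (by omega)), F0.ev 4 4 (by omega) (hw.other 0 (by omega))⟩⟩,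
    ⟨n2, wire_vert g1 F2.nne ?_, fun w hw =>
      ⟨F2.od 265 9 (by omega) (hw.other 2 (by omega)), F2.od 269 13 (by omega) (hw.other 2 (by omega))⟩⟩,
    ⟨-n1, wire_vert (by simp [f1]) (by simp [F1.nne]) ?_, fun w hw =>
      ⟨F1.ev 144 16 (by omega) (hw.other 1 (by omega)), F1.ev 146 18 (by omega) (hw.other 1 (by omega))⟩⟩⟩
  · rw [F0.pv (pN 2 0) 2 (by decide), F0.pv (pN 2 1) 4 (by decide)]
    rw [abs_mul_of (k := 2) (y := e0.re) (by norm_num) (by simp; ring)]; ring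
  · rw [F2.pv (pN 2 2) 9 (by decide), F2.pv (pN 2 3) 13 (by decide)]
    rw [abs_mul_of (k := 4) (y := e2.re) (by norm_num) (by simp; ring)]; ring
  · rw [F1.pv (pN 2 4) 16 (by decide), F1.pv (pN 2 5) 18 (by decide)]
    rw [abs_mul_of (k := 2) (y := e1.re) (by norm_num) (by simp; ring)]; ring

theorem same_sign {x y s : ℝ} (h1 : x * s < 0) (h2 : y * s < 0) :
    (0 < x ∧ 0 < y) ∨ (x < 0 ∧ y < 0) := by
  rcases lt_trichotomy s 0 with h | h | h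
  · left; constructor <;> by_contra hc <;> nlinarith
  · simp [h] at h1
  · right; constructor <;> by_contra hc <;> nlinarith

theorem sound_neq (h : Good adj p) (E : Emb adj ψ 4) (k : ℕ) (hk0 : k ≠ 0) (hk1 : k ≠ 1) :
    GOut adj ψ k 4 p := by
  refine wlog_frame (GOut adj ψ k 4) GOut.unmap ?_ h (E.fr h 0 8 true (by decide))
  intro p h o0 e0 n0 F0 h0
  obtain ⟨o1, e1, n1, F1⟩ := E.fr h 1 22 true (by decide)
  obtain ⟨o2, e2, n2, F2⟩ := E.fr h 2 5 false (by decide)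
  obtain ⟨o3, e3, n3, F3⟩ := E.fr h 3 16 false (by decide)
  obtain ⟨o4, e4, n4, F4⟩ := E.fr h 4 6 false (by decide)
  have l1 := E.link 386 129 (by decide)
  have l2 := E.link 398 1 (by decide)
  have l3 := E.link 3 130 (by decide)
  have l4 := E.link 132 258 (by decide)
  have l5 := E.link 259 5 (by decide)
  have L1 : Lnk (p (ψ 129)) (-e1) (p (ψ 386)) (-n3) :=
    ⟨F1.le 129 (by omega) (E.oth 1 386 (by omega)) (h.symm _ _ l1),
      F3.ev 386 2 (by omega) (E.oth 3 129 (by omega)) l1⟩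
  have L2 : Lnk (p (ψ 1)) (-e0) (p (ψ 398)) (-n3) :=
    ⟨F0.le 1 (by omega) (E.oth 0 398 (by omega)) (h.symm _ _ l2),
      F3.ev 398 14 (by omega) (E.oth 3 1 (by omega)) l2⟩
  have L3 : Lnk (p (ψ 3)) n0 (p (ψ 130)) (-n1) :=
    ⟨F0.od 3 3 (by omega) (E.oth 0 130 (by omega)) l3,
      F1.ev 130 2 (by omega) (E.oth 1 3 (by omega)) (h.symm _ _ l3)⟩
  have L4 : Lnk (p (ψ 132)) (-n1) (p (ψ 258)) (-n2) :=
    ⟨F1.ev 132 4 (by omega) (E.oth 1 258 (by omega)) l4,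
      F2.ev 258 2 (by omega) (E.oth 2 132 (by omega)) (h.symm _ _ l4)⟩
  have L5 : Lnk (p (ψ 5)) n0 (p (ψ 259)) n2 :=
    ⟨F0.od 5 5 (by omega) (E.oth 0 259 (by omega)) (h.symm _ _ l5),
      F2.od 259 3 (by omega) (E.oth 2 5 (by omega)) l5⟩
  obtain ⟨-, a1, a2, a3⟩ := F0.hor (Or.inl h0)
  obtain ⟨b1, b2, -⟩ := L3.vert a1 F0.nne
  obtain ⟨f0, f1, f2, -⟩ := F1.hor (Or.inr (by simpa using b1))
  obtain ⟨-, -, c3, -⟩ := L1.hor (by simp [f0]) (by simp [F1.ne])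
  obtain ⟨-, -, d3, -⟩ := L2.hor (by simp [h0]) (by simp [F0.ne])
  obtain ⟨g1, g2, -⟩ := L5.vert a1 F0.nne
  obtain ⟨i0, -, i2, -⟩ := F2.hor (Or.inr g1)
  obtain ⟨-, j2, -⟩ := L4.vert (by simp [f1]) (by simp [F1.nne])
  rw [F0.pv 3 3 (by omega), F1.pv 130 2 (by omega)] at b2
  rw [F0.pv 5 5 (by omega), F2.pv 259 3 (by omega)] at g2
  rw [F1.pv 132 4 (by omega), F2.pv 258 2 (by omega)] at j2
  simp [a1, f1, g1] at b2 g2 j2 c3 d3
  have q1 : 2 * e0.re = 2 * e1.re + e2.re := by linarith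
  have q3 : |e0.re| / 2 ≠ |e1.re| / 2 := by
    intro hc
    apply i2
    rcases same_sign c3 d3 with s | s
    · rw [abs_of_pos s.1, abs_of_pos s.2] at hc; linarith
    · rw [abs_of_neg s.1, abs_of_neg s.2] at hc; linarith
  have n4p : 0 < ‖e4‖ := norm_pos_iff.2 F4.ne
  refine ⟨|e0.re| / 2, |e1.re| / 2, ‖e4‖ / 4, by positivity, by positivity, by positivity,
    by simpa [Rel, hk0, hk1] using q3,
    ⟨-n0, wire_vert (by simp [a1]) (by simp [F0.nne]) ?_, fun w hw =>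
      ⟨F0.ev 2 2 (by omega) (hw.other 0 (by omega)), F0.ev 6 6 (by omega) (hw.other 0 (by omega))⟩⟩,
    ⟨-n1, wire_vert (by simp [f1]) (by simp [F1.nne]) ?_, fun w hw =>
      ⟨F1.ev 144 16 (by omega) (hw.other 1 (by omega)), F1.ev 148 20 (by omega) (hw.other 1 (by omega))⟩⟩,
    ⟨-n4, ⟨by simp [F4.nne], ?_⟩, fun w hw =>
      ⟨F4.ev 514 2 (by omega) (hw.other 4 (by omega)), F4.ev 516 4 (by omega) (hw.other 4 (by omega))⟩⟩⟩
  · rw [F0.pv (pN 4 0) 2 (by decide), F0.pv (pN 4 1) 6 (by decide)]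
    rw [abs_mul_of (k := 4) (y := e0.re) (by norm_num) (by simp; ring)]; ring
  · rw [F1.pv (pN 4 2) 16 (by decide), F1.pv (pN 4 3) 20 (by decide)]
    rw [abs_mul_of (k := 4) (y := e1.re) (by norm_num) (by simp; ring)]; ring
  · rw [F4.pv (pN 4 4) 2 (by decide), F4.pv (pN 4 5) 4 (by decide)]
    have N : ‖e4‖ * ‖e4‖ = e4.re * e4.re + e4.im * e4.im := by
      rw [← Complex.normSq_apply, Complex.normSq_eq_norm_sq]; ring
    have N2 : ‖-n4‖ = ‖e4‖ := by rcases F4.perp with q | q <;> simp [q]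
    rw [N2]
    have : |crs (-n4) (o4 + (4 : ℕ) * e4 + (4 % 2 : ℕ) * n4 - (o4 + (2 : ℕ) * e4 + (2 % 2 : ℕ) * n4))| =
        |2 * (‖e4‖ * ‖e4‖)| := by
      apply abs_eq_of
      rw [N]
      rcases F4.perp with q | q
      · left; simp [q, crs]; ring
      · right; simp [q, crs]; ring
    rw [this, abs_of_pos (by positivity)]; ring

theorem sound_quad (h : Good adj p) (E : Emb adj ψ 3) : GOut adj ψ 1 3 p := by
  refine wlog_frame (GOut adj ψ 1 3) GOut.unmap ?_ h (E.fr h 0 9 true (by decide))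
  intro p h o0 e0 n0 F0 h0
  obtain ⟨o1, e1, n1, F1⟩ := E.fr h 1 26 false (by decide)
  obtain ⟨o2, e2, n2, F2⟩ := E.fr h 2 12 false (by decide)
  obtain ⟨o3, e3, n3, F3⟩ := E.fr h 3 6 true (by decide)
  obtain ⟨o4, e4, n4, F4⟩ := E.fr h 4 26 false (by decide)
  obtain ⟨o5, e5, n5, F5⟩ := E.fr h 5 12 true (by decide)
  obtain ⟨o6, e6, n6, F6⟩ := E.fr h 6 10 false (by decide)
  have l1 := E.link 266 1 (by decide)
  have l2 := E.link 8 151 (by decide)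
  have l3 := E.link 258 141 (by decide)
  have l4 := E.link 260 143 (by decide)
  have l5 := E.link 130 385 (by decide)
  have l8 := E.link 152 641 (by decide)
  have l11 := E.link 386 514 (by decide)
  have l12 := E.link 388 516 (by decide)
  have l14 := E.link 524 650 (by decide)
  have L1 : Lnk (p (ψ 1)) (-e0) (p (ψ 266)) (-n2) :=
    ⟨F0.le 1 (by omega) (E.oth 0 266 (by omega)) (h.symm _ _ l1),
      F2.ev 266 10 (by omega) (E.oth 2 1 (by omega)) l1⟩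
  have L2 : Lnk (p (ψ 8)) e0 (p (ψ 151)) n1 :=
    ⟨F0.ri 8 (by omega) (E.oth 0 151 (by omega)) l2,
      F1.od 151 23 (by omega) (E.oth 1 8 (by omega)) (h.symm _ _ l2)⟩
  have L3 : Lnk (p (ψ 141)) n1 (p (ψ 258)) (-n2) :=
    ⟨F1.od 141 13 (by omega) (E.oth 1 258 (by omega)) (h.symm _ _ l3),
      F2.ev 258 2 (by omega) (E.oth 2 141 (by omega)) l3⟩
  have L4 : Lnk (p (ψ 143)) n1 (p (ψ 260)) (-n2) :=
    ⟨F1.od 143 15 (by omega) (E.oth 1 260 (by omega)) (h.symm _ _ l4),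
      F2.ev 260 4 (by omega) (E.oth 2 143 (by omega)) l4⟩
  have L5 : Lnk (p (ψ 130)) (-n1) (p (ψ 385)) (-e3) :=
    ⟨F1.ev 130 2 (by omega) (E.oth 1 385 (by omega)) l5,
      F3.le 385 (by omega) (E.oth 3 130 (by omega)) (h.symm _ _ l5)⟩
  have L6 := F1.ev 136 8 (by omega) (E.oth 1 802 (by omega)) (E.link 136 802 (by decide))
  have L7 := F1.ev 146 18 (by omega) (E.oth 1 896 (by omega)) (E.link 146 896 (by decide))
  have L8 : Lnk (p (ψ 152)) (-n1) (p (ψ 641)) (-e5) :=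
    ⟨F1.ev 152 24 (by omega) (E.oth 1 641 (by omega)) l8,
      F5.le 641 (by omega) (E.oth 5 152 (by omega)) (h.symm _ _ l8)⟩
  have L9 := F3.od 387 3 (by omega) (E.oth 3 802 (by omega)) (E.link 387 802 (by decide))
  have L10 := F3.ri 389 (by omega) (E.oth 3 808 (by omega)) (E.link 389 808 (by decide))
  have L11 : Lnk (p (ψ 386)) (-n3) (p (ψ 514)) (-n4) :=
    ⟨F3.ev 386 2 (by omega) (E.oth 3 514 (by omega)) l11,
      F4.ev 514 2 (by omega) (E.oth 4 386 (by omega)) (h.symm _ _ l11)⟩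
  have L12 : Lnk (p (ψ 388)) (-n3) (p (ψ 516)) (-n4) :=
    ⟨F3.ev 388 4 (by omega) (E.oth 3 516 (by omega)) l12,
      F4.ev 516 4 (by omega) (E.oth 4 388 (by omega)) (h.symm _ _ l12)⟩
  have L13 := F4.ev 520 8 (by omega) (E.oth 4 808 (by omega)) (E.link 520 808 (by decide))
  have L14 : Lnk (p (ψ 524)) (-n4) (p (ψ 650)) (-n5) :=
    ⟨F4.ev 524 12 (by omega) (E.oth 4 650 (by omega)) l14,
      F5.ev 650 10 (by omega) (E.oth 5 524 (by omega)) (h.symm _ _ l14)⟩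
  have L15 := F5.ev 644 4 (by omega) (E.oth 5 896 (by omega)) (E.link 644 896 (by decide))
  have L16 := F6.ev 770 2 (by omega) (E.oth 6 896 (by omega)) (E.link 770 896 (by decide))
  obtain ⟨-, a1, a2, a3⟩ := F0.hor (Or.inl h0)
  obtain ⟨b1, b2, -⟩ := L1.hor (by simp [h0]) (by simp [F0.ne])
  obtain ⟨c1, c2, -⟩ := L2.hor h0 F0.ne
  obtain ⟨d0, -, d2, -⟩ := F1.ver (Or.inr c1)
  obtain ⟨f0, f1, -⟩ := F2.ver (Or.inr (by simpa using b1))
  obtain ⟨-, g2, -⟩ := L3.hor c1 F1.nne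
  obtain ⟨-, i2, -⟩ := L4.hor c1 F1.nne
  obtain ⟨j1, j2, j3, -⟩ := L5.hor (by simp [c1]) (by simp [F1.nne])
  obtain ⟨k1, -, k3, -⟩ := L8.hor (by simp [c1]) (by simp [F1.nne])
  obtain ⟨m0, m1, m2, -⟩ := F3.hor (Or.inl (by simpa using j1))
  obtain ⟨q0, q1, q2, -⟩ := F5.hor (Or.inl (by simpa using k1))
  obtain ⟨r1, r2, -⟩ := L11.vert (by simp [m1]) (by simp [F3.nne])
  obtain ⟨-, s2, -⟩ := L12.vert (by simp [m1]) (by simp [F3.nne])
  obtain ⟨t0, t1, -⟩ := F4.hor (Or.inr (by simpa using r1))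
  obtain ⟨-, u2, -⟩ := L14.vert (by simp [t1]) (by simp [F4.nne])
  have v6 := L6.hor (by simp [c1])
  have v7 := L7.hor (by simp [c1])
  have v9 := L9.vert m1
  have v10 := L10.hor m0
  have v13 := L13.vert (by simp [t1])
  have v15 := L15.vert (by simp [q1])
  obtain ⟨lam, -, v16⟩ := L16
  have hQ := F6.ph 802 2 (by omega)
  have hR := F6.ph 808 8 (by omega)
  rw [F6.pv 770 2 (by omega)] at v16
  have perp : dot (p (ψ 896) - p (ψ 802)) (p (ψ 808) - p (ψ 802)) = 0 := by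
    have x1 : p (ψ 896) - p (ψ 802) = (-(lam + 2) : ℝ) * n6 := by
      rw [hQ]; push_cast at v16 ⊢; linear_combination v16
    have x2 : p (ψ 808) - p (ψ 802) = 6 * e6 := by rw [hQ, hR]; push_cast; ring
    rw [x1, x2]
    rcases F6.perp with q | q <;> simp [q, dot] <;> ring
  rw [F0.pv 1 1 (by omega), F2.pv 266 10 (by omega)] at b2
  rw [F0.pv 8 8 (by omega), F1.pv 151 23 (by omega)] at c2
  rw [F1.pv 141 13 (by omega), F2.pv 258 2 (by omega)] at g2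
  rw [F1.pv 143 15 (by omega), F2.pv 260 4 (by omega)] at i2
  rw [F1.pv 130 2 (by omega), F3.pv 385 1 (by omega)] at j2
  rw [F3.pv 386 2 (by omega), F4.pv 514 2 (by omega)] at r2
  rw [F3.pv 388 4 (by omega), F4.pv 516 4 (by omega)] at s2
  rw [F4.pv 524 12 (by omega), F5.pv 650 10 (by omega)] at u2
  rw [F1.pv 136 8 (by omega)] at v6
  rw [F1.pv 146 18 (by omega)] at v7
  rw [F3.pv 387 3 (by omega)] at v9
  rw [F3.pv 389 5 (by omega)] at v10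
  rw [F4.pv 520 8 (by omega)] at v13
  rw [F5.pv 644 4 (by omega)] at v15
  simp [h0, c1, f1, m0, m1, q1, t1] at b2 c2 g2 i2 j2 r2 s2 u2 v6 v7 v9 v10 v13 v15 j3 k3
  simp only [dot, sub_re, sub_im] at perp
  have w1 : e4.re = e3.re := by linarith
  have w2 : |e0.re| = 2 * |e1.im| := by
    rw [← abs_eq_of a3, ← abs_neg]; exact abs_mul_of (by norm_num) (by linarith)
  have w3 : (p (ψ 896)).re - (p (ψ 802)).re = 9 * e3.re - 6 * e5.re := by linarith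
  have w4 : (p (ψ 808)).re - (p (ψ 802)).re = 5 * e3.re := by linarith
  have w5 : (p (ψ 896)).im - (p (ψ 802)).im = 10 * e1.im := by linarith
  have w6 : (p (ψ 808)).im - (p (ψ 802)).im = -6 * e1.im := by linarith
  rw [w3, w4, w5, w6] at perp
  have rel : |e1.im| ^ 2 = 3 * (|e3.re| / 2) ^ 2 - 2 * (|e3.re| / 2) * (|e5.re| / 2) := by
    rw [sq_abs]
    rw [mul_comm] at j3 k3
    rcases same_sign j3 k3 with s | s
    · rw [abs_of_pos s.1, abs_of_pos s.2]; linarith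
    · rw [abs_of_neg s.1, abs_of_neg s.2]; linarith
  refine ⟨|e1.im|, |e5.re| / 2, |e3.re| / 2, by positivity, by positivity, by positivity,
    by simpa [Rel] using rel,
    ⟨-n0, wire_vert (by simp [a1]) (by simp [F0.nne]) ?_, fun w hw =>
      ⟨F0.ev 2 2 (by omega) (hw.other 0 (by omega)), F0.ev 6 6 (by omega) (hw.other 0 (by omega))⟩⟩,
    ⟨n5, wire_vert q1 F5.nne ?_, fun w hw =>
      ⟨F5.od 643 3 (by omega) (hw.other 5 (by omega)), F5.od 647 7 (by omega) (hw.other 5 (by omega))⟩⟩,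
    ⟨-n4, wire_vert (by simp [t1]) (by simp [F4.nne]) ?_, fun w hw =>
      ⟨F4.ev 532 20 (by omega) (hw.other 4 (by omega)), F4.ev 536 24 (by omega) (hw.other 4 (by omega))⟩⟩⟩
  · rw [F0.pv (pN 3 0) 2 (by decide), F0.pv (pN 3 1) 6 (by decide)]
    rw [abs_mul_of (k := 4) (y := e0.re) (by norm_num) (by simp; ring), w2]; ring
  · rw [F5.pv (pN 3 2) 3 (by decide), F5.pv (pN 3 3) 7 (by decide)]
    rw [abs_mul_of (k := 4) (y := e5.re) (by norm_num) (by simp; ring)]; ring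
  · rw [F4.pv (pN 3 4) 20 (by decide), F4.pv (pN 3 5) 24 (by decide), ← w1]
    rw [abs_mul_of (k := 4) (y := e4.re) (by norm_num) (by simp; ring)]; ring

end Pool.Agent.Lib.MP_a4368a_lc
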